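import Pool.Agent.Work.MP_f4b644_ag.Fat.L0

/-!
The top level with a last block of width between τ / 3 and 4 τ / 3.
-/

set_option autoImplicit false

namespace Pool.Agent.Work.MP_f4b644_ag.Fat

open Big Thin Multiset Big.Gad

/-- The data of a block in the region treated in this folder. -/
def Reg (m J ω K t δ : ℕ) : Prop :=
  28 ≤ m ∧ 100 ≤ J ∧ m + 2 ≤ J ∧ J + m ≤ 3 * K ∧ 3 * K < 4 * (J + m) ∧
    t * (J + m) = ω * K + δ ∧ δ < J + m

theorem root_third (I J r τ ω : ℕ) (hτ : τ + 2 = J + I) (hτ1 : 1 ≤ τ) (hr : r + (τ + ω) = I * J)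
    (H : ∀ K t, τ ≤ 3 * K → 3 * K < 4 * τ → ω * K ≤ t * τ → t * τ < ω * K + τ →
      Blk I J r K (K + t)) :
    Dag.Root I J r := by
  intro K hK _
  have e1 : I * J - r = τ + ω := by omega
  have e2 : J + I - 2 = τ := by omega
  rw [e1, e2, mul_comm K] at hK
  have hτ0 : 0 < τ := hτ1
  have E : Blk I J r τ (τ + ω) := H τ ω (by omega) (by omega) le_rfl (by omega)
  by_cases hs : 3 * K < τ
  · have h1 := E.toS
    have h2 := E.1
    obtain ⟨r', rfl⟩ : ∃ r', r = r' + 1 := ⟨r - 1, by omega⟩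
    obtain ⟨n, hn⟩ : ∃ n, τ = K + n := ⟨τ - K, by omega⟩
    rw [hn] at h1
    exact Dag.S_proj n h1
  · obtain ⟨a, K0, hK0, hK1, hKe⟩ : ∃ a K0, τ ≤ 3 * K0 ∧ 3 * K0 < 4 * τ ∧ K = a * τ + K0 := by
      have h1 := Nat.div_add_mod K τ
      have h2 := Nat.mod_lt K hτ0
      rw [mul_comm] at h1
      by_cases hc : τ ≤ 3 * (K % τ)
      · exact ⟨K / τ, K % τ, hc, by omega, h1.symm⟩
      · have h3 : K / τ ≠ 0 := by
          intro h0
          rw [h0] at h1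
          omega
        obtain ⟨a, ha⟩ : ∃ a, K / τ = a + 1 := Nat.exists_eq_succ_of_ne_zero h3
        rw [ha, add_mul] at h1
        exact ⟨a, K % τ + τ, by omega, by omega, by omega⟩
    obtain ⟨t0, ht1, ht2⟩ := Top_ceil (ω * K0) τ hτ0
    have B : Blk I J r K0 (K0 + t0) := H K0 t0 hK0 hK1 ht1 ht2
    have hf := Top_fin a τ ω K0 t0 (τ + ω) K r hτ0 rfl hKe ht2 hK
    have H1 := Blk.mul a hf E B
    rw [← hKe] at H1
    exact H1.toS

theorem root_reg (m J ω r : ℕ) (hm : 28 ≤ m) (hJ : 100 ≤ J) (hmJ : m + 2 ≤ J)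
    (hr : r + (J + m + ω) = (m + 2) * J)
    (H : ∀ K t δ, Reg m J ω K t δ → V m J (m + ω) K t (K + t) 0 0 0) :
    Dag.Root (m + 2) J r := by
  refine root_third (m + 2) J r (J + m) ω (by omega) (by omega) hr fun K t h1 h2 h3 h4 => ?_
  obtain ⟨δ, hδ⟩ := Nat.exists_eq_add_of_le h3
  refine Blk_of_V (X := m + ω) ?_ (H K t δ ⟨hm, hJ, hmJ, h1, h2, hδ, by omega⟩)
  have e : (m + 2) * J = (m + 1) * J + J := by ring
  omega

end Pool.Agent.Work.MP_f4b644_ag.Fat
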