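import Pool.Agent.Work.MP_f4b644_ag.Fat.Defs

/-!
Cumulative rounding.

`cum_split`: P a = a H / n (floor), Q a = the ceiling of (n * P a * t + a * Et) / (n x), h a = P (a + 1) - P a,
k a = Q (a + 1) - Q a. P 0 = Q 0 = 0, P n = H, Q n = Tk (n (H t + Et) = n x Tk); both are monotone
(`Finset.sum_range_succ_sub_sum` or `Finset.sum_range_induction`, `Monotone` telescoping `Finset.sum_range_tsub`).
From n P a ≤ a H < n P a + n one gets the bounds for h a; with A a = n * P a * t + a * Et one has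
A a ≤ n x Q a < A a + n x and A (a + 1) = A a + n * h a * t + Et. The bound h a * t ≤ k a * x follows from the last
inequality and n x ≤ Et.
`band_cut`: n = H / a, j i = if i = 0 then a + H % a else a.
-/

set_option autoImplicit false

namespace Pool.Agent.Work.MP_f4b644_ag.Fat

theorem Cum_floor (n : ℕ) (hn : 1 ≤ n) : ∃ F : ℕ → ℕ, Monotone F ∧
    ∀ a, n * F a ≤ a ∧ a < n * F a + n :=
  ⟨fun a => a / n, fun _ _ h => Nat.div_le_div_right h,
    fun a => ⟨Nat.mul_div_le a n, Nat.lt_mul_div_succ a hn⟩⟩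

theorem Cum_ceil (n : ℕ) (hn : 1 ≤ n) : ∃ F : ℕ → ℕ, Monotone F ∧
    ∀ a, a ≤ n * F a ∧ n * F a < a + n := by
  obtain ⟨F, h1, h2⟩ := Cum_floor n hn
  refine ⟨fun a => F (a + (n - 1)), fun _ _ h => h1 (Nat.add_le_add_right h _), fun a => ?_⟩
  have := h2 (a + (n - 1))
  dsimp only
  omega

theorem Cum_eq {n u v : ℕ} (h1 : n * u < n * v + n) (h2 : n * v < n * u + n) : u = v := by
  have h3 : u < v + 1 := Nat.lt_of_mul_lt_mul_left (a := n) (by rwa [Nat.mul_succ])
  have h4 : v < u + 1 := Nat.lt_of_mul_lt_mul_left (a := n) (by rwa [Nat.mul_succ])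
  omega


theorem cum_split (n x t H Tk Et : ℕ) (hn : 1 ≤ n) (hx : 1 ≤ x) (he : x * Tk = H * t + Et)
    (hE : n * x ≤ Et) :
    ∃ h k : ℕ → ℕ, ∑ a ∈ Finset.range n, h a = H ∧ ∑ a ∈ Finset.range n, k a = Tk ∧
      ∀ a < n, H + 1 ≤ n * h a + n ∧ n * h a + 1 ≤ H + n ∧ h a * t ≤ k a * x ∧
        n * (k a * x) < n * (h a * t) + Et + n * x ∧ n * (h a * t) + Et < n * (k a * x) + n * x :=
  by
  have hnx : 1 ≤ n * x := Nat.mul_pos hn hx
  obtain ⟨F, F1, F2⟩ := Cum_floor n hn
  obtain ⟨G, G1, G2⟩ := Cum_ceil (n * x) hnx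
  have P1 : Monotone fun a => F (a * H) := fun a b h => F1 (Nat.mul_le_mul_right H h)
  have Q1 : Monotone fun a => G (n * F (a * H) * t + a * Et) := fun a b h =>
    G1 (Nat.add_le_add (Nat.mul_le_mul_right t (Nat.mul_le_mul_left n (P1 h)))
      (Nat.mul_le_mul_right Et h))
  have P2 : F (0 * H) = 0 := Cum_eq (n := n) (by have := F2 (0 * H); omega) (by omega)
  have P3 : F (n * H) = H :=
    Cum_eq (n := n) (by have := F2 (n * H); omega) (by have := F2 (n * H); omega)
  have e : n * H * t + n * Et = n * x * Tk := by rw [mul_assoc n x, he]; ring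
  refine ⟨fun a => F ((a + 1) * H) - F (a * H), fun a => G (n * F ((a + 1) * H) * t + (a + 1) * Et) -
    G (n * F (a * H) * t + a * Et), ?_, ?_, fun a _ => ?_⟩
  · rw [Finset.sum_range_tsub P1, P2, P3, Nat.sub_zero]
  · rw [Finset.sum_range_tsub Q1, P2, P3, e]
    have h1 := G2 (n * x * Tk)
    have h2 := G2 (n * 0 * t + 0 * Et)
    rw [Cum_eq (n := n * x) (u := G (n * x * Tk)) (v := Tk) (by omega) (by omega),
      Cum_eq (n := n * x) (u := G (n * 0 * t + 0 * Et)) (v := 0) (by simpa using h2.2) (by omega),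
      Nat.sub_zero]
  · obtain ⟨h, hh⟩ := Nat.exists_eq_add_of_le (P1 (Nat.le_succ a))
    obtain ⟨k, hk⟩ := Nat.exists_eq_add_of_le (Q1 (Nat.le_succ a))
    have a1 := F2 (a * H)
    have a2 := F2 ((a + 1) * H)
    have b1 := G2 (n * F (a * H) * t + a * Et)
    have b2 := G2 (n * F ((a + 1) * H) * t + (a + 1) * Et)
    simp only [Nat.succ_eq_add_one] at hh hk
    dsimp only
    rw [hk] at b2 ⊢
    rw [hh] at a2 b2 ⊢
    rw [Nat.add_sub_cancel_left, Nat.add_sub_cancel_left]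
    have c1 : n * (F (a * H) + h) * t = n * F (a * H) * t + n * (h * t) := by ring
    have c2 : n * x * (G (n * F (a * H) * t + a * Et) + k) =
      n * x * G (n * F (a * H) * t + a * Et) + n * (k * x) := by ring
    rw [c1, c2, Nat.add_one_mul] at b2
    rw [Nat.mul_add, Nat.add_one_mul] at a2
    exact ⟨by omega, by omega, (Nat.lt_of_mul_lt_mul_left (a := n) (by omega)).le, by omega,
      by omega⟩

theorem band_cut (a H : ℕ) (ha : 1 ≤ a) (hH : a ≤ H) :
    ∃ (n : ℕ) (j : ℕ → ℕ), 1 ≤ n ∧ ∑ i ∈ Finset.range n, j i = H ∧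
      ∀ i < n, a ≤ j i ∧ j i + 1 ≤ 2 * a := by
  have h1 : 1 ≤ H / a := Nat.div_pos hH ha
  have h2 := Nat.mod_lt H ha
  have h3 := Nat.div_add_mod H a
  obtain ⟨q, hq⟩ := Nat.exists_eq_add_of_le' h1
  refine ⟨q + 1, fun i => if i = 0 then a + H % a else a, by omega, ?_, fun i _ => ?_⟩
  · rw [hq, Nat.mul_succ] at h3
    rw [Finset.sum_range_succ']
    simp only [Nat.succ_ne_zero, if_false, if_true, Finset.sum_const, Finset.card_range,
      smul_eq_mul, Nat.mul_comm q a]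
    omega
  · dsimp only
    split_ifs <;> omega

end Pool.Agent.Work.MP_f4b644_ag.Fat
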