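import Pool.Agent.Work.MP_f4b644_ag.Fat.SHall
import Pool.Agent.Work.MP_f4b644_ag.Fat.Cum

/-!
n ordinary strips of excess x = m - y and one strip W (height hW, excess xW, sW tangents with yW mates).

`V_opt`: write n = n' + 1. From `hδ`, `hX`, `hJ`, `hk`, `hB`, `hG`, `hEt` and yW sW + xW sW = m sW (by `hW1`) one
gets the identity x (n K) = x B' + H t + Et (check it with `nlinarith` or `linear_combination` over ℤ), so
B' ≤ n K; put Tk = n K - B' and apply `cum_split`. For an ordinary strip a: k a ≤ K because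
n k x < n h t + Et + n x ≤ x Tk + n' t + n x ≤ x n K (`h2`); s a = K - k a, E a = k a * x - h a * t;
n x (s a) < x B' + n' t + n x; n (E a) < Et + n x; 2 ≤ h a by `hH`. Capacity: `cap_big` and `M1`
(n x ((y + 1) s + x) ≤ x (m + 1) (H + 1 - n) ≤ n x (m + 1) h). `H1` of `V_hall` is `hall` divided by n x.
The strip W has index n and demand G - δ (truncated). Sums over range (n + 1): `Finset.sum_range_succ`, and
∑ s a = n K - Tk = B', ∑ E a = x Tk - H t = Et (state them additively: ∑ (s a + k a) = n K etc.).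
Use functions like fun a => if a < n then h a else hW.
-/

set_option autoImplicit false

namespace Pool.Agent.Work.MP_f4b644_ag.Fat

open Big Thin Multiset Big.Gad

theorem Opt_sum (n c : ℕ) (f : ℕ → ℕ) :
    ∑ a ∈ Finset.range (n + 1), (if a < n then f a else c) = ∑ a ∈ Finset.range n, f a + c := by
  rw [Finset.sum_range_succ, if_neg (lt_irrefl n),
    Finset.sum_congr rfl fun a ha => if_pos (Finset.mem_range.1 ha)]

theorem Opt_one {n x t H K B' Et h k : ℕ} (hx : 1 ≤ x)
    (id1 : x * ((n + 1) * K) = x * B' + H * t + Et) (h2 : n * t + (n + 1) * x ≤ x * B')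
    (hH : 2 * (n + 1) ≤ H)
    (c : H + 1 ≤ (n + 1) * h + (n + 1) ∧ (n + 1) * h + 1 ≤ H + (n + 1) ∧ h * t ≤ k * x ∧
      (n + 1) * (k * x) < (n + 1) * (h * t) + Et + (n + 1) * x ∧
      (n + 1) * (h * t) + Et < (n + 1) * (k * x) + (n + 1) * x) :
    k ≤ K ∧ 2 ≤ h ∧ (n + 1) * x * (K - k) ≤ x * B' + n * t + (n + 1) * x ∧
      (n + 1) * (k * x - h * t) ≤ Et + (n + 1) * x := by
  obtain ⟨c1, c2, c3, c4, c5⟩ := c
  have b1 := Nat.mul_le_mul_right t (show (n + 1) * h ≤ H + n by omega)
  have b2 := Nat.mul_le_mul_right t (show H ≤ (n + 1) * h + n by omega)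
  have hk : k ≤ K := Nat.le_of_mul_le_mul_left (c := (n + 1) * x) (by linarith) (by positivity)
  refine ⟨hk, Nat.lt_of_mul_lt_mul_left (a := n + 1) (by omega), ?_, ?_⟩
  · obtain ⟨s, rfl⟩ := Nat.exists_eq_add_of_le hk
    rw [Nat.add_sub_cancel_left]
    linarith
  · obtain ⟨E, hE⟩ := Nat.exists_eq_add_of_le c3
    rw [hE] at c4 ⊢
    rw [Nat.add_sub_cancel_left]
    linarith

theorem V_opt (m J ω K t δ n x y H hW xW kW sW yW G B' Et : ℕ) (hm : 4 ≤ m) (hy : 3 * y + 2 ≤ m)
    (hxy : x + y = m) (hn : 1 ≤ n) (hδ : t * (J + m) = ω * K + δ) (hX : n * x + xW = m + ω)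
    (hJ : H + hW = J) (hk : kW + sW = K) (hB : B' + sW = K + t) (hG : G + hW * t = kW * xW + δ)
    (hEt : Et + G = y * B' + yW * sW) (hW1 : 0 < sW → xW + yW = m ∧ yW ≤ x) (hW2 : y ≤ xW)
    (hW3 : Cap m hW xW sW yW) (hW4 : G ≤ y * B') (h1 : n * x ≤ Et)
    (h2 : (n - 1) * t + n * x ≤ x * B') (hH : 2 * n ≤ H)
    (M1 : (y + 1) * (x * B' + (n - 1) * t + n * x) + n * x * x + x * (m + 1) * n ≤
      x * (m + 1) * (H + 1))
    (hall : x * Et + n * x * x + y * (x * B' + (n - 1) * t + n * x) ≤ n * x * (y * B' + yW * sW)) :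
    V m J (m + ω) K t (K + t) 0 0 0 := by
  obtain ⟨n, rfl⟩ : ∃ n', n = n' + 1 := ⟨n - 1, by omega⟩
  rw [Nat.add_sub_cancel] at h2 M1 hall
  have hx : 1 ≤ x := by omega
  have w1 : yW * sW + xW * sW = m * sW := by
    rcases Nat.eq_zero_or_pos sW with h | h
    · simp [h]
    · rw [← (hW1 h).1]
      ring
  have id1 : x * ((n + 1) * K) = x * B' + H * t + Et := by
    zify at hxy hδ hX hJ hk hB hG hEt w1 ⊢
    linear_combination (K : ℤ) * hX - hδ - (t : ℤ) * hJ + (xW : ℤ) * hk + hG - hEt -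
      (B' : ℤ) * hxy - (m : ℤ) * hB - w1
  obtain ⟨Tk, hT⟩ : ∃ Tk, (n + 1) * K = B' + Tk :=
    Nat.exists_eq_add_of_le (Nat.le_of_mul_le_mul_left (c := x) (by omega) hx)
  have id2 : x * Tk = H * t + Et := by
    rw [hT, mul_add] at id1
    omega
  obtain ⟨h, k, c1, c2, c3⟩ := cum_split (n + 1) x t H Tk Et hn hx id2 h1
  have o := fun a ha => Opt_one hx id1 h2 hH (c3 a ha)
  have s1 : ∑ a ∈ Finset.range (n + 1), (K - k a) = B' := by
    have e : ∑ a ∈ Finset.range (n + 1), (K - k a + k a) = (n + 1) * K := by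
      rw [Finset.sum_congr rfl fun a ha => Nat.sub_add_cancel (o a (Finset.mem_range.1 ha)).1,
        Finset.sum_const, Finset.card_range, smul_eq_mul]
    rw [Finset.sum_add_distrib, c2] at e
    omega
  have s2 : ∑ a ∈ Finset.range (n + 1), (k a * x - h a * t) = Et := by
    have e : ∑ a ∈ Finset.range (n + 1), (k a * x - h a * t + h a * t) = Tk * x := by
      rw [Finset.sum_congr rfl fun a ha => Nat.sub_add_cancel (c3 a (Finset.mem_range.1 ha)).2.2.1,
        ← Finset.sum_mul, c2]
    rw [Finset.sum_add_distrib, ← Finset.sum_mul, c1, mul_comm Tk] at e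
    omega
  have s3 : ∑ b ∈ Finset.range (n + 1 + 1), (if b < n + 1 then y else yW) *
      (if b < n + 1 then K - k b else sW) = y * B' + yW * sW := by
    rw [← s1, Finset.mul_sum, ← Opt_sum]
    refine Finset.sum_congr rfl fun b _ => ?_
    split_ifs <;> rfl
  have key := V_hall m K t (n + 1 + 1) (fun a => if a < n + 1 then h a else hW)
    (fun a => if a < n + 1 then x else xW) (fun a => if a < n + 1 then K - k a else sW)
    (fun a => if a < n + 1 then y else yW)
    (fun a => if a < n + 1 then k a * x - h a * t else G - δ) (by rw [Opt_sum, s1, hB])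
    (fun a _ => by split_ifs <;> omega)
    (fun a _ ha => by
      split_ifs at ha ⊢
      exacts [hxy, (hW1 ha).1])
    (fun a ha b hb hab hs => by
      split_ifs at hs ⊢
      exacts [by omega, hW2, (hW1 hs).2, by omega])
    (fun a _ => by
      split_ifs with ha
      · obtain ⟨-, o2, o3, -⟩ := o a ha
        refine cap_big hm hy o2 hxy (Nat.le_of_mul_le_mul_left (c := (n + 1) * x) ?_ (by positivity))
        have b1 := Nat.mul_le_mul_left (y + 1) o3
        have b2 := Nat.mul_le_mul_left (x * (m + 1)) (c3 a ha).1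
        linarith
      · exact hW3)
    (fun a _ => by
      split_ifs with ha
      · rw [Nat.sub_sub_self (o a ha).1]
        omega
      · rw [← hk, Nat.add_sub_cancel]
        omega)
    (fun a _ => by
      rw [s3]
      split_ifs with ha
      · obtain ⟨-, -, o3, o4⟩ := o a ha
        refine Nat.le_of_mul_le_mul_left (c := (n + 1) * x) ?_ (by positivity)
        have b1 := Nat.mul_le_mul_left y o3
        have b2 := Nat.mul_le_mul_left x o4
        linarith
      · omega)
    (by
      rw [s3, Opt_sum, s2]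
      omega)
  rwa [Opt_sum, Opt_sum, c1, hJ, Finset.sum_const, Finset.card_range, smul_eq_mul, hX] at key

end Pool.Agent.Work.MP_f4b644_ag.Fat
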