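import Pool.Agent.Work.MP_f4b644_ag.Fat.OptLM
import Pool.Agent.Work.MP_f4b644_ag.Fat.Opt
import Pool.Agent.Work.MP_f4b644_ag.Fat.L0b

/-!
The range 3 m ≤ ω ≤ m² / 2, 9 v ≤ I J: n ≥ 4 strips and a strip W without tangents. τ = J + m.

`optL_par`: y - 1 = the ceiling of τ / K ∈ {1, 2, 3}, x = m - y, xmin = max (y + 1) (the ceiling of t / K),
n = (m + ω - xmin) / x, xW = m + ω - n x ∈ [xmin, xmin + x). Useful: t τ < ω K + τ ≤ (ω + y - 1) K, so
(xmin - 1) τ < ω + y - 1 if xmin is the ceiling; τ ≥ 2 m + 2. 4 ≤ n: 4 x + xmin ≤ m + ω; for xmin = y + 1 this is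
3 m ≤ ω + 3 y - 1; otherwise (xmin - 1) (2 m + 2) < ω + 3 and xmin ≥ 4 force ω ≥ 6 m and xmin ≤ ω / 4 + 1.
`optL_facts`: cases on y. (y + 1) t τ < (y + 1) ω K + (y + 1) τ ≤ (4 ω + 5) τ; (y - 1) t τ ≥ ω (y - 1) K ≥ ω τ;
hW ω K ≤ hW t τ ≤ K τ xW + δ τ ≤ K τ (xW + y - 1); 1 ≤ hW because G < t ≤ xW K; n x ≤ m + ω ≤ m + m² / 2 ≤ x x;
3 K ≥ 2 m + 2 and n (m - 4) ≤ m + m² / 2 give n ≤ K (3 n ≤ 2 m + 2 for 28 ≤ m: 3 m² / 2 + 3 m ≤ (2 m + 2) (m - 4));
4 t τ < 4 (ω + 3) K ≤ (2 m² + 12) K ≤ (m + 4) τ K. Capacity of W: xW K ≤ G + hW t < (hW + 1) t ≤ 2 hW t, so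
2 xW ≤ hW (m + 4) ≤ 2 hW (m - 2).
`V_regL`: hW = (K xW + δ) / t, G = the remainder; `optL_main` with a = (y + 1) (K + t), b = (y + 1) t gives
hW + 2 n ≤ J (x a > 0) and `M1` ((y + 1) n x + n x x = n x (m + 1)). `V_opt` with kW = K, sW = 0, yW = 0, B' = K + t,
Et = y B' - G. `h1`: n x + G ≤ m + ω + t ≤ y K + y t because y K ≥ τ. `h2`: n - 1 ≤ x, n ≤ K.
`hall`: Et ≤ y B', so it suffices that n x m + y (n - 1) t ≤ (n - 2) x y B'; 2 (n - 2) ≥ n, x ≥ 2,
y K ≥ τ ≥ 2 m.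
-/

set_option autoImplicit false

namespace Pool.Agent.Work.MP_f4b644_ag.Fat

open Big Thin

/-- the parameters of the strips for 3 m ≤ ω -/
def LPar (m J ω K t y x n xW : ℕ) : Prop :=
  2 ≤ y ∧ y ≤ 4 ∧ J + m ≤ (y - 1) * K ∧ (y - 2) * K < J + m ∧ x + y = m ∧ 4 ≤ n ∧
    n * x + xW = m + ω ∧ y + 1 ≤ xW ∧ t ≤ xW * K ∧ xW * (J + m) ≤ m * (J + m) + ω

theorem OptL_cut (X x x0 : ℕ) (hx : 1 ≤ x) (h : 4 * x + x0 ≤ X) :
    ∃ n xW, 4 ≤ n ∧ n * x + xW = X ∧ x0 ≤ xW ∧ xW < x0 + x := by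
  have h1 := Nat.div_add_mod (X - x0) x
  have h2 := Nat.mod_lt (X - x0) (show 0 < x by omega)
  refine ⟨(X - x0) / x, x0 + (X - x0) % x, (Nat.le_div_iff_mul_le (by omega)).2 (by omega), ?_,
    by omega, by omega⟩
  rw [mul_comm]
  omega

theorem OptL_par' (m J ω K t δ y : ℕ) (R : Reg m J ω K t δ) (h1 : 3 * m ≤ ω) (hy1 : 2 ≤ y)
    (hy2 : y ≤ 4) (hy3 : J + m ≤ (y - 1) * K) (hy4 : (y - 2) * K < J + m) :
    ∃ x n xW, LPar m J ω K t y x n xW := by
  obtain ⟨r1, r2, r3, r4, r5, r6, r7⟩ := R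
  obtain ⟨x, hx⟩ : ∃ x, x + y = m := ⟨m - y, by omega⟩
  rcases le_or_gt t ((y + 1) * K) with h | h
  · obtain ⟨n, xW, a1, a2, a3, a4⟩ := OptL_cut (m + ω) x (y + 1) (by omega) (by omega)
    exact ⟨x, n, xW, hy1, hy2, hy3, hy4, hx, a1, a2, a3, h.trans (Nat.mul_le_mul_right K a3),
      (Nat.mul_le_mul_right _ (by omega)).trans (Nat.le_add_right _ _)⟩
  · have d1 := Nat.div_add_mod (t - 1) K
    have d2 := Nat.mod_lt (t - 1) (show 0 < K by omega)
    have d3 : y + 1 ≤ (t - 1) / K := (Nat.le_div_iff_mul_le (by omega)).2 (by omega)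
    generalize (t - 1) / K = e at d1 d3
    have d4 : e * (J + m) < ω := by
      have d5 := Nat.mul_le_mul_right (J + m) (show K * e + 1 ≤ t by omega)
      refine Nat.lt_of_mul_lt_mul_left (a := K) ?_
      have e1 : (K * e + 1) * (J + m) = K * (e * (J + m)) + (J + m) := by ring
      rw [mul_comm K ω]
      omega
    have d6 := Nat.mul_le_mul_left e (show 2 * m + 2 ≤ J + m by omega)
    have d7 := Nat.mul_le_mul_right m (show 3 ≤ e by omega)
    have e2 : e * (2 * m + 2) = 2 * (e * m) + 2 * e := by ring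
    obtain ⟨n, xW, a1, a2, a3, a4⟩ := OptL_cut (m + ω) x (e + 1) (by omega) (by omega)
    refine ⟨x, n, xW, hy1, hy2, hy3, hy4, hx, a1, a2, by omega, ?_, ?_⟩
    · have d8 := Nat.mul_le_mul_right K a3
      rw [add_mul, mul_comm e K] at d8
      omega
    · have d8 := Nat.mul_le_mul_right (J + m) (show xW ≤ e + m by omega)
      rw [add_mul] at d8
      omega

theorem optL_par (m J ω K t δ : ℕ) (R : Reg m J ω K t δ) (h1 : 3 * m ≤ ω) :
    ∃ y x n xW, LPar m J ω K t y x n xW := by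
  have r4 := R.2.2.2.1
  have r2 := R.2.1
  rcases le_or_gt (J + m) K with h | h
  · exact ⟨2, OptL_par' m J ω K t δ 2 R h1 (by omega) (by omega) (by omega) (by omega)⟩
  rcases le_or_gt (J + m) (2 * K) with h' | h'
  · exact ⟨3, OptL_par' m J ω K t δ 3 R h1 (by omega) (by omega) (by omega) (by omega)⟩
  · exact ⟨4, OptL_par' m J ω K t δ 4 R h1 (by omega) (by omega) (by omega) (by omega)⟩

theorem optL_facts {m J ω K t δ y x n xW : ℕ} (R : Reg m J ω K t δ) (P : LPar m J ω K t y x n xW)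
    (h1 : 3 * m ≤ ω) (h2 : 2 * ω ≤ m * m) (hW G : ℕ) (hG : G + hW * t = K * xW + δ) (hGt : G < t) :
    (y + 1) * K ≤ 4 * (J + m) ∧ (y + 1) * t ≤ 4 * ω + 4 ∧ ω ≤ (y - 1) * t ∧
      hW * ω ≤ (J + m) * (xW + y - 1) ∧ 1 ≤ hW ∧ xW + 2 * hW ≤ m * hW ∧ n ≤ x ∧ n ≤ K := by
  obtain ⟨r1, r2, r3, r4, r5, r6, r7⟩ := R
  obtain ⟨p1, p2, p3, p4, p5, p6, p7, p8, p9, -⟩ := P
  have hτ : 2 * m + 2 ≤ J + m := by omega
  generalize J + m = τ at *
  obtain ⟨u, rfl⟩ : ∃ u, y = u + 1 := ⟨y - 1, by omega⟩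
  rw [Nat.add_sub_cancel] at p3
  have f1 : (u + 1 + 1) * K ≤ 4 * τ := by
    have h : u = 1 ∨ u = 2 ∨ u = 3 := by omega
    rcases h with rfl | rfl | rfl <;> omega
  have f5 : 1 ≤ hW := by
    by_contra h
    obtain rfl : hW = 0 := by omega
    rw [mul_comm] at p9
    omega
  have hx : n * x ≤ m + ω := by omega
  obtain ⟨k, rfl⟩ : ∃ k, m = k + 4 := ⟨m - 4, by omega⟩
  have hk : k ≤ x := by omega
  have h24 := Nat.mul_le_mul_right k (show 24 ≤ k by omega)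
  have e0 : (k + 4) * (k + 4) = k * k + 8 * k + 16 := by ring
  refine ⟨f1, ?_, ?_, ?_, f5, ?_, ?_, ?_⟩
  · have a1 := Nat.mul_le_mul_left ω f1
    have a2 := Nat.mul_le_mul_right δ (show u + 1 + 1 ≤ 5 by omega)
    refine Nat.lt_succ_iff.1 (Nat.lt_of_mul_lt_mul_right (a := τ) ?_)
    have e1 : (u + 1 + 1) * t * τ = ω * ((u + 1 + 1) * K) + (u + 1 + 1) * δ := by
      rw [mul_assoc, r6]
      ring
    have e2 : (4 * ω + 4).succ * τ = ω * (4 * τ) + 5 * τ := by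
      rw [Nat.succ_eq_add_one]
      ring
    omega
  · have a1 := Nat.mul_le_mul_left ω p3
    refine Nat.le_of_mul_le_mul_right (c := τ) ?_ (by omega)
    have e1 : u * t * τ = ω * (u * K) + u * δ := by
      rw [mul_assoc, r6]
      ring
    rw [Nat.add_sub_cancel]
    omega
  · have a1 := Nat.mul_le_mul_right τ (show hW * t ≤ K * xW + u * K by omega)
    refine Nat.le_of_mul_le_mul_right (c := K) ?_ (by omega)
    have e1 : hW * t * τ = hW * ω * K + hW * δ := by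
      rw [mul_assoc, r6]
      ring
    have e2 : τ * (xW + u) * K = (K * xW + u * K) * τ := by ring
    rw [show xW + (u + 1) - 1 = xW + u by omega]
    omega
  · have a1 : 4 * t < (k + 8) * K := by
      refine Nat.lt_of_mul_lt_mul_right (a := τ) ?_
      have b1 := Nat.mul_le_mul_left (k + 8) hτ
      have e1 : (k + 8) * (2 * (k + 4) + 2) = 2 * (k * k) + 26 * k + 80 := by ring
      have b2 := Nat.mul_le_mul_right K (show 4 * ω + 12 ≤ (k + 8) * τ by omega)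
      have e2 : (k + 8) * K * τ = (k + 8) * τ * K := by ring
      have e3 : (4 * ω + 12) * K = 4 * (ω * K) + 12 * K := by ring
      have e4 : 4 * t * τ = 4 * (t * τ) := by ring
      omega
    have a2 := Nat.mul_le_mul_right t f5
    have a3 := Nat.mul_le_mul_left hW a1.le
    have a4 : 2 * xW ≤ hW * (k + 8) := by
      refine Nat.le_of_mul_le_mul_right (c := K) ?_ (by omega)
      have e1 : 2 * xW * K = 2 * (K * xW) := by ring
      have e2 : hW * (k + 8) * K = hW * ((k + 8) * K) := by ring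
      have e3 : hW * (4 * t) = 4 * (hW * t) := by ring
      omega
    have a5 := Nat.mul_le_mul_left hW (show k + 8 ≤ 2 * (k + 2) by omega)
    have e1 : hW * (2 * (k + 2)) = 2 * (k * hW) + 4 * hW := by ring
    have e2 : (k + 4) * hW = k * hW + 4 * hW := by ring
    omega
  · have a1 := Nat.mul_le_mul hk hk
    exact Nat.le_of_mul_le_mul_right (c := x) (by omega) (by omega)
  · have a1 := Nat.mul_le_mul_left n hk
    have a2 : 3 * n ≤ 2 * (k + 4) + 2 := by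
      refine Nat.le_of_mul_le_mul_right (c := k) ?_ (by omega)
      have e1 : 3 * n * k = 3 * (n * k) := by ring
      have e2 : (2 * (k + 4) + 2) * k = 2 * (k * k) + 10 * k := by ring
      omega
    omega

theorem V_regL (m J ω K t δ : ℕ) (R : Reg m J ω K t δ) (h1 : 3 * m ≤ ω) (h2 : 2 * ω ≤ m * m)
    (hv : 9 * (J + m + ω) ≤ (m + 2) * J) : V m J (m + ω) K t (K + t) 0 0 0 := by
  obtain ⟨y, x, n, xW, P⟩ := optL_par m J ω K t δ R h1
  have R' := R
  have P' := P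
  obtain ⟨r1, r2, r3, r4, r5, r6, r7⟩ := R'
  obtain ⟨p1, p2, p3, p4, p5, p6, p7, p8, p9, p10⟩ := P'
  have ht : 0 < t := by
    refine Nat.pos_of_ne_zero fun h => ?_
    have := Nat.mul_pos (show 0 < ω by omega) (show 0 < K by omega)
    rw [h, zero_mul] at r6
    omega
  have d1 := Nat.mod_add_div' (K * xW + δ) t
  have d2 := Nat.mod_lt (K * xW + δ) ht
  generalize (K * xW + δ) / t = hW at d1
  generalize (K * xW + δ) % t = G at d1 d2
  obtain ⟨f1, f2, f3, f4, f5, f6, f7, f8⟩ := optL_facts R P h1 h2 hW G d1 d2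
  have hM := optL_main m J ω y x n xW hW ((y + 1) * (K + t)) ((y + 1) * t) r1 r2 r3 h1 h2 hv p1 p2 p5
    p6 p7 p8 p10 f4 (by rw [mul_add]; omega) f2
  have hJ : hW + 2 * n < J + 1 := by
    have := Nat.mul_pos (show 0 < x by omega)
      (Nat.mul_pos (show 0 < y + 1 by omega) (show 0 < K + t by omega))
    exact Nat.lt_of_mul_lt_mul_left (a := x * (m + 1)) (by omega)
  obtain ⟨H, rfl⟩ : ∃ H, J = H + hW := ⟨J - hW, by omega⟩
  obtain ⟨u, rfl⟩ : ∃ u, y = u + 1 := ⟨y - 1, by omega⟩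
  obtain ⟨k, rfl⟩ : ∃ k, n = k + 2 := ⟨n - 2, by omega⟩
  rw [Nat.add_sub_cancel] at p3 f3
  rw [show k + 2 - 1 = k + 1 by omega] at hM
  have e1 : (u + 1) * (K + t) = u * K + K + u * t + t := by ring
  obtain ⟨Et, hEt⟩ : ∃ Et, Et + G = (u + 1) * (K + t) := ⟨(u + 1) * (K + t) - G, by omega⟩
  refine V_opt m (H + hW) ω K t δ (k + 2) x (u + 1) H hW xW K 0 0 G (K + t) Et (by omega) (by omega)
    p5 (by omega) r6 p7 rfl rfl rfl d1 (by omega) (fun h => absurd h (by omega)) (by omega)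
    (cap_pure (by omega) f5 f6) (by omega) (by omega) ?_ (by omega) ?_ ?_
  · have a1 := Nat.mul_le_mul_right t (show k + 2 - 1 ≤ x by omega)
    have a2 := Nat.mul_le_mul_right x f8
    rw [mul_add, mul_comm x K]
    omega
  · rw [show k + 2 - 1 = k + 1 by omega]
    subst p5
    linarith
  · rw [show k + 2 - 1 = k + 1 by omega]
    have a1 := Nat.mul_le_mul_left x (show Et ≤ (u + 1) * (K + t) by omega)
    have a2 : 2 * m ≤ (u + 1) * K := by
      rw [add_mul]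
      omega
    have a3 := Nat.mul_le_mul_left (k * x) a2
    have a4 := Nat.mul_le_mul_right (x * m) (show k + 2 ≤ 2 * k by omega)
    have a5 : k + 1 ≤ k * x := le_trans (by omega) (Nat.mul_le_mul_left k (show 2 ≤ x by omega))
    have a6 := Nat.mul_le_mul_right ((u + 1) * t) a5
    subst p5
    linarith

end Pool.Agent.Work.MP_f4b644_ag.Fat
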