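import Pool.Agent.Work.MP_f4b644_ag.Fat.OptS0

/-!
Capacity of the loaded strip W (height h = J / 2, excess ξ = xW, s tangents with z = m - ξ mates). τ = J + m.

`optS_D`: cases on y (`interval_cases`), on ρ and on the sign of (ρ - 1) ξ + 2 y - m; in the nontrivial case it is a
quadratic polynomial in ξ with negative discriminant (`nlinarith [sq_nonneg (..)]`, e.g. for ρ = 4, y = 2 the
square of 24 ξ - 13 m scaled; substitute m = ξ + z first).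
`optS_cap`: let ρ = 3, ρ' = 1 if m ≤ 45 and ρ = 4, ρ' = 2 otherwise; then τ ≤ ρ h and ξ ≤ ρ' h (50 ≤ h, m + 1 ≤ 2 h).
κ K ≤ ... : 3 K ≤ κ τ with κ = 4, 3, 2 for y = 2, y = 3, 4 ≤ y (from 3 K < 4 τ and (y - 1) K < 2 τ).
s ξ = K ξ - kW ξ ≤ K ξ + δ - h t; multiply by τ: τ s ξ + h ω K ≤ K τ ξ + τ τ. If τ ξ ≤ h ω this gives s ξ ≤ τ ≤ ρ h.
Otherwise 3 s ξ ≤ κ (τ ξ - h ω) + 3 τ ≤ h (κ (ρ ξ - ω) + 3 ρ) and ρ ξ - ω ≤ (ρ - 1) ξ + 2 y - m by
ξ + m ≤ ω + 2 y. In both cases 3 s ξ ≤ h D with the D of `optS_D`. If 46 ≤ m then 5 ≤ ξ: multiply `hl` by τ,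
(h + 1) ω K ≤ K τ ξ + τ τ ≤ K τ (ξ + 3), τ ≤ 4 h, so ω < 4 (ξ + 3). Multiply the two conditions of `cap_poly` by 3 ξ.
-/

set_option autoImplicit false

namespace Pool.Agent.Work.MP_f4b644_ag.Fat

theorem optS_D (m ξ z y κ ρ ρ' D : ℕ) (hm : 28 ≤ m) (hz : ξ + z = m) (hy : y + 1 ≤ ξ)
    (hκ : (y = 2 ∧ κ = 4) ∨ (y = 3 ∧ κ = 3) ∨ (4 ≤ y ∧ y ≤ 6 ∧ κ = 2))
    (hρ : (m ≤ 45 ∧ ρ = 3 ∧ ρ' = 1) ∨ (46 ≤ m ∧ ρ = 4 ∧ ρ' = 2 ∧ 5 ≤ ξ))
    (hD : D = κ * ((ρ - 1) * ξ + 2 * y - m) + 3 * ρ) :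
    (z + 1) * D + 3 * ρ' * ξ ≤ 3 * (m + 1) * ξ ∧ z * D + 3 * ρ' * ξ + 3 * ξ ≤ 3 * m * ξ := by
  subst hD
  rcases le_total ((ρ - 1) * ξ + 2 * y) m with h | h
  · rw [Nat.sub_eq_zero_of_le h, ← hz]
    have h3 : ρ ≤ ξ ∧ ρ' + 1 ≤ ξ := by omega
    have b1 := Nat.mul_le_mul_left z h3.1
    have b2 := Nat.mul_le_mul_right ξ h3.2
    constructor <;> linarith [h3.1]
  · obtain ⟨w, hw⟩ := Nat.exists_eq_add_of_le h
    rw [hw, Nat.add_sub_cancel_left]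
    have e : (z : ℤ) = m - ξ := by omega
    rcases hρ with ⟨-, rfl, rfl⟩ | ⟨h46, rfl, rfl, -⟩
    · have e2 : (w : ℤ) = 2 * ξ + 2 * y - m := by omega
      zify at hm ⊢
      rw [e, e2]
      have q := sq_nonneg ((m : ℤ) - 28)
      rcases hκ with ⟨rfl, rfl⟩ | ⟨rfl, rfl⟩ | ⟨h4, h6, rfl⟩
      · push_cast
        exact ⟨by linarith [sq_nonneg (16 * (ξ : ℤ) - 9 * m + 17)],
          by linarith [sq_nonneg (16 * (ξ : ℤ) - 9 * m + 19)]⟩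
      · push_cast
        exact ⟨by linarith [sq_nonneg (12 * (ξ : ℤ) - 6 * m + 21)],
          by linarith [sq_nonneg (12 * (ξ : ℤ) - 6 * m + 21)]⟩
      · have q1 := sq_nonneg (8 * (ξ : ℤ) - 3 * m + 25)
        interval_cases y <;> push_cast <;> constructor <;> linarith
    · have e2 : (w : ℤ) = 3 * ξ + 2 * y - m := by omega
      zify at h46 ⊢
      rw [e, e2]
      have q := sq_nonneg ((m : ℤ) - 46)
      rcases hκ with ⟨rfl, rfl⟩ | ⟨rfl, rfl⟩ | ⟨h4, h6, rfl⟩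
      · push_cast
        exact ⟨by linarith [sq_nonneg (24 * (ξ : ℤ) - 13 * m + 13)],
          by linarith [sq_nonneg (24 * (ξ : ℤ) - 13 * m + 19)]⟩
      · push_cast
        exact ⟨by linarith [sq_nonneg (18 * (ξ : ℤ) - 9 * m + 18)],
          by linarith [sq_nonneg (18 * (ξ : ℤ) - 9 * m + 21)]⟩
      · have q1 := sq_nonneg (12 * (ξ : ℤ) - 5 * m + 19)
        have q2 := sq_nonneg (12 * (ξ : ℤ) - 5 * m + 23)
        have q3 := sq_nonneg (12 * (ξ : ℤ) - 5 * m + 27)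
        interval_cases y <;> push_cast <;> constructor <;> linarith

theorem optS_cap {m J ω K t δ y x n xW e0 : ℕ} (R : Reg m J ω K t δ) (P : SPar m J ω K y x n xW e0)
    (h kW s z : ℕ) (hh1 : 2 * h ≤ J) (hh2 : J ≤ 2 * h + 1) (hl : (h + 1) * t ≤ K * xW + δ)
    (hk : kW + s = K) (hG : h * t ≤ kW * xW + δ) (hz : xW + z = m) : Cap m h xW s z := by
  have F := (optS_facts R P).2.2.2.2.2.2.2.2.1
  obtain ⟨r1, r2, r3, r4, r5, r6, r7⟩ := R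
  obtain ⟨p1, -, p3, p4, -, p6, -, -, -, -, p11, p12, -⟩ := P
  generalize hτ : J + m = τ at r4 r5 r6 r7 p6
  have t0 : 0 < τ := by omega
  have a0 := Nat.mul_le_mul_left τ r7.le
  obtain ⟨κ, k1, k2⟩ : ∃ κ, ((y = 2 ∧ κ = 4) ∨ (y = 3 ∧ κ = 3) ∨ (4 ≤ y ∧ y ≤ 6 ∧ κ = 2)) ∧
      3 * K ≤ κ * τ := by
    interval_cases y
    exacts [⟨4, by omega, by omega⟩, ⟨3, by omega, by omega⟩, ⟨2, by omega, by omega⟩,
      ⟨2, by omega, by omega⟩, ⟨2, by omega, by omega⟩]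
  obtain ⟨ρ, ρ', o1, o2, o3⟩ : ∃ ρ ρ', ((m ≤ 45 ∧ ρ = 3 ∧ ρ' = 1) ∨
      (46 ≤ m ∧ ρ = 4 ∧ ρ' = 2 ∧ 5 ≤ xW)) ∧ τ ≤ ρ * h ∧ xW ≤ ρ' * h := by
    rcases le_or_gt m 45 with c | c
    · exact ⟨3, 1, by omega, by omega, by omega⟩
    refine ⟨4, 2, Or.inr ⟨c, rfl, rfl, ?_⟩, by omega, by omega⟩
    by_contra c2
    have b1 := Nat.mul_le_mul_left τ hl
    have b2 := congrArg ((h + 1) * ·) r6
    have b3 := Nat.mul_le_mul_left τ r4
    have b4 := Nat.mul_le_mul_left (τ * K) (show xW ≤ 4 by omega)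
    have b5 := Nat.mul_le_mul_left K (show τ + 1 ≤ 4 * (h + 1) by omega)
    have b6 := Nat.mul_le_mul_left ((h + 1) * K) (show 46 ≤ ω by omega)
    have b7 : 0 < K := by omega
    have b8 := Nat.zero_le ((h + 1) * δ)
    have b9 := Nat.zero_le (h * K)
    beta_reduce at b2
    linarith
  obtain ⟨d1, d2⟩ := optS_D m xW z y κ ρ ρ' _ r1 hz p11 k1 o1 rfl
  have w1 : ρ * xW ≤ ω + ((ρ - 1) * xW + 2 * y - m) := by
    rcases o1 with ⟨-, rfl, -⟩ | ⟨-, rfl, -⟩ <;> omega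
  generalize (ρ - 1) * xW + 2 * y - m = w at d1 d2 w1
  have key : 3 * (s * xW) ≤ h * (κ * w + 3 * ρ) := by
    have b1 : s * xW + h * t ≤ K * xW + δ := by
      rw [← hk, add_mul]
      omega
    have b2 := Nat.mul_le_mul_left τ b1
    have b3 := congrArg (h * ·) r6
    have b4 := Nat.mul_le_mul_right xW o2
    have b5 := Nat.mul_le_mul_left h w1
    have b6 := Nat.mul_le_mul_left K (show τ * xW ≤ h * ω + h * w by linarith)
    have b7 := Nat.mul_le_mul_right (h * w) k2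
    have b8 := Nat.mul_le_mul_left τ o2
    have b9 := Nat.zero_le (h * δ)
    beta_reduce at b3
    exact Nat.le_of_mul_le_mul_left (c := τ) (by linarith) t0
  generalize κ * w + 3 * ρ = D at d1 d2 key
  have c1 := Nat.mul_le_mul_left xW o3
  have c2 := Nat.mul_le_mul_left z key
  have c3 := Nat.mul_le_mul_left h d1
  have c4 := Nat.mul_le_mul_left h d2
  have c5 : 0 < 3 * xW := by omega
  exact cap_poly (by omega) (by omega) hz (by omega)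
    (Nat.le_of_mul_le_mul_left (c := 3 * xW) (by linarith) c5)
    (Nat.le_of_mul_le_mul_left (c := 3 * xW) (by linarith) c5)

end Pool.Agent.Work.MP_f4b644_ag.Fat
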