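import Pool.Agent.Work.MP_f4b644_ag.Fat.OptS1
import Pool.Agent.Work.MP_f4b644_ag.Fat.OptS3

/-!
The range m ≤ ω < 3 m, the strip W of height h = J / 2 carries tangents. τ = J + m ≤ 4 h, 50 ≤ h, m + 1 ≤ 2 h.

`optS_load`: δ ≤ h t (δ < τ ≤ 4 h, 10 ≤ t). kW = the ceiling of (h t + e0 - δ) / xW ≤ K by `hl`, sW = K - kW,
z = yW = m - xW ≤ x, G = kW xW + δ - h t ∈ [e0, e0 + xW), B' = kW + t, H = J - h, tot = y B' + z sW, Et = tot - G.
`optS_kf`: y kW xW ≥ y h t - y δ ≥ 2 ω h - y τ ≥ (2 ω - 4 y) h. With xW + m ≤ ω + 2 y and y ≤ 6 this is ≥ 2 xW h.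
If y ≤ z then y kW + z sW ≥ y K ≥ 4 m + 4. If z < y then xW > x, ω = n x + xW - m ≥ 3 x + 1 - m ≥ 2 m - 17, and
y kW m ≥ y kW xW ≥ (4 m - 10 y + 2) h ≥ (4 m - 58) h ≥ m (m + 24) (m ≤ 69: 50 ≤ h; 70 ≤ m: m + 1 ≤ 2 h).
Then `V_opt`: `hW3` is `optS_cap`; `hW4`: G < 2 m + 7 + xW ≤ 2 ω + m + 1 ≤ y t + y kW (ω ≥ m, ω ≥ xW + m - 12);
`h1`: n x + G ≤ m + ω + e0 ≤ y t + (y kW + z sW); `h2`: 3 t + 4 x ≤ x t as 22 ≤ x, 10 ≤ t; `M1` is `optS_M1`;
`hall` follows from y B' ≤ tot and n x m + y (n - 1) t ≤ (n - 2) x tot + x G: for n = 2 use G ≥ 2 m + 7, y t ≤ 7 x;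
for n = 3, 4 use tot ≥ y t + m + 24, y t ≥ 2 ω, ω ≥ m and for n = 3 also ω ≥ 2 x + 1.
-/

set_option autoImplicit false

namespace Pool.Agent.Work.MP_f4b644_ag.Fat

open Big Thin

theorem optS_kf {m J ω K t δ y x n xW e0 : ℕ} (R : Reg m J ω K t δ) (P : SPar m J ω K y x n xW e0)
    (h kW s z : ℕ) (hh1 : 2 * h ≤ J) (hh2 : J ≤ 2 * h + 1)
    (hk : kW + s = K) (hG : h * t ≤ kW * xW + δ) (hz : xW + z = m) :
    2 * h ≤ y * kW ∧ ((y ≤ z ∧ 4 * m + 4 ≤ y * kW + z * s) ∨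
      (z < y ∧ m + 24 ≤ y * kW ∧ 2 * m ≤ ω + 17)) := by
  obtain ⟨-, -, f3, -, -, -, -, -, f9, -⟩ := optS_facts R P
  obtain ⟨r1, r2, r3, -, -, -, r7⟩ := R
  obtain ⟨p1, -, p3, p4, p5, -, p7, p8, -, p10, p11, p12, -⟩ := P
  have a1 : 2 * ω * h ≤ y * kW * xW + 4 * y * h := by
    have b1 := Nat.mul_le_mul_left h f3
    have b2 := Nat.mul_le_mul_left y hG
    have b3 := Nat.mul_le_mul_left y (show δ ≤ 4 * h by omega)
    linarith
  refine ⟨Nat.le_of_mul_le_mul_right (c := xW) ?_ (by omega), ?_⟩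
  · have b1 := Nat.mul_le_mul_left h (show 2 * xW + 4 * y ≤ 2 * ω by omega)
    linarith
  rcases le_or_gt y z with h1 | h1
  · have b1 := Nat.mul_le_mul_right s h1
    rw [← hk, mul_add y] at p5
    exact Or.inl ⟨h1, by omega⟩
  have b1 := Nat.mul_le_mul_right x p8
  refine Or.inr ⟨h1, not_lt.1 fun h2 => ?_, by omega⟩
  have b2 := Nat.mul_le_mul (Nat.lt_succ_iff.1 h2) p12
  have b3 := Nat.mul_le_mul_left h (show 4 * m + 4 * y ≤ 2 * ω + 58 by omega)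
  have b4 : 4 * m * h ≤ (m + 23) * m + 58 * h := by linarith
  obtain ⟨k, rfl⟩ := Nat.exists_eq_add_of_le r1
  rcases le_or_gt k 41 with h3 | h3
  · have b5 := Nat.mul_le_mul_left (4 * k + 54) (show 50 ≤ h by omega)
    have b6 := Nat.mul_le_mul_left k h3
    linarith
  · have b5 := Nat.mul_le_mul_left (2 * k + 27) (show k + 29 ≤ 2 * h by omega)
    have b6 := Nat.mul_le_mul_left k h3
    linarith

theorem OptS2_hall {m x y n t u B Z Et G e0 : ℕ} (hm : 28 ≤ m) (hy : y ≤ 6) (hxy : x + y = m)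
    (hn : n ≤ 4) (he : (n = 2 ∧ e0 = 2 * m + 7) ∨ (3 ≤ n ∧ e0 = 0)) (hG : e0 ≤ G)
    (hu : y * t = u) (h1 : n = 2 → u ≤ 7 * x) (h2 : 2 * m ≤ u) (hE : Et + G = y * B + Z)
    (h3 : u + m + 24 ≤ y * B + Z) :
    x * Et + n * x * x + y * (x * B + (n - 1) * t + n * x) ≤ n * x * (y * B + Z) := by
  have b1 := congrArg (x * ·) hE
  have b2 := congrArg (x * ·) hxy
  have b3 := Nat.zero_le (x * Z)
  have b4 := Nat.zero_le (x * G)
  have b5 := Nat.mul_le_mul_left x h3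
  beta_reduce at b1 b2
  obtain ⟨w, rfl⟩ := Nat.exists_eq_add_of_le' (show 2 ≤ x by omega)
  have b6 := Nat.mul_le_mul_left w h2
  rcases he with ⟨rfl, rfl⟩ | ⟨h4, -⟩
  · have b7 := Nat.mul_le_mul_left (w + 2) hG
    have b8 := h1 rfl
    rw [show 2 - 1 = 1 from rfl]
    linarith
  · rcases (show n = 3 ∨ n = 4 by omega) with rfl | rfl
    · rw [show 3 - 1 = 2 from rfl]
      have b7 : m ≤ 6 * (w + 2) := by omega
      linarith
    · rw [show 4 - 1 = 3 from rfl]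
      have b7 := Nat.mul_le_mul_right m (show 2 ≤ w by omega)
      linarith

theorem optS_load {m J ω K t δ y x n xW e0 : ℕ} (R : Reg m J ω K t δ) (P : SPar m J ω K y x n xW e0)
    (h : ℕ) (hh1 : 2 * h ≤ J) (hh2 : J ≤ 2 * h + 1) (hl : (h + 1) * t + e0 ≤ K * xW + δ) :
    V m J (m + ω) K t (K + t) 0 0 0 := by
  obtain ⟨-, -, f3, -, -, f6, -, f8, f9, -⟩ := optS_facts R P
  have ⟨r1, r2, r3, _, _, r6, r7⟩ := R
  have ⟨p1, _, p3, p4, _, _, p7, p8, p9, p10, p11, p12, p13⟩ := P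
  have a1 := Nat.mul_le_mul_left h f6
  rw [add_mul, one_mul] at hl
  obtain ⟨kW, k1, k2⟩ := Top_ceil (h * t + e0 - δ) xW (by omega)
  have a2 : kW < K + 1 := Nat.lt_of_mul_lt_mul_right (a := xW) (by rw [add_mul, one_mul]; omega)
  obtain ⟨s, hs⟩ := Nat.exists_eq_add_of_le (Nat.lt_succ_iff.1 a2)
  obtain ⟨z, hz⟩ := Nat.exists_eq_add_of_le p12
  obtain ⟨G, hG⟩ := Nat.exists_eq_add_of_le' (show h * t ≤ kW * xW + δ by omega)
  obtain ⟨H, hH⟩ := Nat.exists_eq_add_of_le' (show h ≤ J by omega)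
  obtain ⟨c1, c2⟩ := optS_kf R P h kW s z hh1 hh2 hs.symm (by omega) hz.symm
  have a3 : y * (kW + t) = y * kW + y * t := mul_add _ _ _
  have a4 : n * x + G ≤ y * (kW + t) + z * s := by omega
  obtain ⟨Et, hE⟩ := Nat.exists_eq_add_of_le' (show G ≤ y * (kW + t) + z * s by omega)
  refine V_opt m J ω K t δ n x y H h xW kW s z G (kW + t) Et (by omega) (by omega) p7 (by omega) r6
    p10 hH.symm hs.symm (by omega) hG.symm hE.symm (fun _ => ⟨hz.symm, by omega⟩) (by omega)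
    (optS_cap R P h kW s z hh1 hh2 (by rw [add_mul, one_mul]; omega) hs.symm (by omega) hz.symm)
    (by omega) (by omega) ?_ (by omega) (optS_M1 R P _ _ (by omega) (by omega))
    (OptS2_hall r1 p4 p7 p9 p13 (by omega) rfl f8 (by omega) hE.symm (by omega))
  have b1 := Nat.mul_le_mul_right t (show n - 1 ≤ 3 by omega)
  have b2 := Nat.mul_le_mul_right x p9
  have b3 := Nat.mul_le_mul_right t (show 22 ≤ x by omega)
  have b4 := Nat.mul_le_mul_left x f6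
  have b5 := Nat.zero_le (x * kW)
  linarith

theorem V_regS (m J ω K t δ : ℕ) (R : Reg m J ω K t δ) (h1 : m ≤ ω) (h2 : ω < 3 * m) :
    V m J (m + ω) K t (K + t) 0 0 0 :=
  V_regS_of R h1 h2 fun _ _ _ _ _ h P a b c => optS_load R P h a b c

end Pool.Agent.Work.MP_f4b644_ag.Fat
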