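import Pool.Agent.Work.MP_f4b644_ag.Fat.SqB
import Pool.Agent.Work.MP_f4b644_ag.Fat.L0b

/-!
Parameters for the blocks of squares. τ = J + m, m' = m - 3.

`sq_par`: J0 = the ceiling of (3 K + τ) / t, Jb = J - J0, μ = max 2 (the ceiling of (4 K + 3 t) / (3 Jb)).
Steps (all tested): (m - 7) J ≥ 9 m + 9 ω ≥ 9 m + 9 m² / 2 gives 2 J ≥ 9 m + 80 and J ≥ 180, so 9 τ ≤ 11 J;
ω ≤ 3 t (ω K ≤ t τ ≤ 3 t K); K m² ≤ 2 ω K ≤ 2 t τ; (J0 - 1) t < 6 K gives (J0 - 1) m² < 12 τ and 40 J0 ≤ J, so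
39 J ≤ 40 Jb; t τ < ω K + τ ≤ (ω + 3) K and 9 (ω + 3) ≤ (m - 7) τ give 9 t + 7 K ≤ m K.
If μ = 2: 4 m' ≤ t because 12 m' ≤ m² / 2 ≤ ω ≤ 3 t; the last inequality from 9 t + 7 K ≤ m K, 2 m ≤ 2 K.
If 3 ≤ μ then 3 (μ - 1) Jb < 4 K + 3 t. First inequality: 2 μ ≤ 3 (μ - 1), so it suffices that
m' (4 K + 3 t) ≤ t Jb, which follows from K m² ≤ 2 t τ and 8 m' τ + 3 m' m² ≤ m² Jb (use 39 J ≤ 40 Jb and
2 J ≥ 9 m + 80). Bound for μ: 3 t ≤ 4 ω + 3 (t τ < ω K + τ, 3 K < 4 τ), so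
3 (μ - 1) Jb < 4 (τ + ω) + 4 τ / 3 + 3 ≤ 4 (m + 2) J / 9 + 44 J / 27 + 3, hence 4 μ ≤ 6.25 + 0.608 (m + 2); and
μ m ≤ 0.56 t by the first inequality, t + μ m ≤ 1.56 (m - 7) K / 9; the sum is ≤ (m + 1) K for 28 ≤ m.
Finally 4 μ ≤ m + 1 and 6 K ≥ 2 τ ≥ 11 m + 80 give 6 μ ≤ K.
-/

set_option autoImplicit false

namespace Pool.Agent.Work.MP_f4b644_ag.Fat

open Big Thin Multiset Big.Gad

theorem SqA_ceil (a b : ℕ) (hb : 0 < b) : ∃ q : ℕ, a ≤ q * b ∧ q * b < a + b := by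
  refine ⟨(a + b - 1) / b, ?_, ?_⟩
  · have h1 := Nat.div_add_mod' (a + b - 1) b
    have h2 := Nat.mod_lt (a + b - 1) hb
    omega
  · have h1 := Nat.div_add_mod' (a + b - 1) b
    omega

theorem SqA_J (m J ω : ℝ) (hm : 28 ≤ m) (hω : m * m ≤ 2 * ω)
    (hv : 9 * (J + m + ω) ≤ (m + 2) * J) : 9 * m + 80 ≤ 2 * J := by
  by_contra h
  have h1 : 0 < (m - 7) * (9 * m + 80 - 2 * J) := mul_pos (by linarith) (by linarith)
  nlinarith

theorem SqA_J0 (m J K t J0 : ℝ) (hm : 28 ≤ m) (hJ : 9 * m + 80 ≤ 2 * J) (ht : 0 < t)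
    (hK : J + m ≤ 3 * K) (hKm : K * (m * m) ≤ 2 * t * (J + m))
    (h0 : J0 * t < 3 * K + (J + m) + t) : 40 * J0 ≤ J := by
  have hmm : 784 ≤ m * m := by nlinarith
  have h1 : (J0 - 1) * t < 6 * K := by linarith
  have h2 : (J0 - 1) * t * (m * m) < 6 * K * (m * m) := mul_lt_mul_of_pos_right h1 (by linarith)
  have h3 : t * ((J0 - 1) * (m * m)) < t * (12 * (J + m)) := by nlinarith
  have h4 : (J0 - 1) * (m * m) < 12 * (J + m) := lt_of_mul_lt_mul_left h3 ht.le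
  by_contra h
  have h5 : (J0 - 1) * 784 ≤ (J0 - 1) * (m * m) := mul_le_mul_of_nonneg_left hmm (by linarith)
  linarith

theorem SqA_t (m J ω K t : ℝ) (hm : 28 ≤ m) (hJ : 0 < J) (hK0 : 0 < K) (hK : J + m ≤ 3 * K)
    (hv : 9 * (J + m + ω) ≤ (m + 2) * J) (hδ : t * (J + m) < ω * K + (J + m)) :
    9 * t + 7 * K ≤ m * K := by
  have h1 : 9 * (ω + 3) ≤ (m - 7) * (J + m) := by nlinarith
  have h2 : 9 * (ω + 3) * K ≤ (m - 7) * (J + m) * K := mul_le_mul_of_nonneg_right h1 hK0.le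
  have h3 : (J + m) * (9 * t) ≤ (J + m) * ((m - 7) * K) := by nlinarith
  have h4 := le_of_mul_le_mul_left h3 (by linarith)
  linarith

theorem SqA_first (m J K t Jb μ : ℝ) (hm : 28 ≤ m) (hJ : 9 * m + 80 ≤ 2 * J) (ht : 0 < t)
    (hb : 39 * J ≤ 40 * Jb) (hKm : K * (m * m) ≤ 2 * t * (J + m)) (hμ : 3 ≤ μ)
    (h : 3 * (μ - 1) * Jb < 4 * K + 3 * t) : 2 * μ * (m - 3) ≤ t := by
  have hmm : 784 ≤ m * m := by nlinarith
  have hb0 : 0 < Jb := by linarith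
  have hc : 0 ≤ 39 * (m * m) - 320 * (m - 3) := by nlinarith
  have h1 : (9 * m + 80) * (39 * (m * m) - 320 * (m - 3)) ≤
      2 * J * (39 * (m * m) - 320 * (m - 3)) := mul_le_mul_of_nonneg_right hJ hc
  have h2 : 39 * J * (m * m) ≤ 40 * Jb * (m * m) := mul_le_mul_of_nonneg_right hb (by linarith)
  have h3 : 784 * m ≤ m * m * m := mul_le_mul_of_nonneg_right hmm (by linarith)
  have h4 : 8 * (m - 3) * (J + m) + 3 * (m - 3) * (m * m) ≤ m * m * Jb := by nlinarith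
  have h5 : t * (8 * (m - 3) * (J + m) + 3 * (m - 3) * (m * m)) ≤ t * (m * m * Jb) :=
    mul_le_mul_of_nonneg_left h4 ht.le
  have h6 : (m - 3) * (K * (m * m)) ≤ (m - 3) * (2 * t * (J + m)) :=
    mul_le_mul_of_nonneg_left hKm (by linarith)
  have h7 : m * m * ((m - 3) * (4 * K + 3 * t)) ≤ m * m * (t * Jb) := by linarith
  have h8 : (m - 3) * (4 * K + 3 * t) ≤ t * Jb := le_of_mul_le_mul_left h7 (by linarith)
  have h9 : 2 * μ * Jb ≤ 3 * (μ - 1) * Jb := mul_le_mul_of_nonneg_right (by linarith) hb0.le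
  have h10 : (m - 3) * (2 * μ * Jb) ≤ (m - 3) * (4 * K + 3 * t) :=
    mul_le_mul_of_nonneg_left (by linarith) (by linarith)
  have h11 : Jb * (2 * μ * (m - 3)) ≤ Jb * t := by linarith
  exact le_of_mul_le_mul_left h11 hb0

theorem SqA_mu (m J ω K t Jb μ : ℝ) (hm : 28 ≤ m) (hJ : 9 * m + 80 ≤ 2 * J) (hω0 : 0 ≤ ω)
    (hK : 3 * K < 4 * (J + m)) (hv : 9 * (J + m + ω) ≤ (m + 2) * J)
    (hδ : t * (J + m) < ω * K + (J + m))
    (hb : 39 * J ≤ 40 * Jb) (hμ : 3 ≤ μ)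
    (h : 3 * (μ - 1) * Jb < 4 * K + 3 * t) : 400 * μ ≤ 772 + 61 * m := by
  have h1 : ω * (3 * K) ≤ ω * (4 * (J + m)) := mul_le_mul_of_nonneg_left hK.le hω0
  have h2 : (J + m) * (3 * t) ≤ (J + m) * (4 * ω + 3) := by linarith
  have h3 : 3 * t ≤ 4 * ω + 3 := le_of_mul_le_mul_left h2 (by linarith)
  have h4 : (μ - 1) * (39 * J) ≤ (μ - 1) * (40 * Jb) := mul_le_mul_of_nonneg_left hb (by linarith)
  have h5 : 0 ≤ m * J := mul_nonneg (by linarith) (by linarith)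
  have h6 : J * (400 * μ) ≤ J * (772 + 61 * m) := by linarith
  exact le_of_mul_le_mul_left h6 (by linarith)

theorem sq_par (m J ω K t δ : ℕ) (R : Reg m J ω K t δ) (hω : m * m ≤ 2 * ω)
    (hv : 9 * (J + m + ω) ≤ (m + 2) * J) :
    ∃ μ J0 Jb, 2 ≤ μ ∧ 2 * μ * (m - 3) ≤ t ∧ 6 * μ ≤ K ∧ 4 * t + 5 * K ≤ m * K ∧
      4 * μ * K + t + μ * m ≤ (m + 1) * K ∧ 4 * K + 3 * t ≤ 3 * μ * Jb ∧ 3 * K + δ ≤ J0 * t ∧
      J0 + Jb ≤ J := by
  obtain ⟨hm, hJ1, hJ2, hK1, hK2, hδ, hδ2⟩ := R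
  have rm : (28 : ℝ) ≤ m := by exact_mod_cast hm
  have rω : (m : ℝ) * m ≤ 2 * ω := by exact_mod_cast hω
  have rv : 9 * ((J : ℝ) + m + ω) ≤ (m + 2) * J := by exact_mod_cast hv
  have rK1 : (J : ℝ) + m ≤ 3 * K := by exact_mod_cast hK1
  have rK2 : 3 * (K : ℝ) < 4 * (J + m) := by exact_mod_cast hK2
  have rδ : (t : ℝ) * (J + m) = ω * K + δ := by exact_mod_cast hδ
  have rδ2 : (δ : ℝ) < J + m := by exact_mod_cast hδ2
  have rδ0 : (0 : ℝ) ≤ δ := Nat.cast_nonneg δ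
  have rω0 : (0 : ℝ) ≤ ω := Nat.cast_nonneg ω
  have rt0 : (0 : ℝ) ≤ t := Nat.cast_nonneg t
  have rJ := SqA_J m J ω rm rω rv
  have rK0 : (0 : ℝ) < K := by linarith
  have r3t : (ω : ℝ) ≤ 3 * t := by
    have h1 : (t : ℝ) * (J + m) ≤ t * (3 * K) := mul_le_mul_of_nonneg_left rK1 rt0
    have h2 : (K : ℝ) * ω ≤ K * (3 * t) := by linarith
    exact le_of_mul_le_mul_left h2 rK0
  have rmm : 28 * (m : ℝ) ≤ m * m := mul_le_mul_of_nonneg_right rm (by linarith)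
  have rt : (0 : ℝ) < t := by linarith
  have rKm : (K : ℝ) * (m * m) ≤ 2 * t * (J + m) := by
    have h1 : (K : ℝ) * (m * m) ≤ K * (2 * ω) := mul_le_mul_of_nonneg_left rω rK0.le
    linarith
  have rlt : (t : ℝ) * (J + m) < ω * K + (J + m) := by linarith
  have r9 := SqA_t m J ω K t rm (by linarith) rK0 rK1 rv rlt
  have rmK : 28 * (K : ℝ) ≤ m * K := mul_le_mul_of_nonneg_right rm rK0.le
  obtain ⟨J0, a1, a2⟩ := SqA_ceil (3 * K + (J + m)) t (by exact_mod_cast rt)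
  have r0 : 40 * (J0 : ℝ) ≤ J :=
    SqA_J0 m J K t J0 rm rJ rt rK1 rKm (by exact_mod_cast a2)
  have n0 : 40 * J0 ≤ J := by exact_mod_cast r0
  obtain ⟨Jb, hb⟩ : ∃ Jb, J = J0 + Jb := ⟨J - J0, by omega⟩
  have nb : 39 * J ≤ 40 * Jb := by omega
  have rb : 39 * (J : ℝ) ≤ 40 * Jb := by exact_mod_cast nb
  have n9 : 9 * t + 7 * K ≤ m * K := by exact_mod_cast r9
  have c3 : ((m - 3 : ℕ) : ℝ) = m - 3 := by
    rw [Nat.cast_sub (by omega)]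
    norm_num
  obtain ⟨μ, b1, b2⟩ := SqA_ceil (4 * K + 3 * t) (3 * Jb) (by omega)
  by_cases hμ : μ ≤ 2
  · refine ⟨2, J0, Jb, le_rfl, ?_, by omega, by omega, ?_, ?_, by omega, by omega⟩
    · have h1 : ((2 * 2 * (m - 3) : ℕ) : ℝ) ≤ t := by
        push_cast [c3]
        linarith
      exact_mod_cast h1
    · have h1 : 4 * 2 * (K : ℝ) + t + 2 * m ≤ (m + 1) * K := by linarith
      exact_mod_cast h1
    · have h1 : μ * (3 * Jb) ≤ 2 * (3 * Jb) := Nat.mul_le_mul_right _ hμ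
      omega
  · have rμ : (3 : ℝ) ≤ μ := by exact_mod_cast (by omega : 3 ≤ μ)
    have rb2 : (μ : ℝ) * (3 * Jb) < 4 * K + 3 * t + 3 * Jb := by exact_mod_cast b2
    have rb3 : 3 * ((μ : ℝ) - 1) * Jb < 4 * K + 3 * t := by linarith
    have f1 := SqA_first m J K t Jb μ rm rJ rt rb rKm rμ rb3
    have f2 := SqA_mu m J ω K t Jb μ rm rJ rω0 rK2 rv rlt rb rμ rb3
    refine ⟨μ, J0, Jb, by omega, ?_, ?_, by omega, ?_, ?_, by omega, by omega⟩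
    · have h1 : ((2 * μ * (m - 3) : ℕ) : ℝ) ≤ t := by
        push_cast [c3]
        exact f1
      exact_mod_cast h1
    · have h1 : 6 * (μ : ℝ) ≤ K := by linarith
      exact_mod_cast h1
    · have h1 : 400 * (μ : ℝ) * K ≤ (772 + 61 * m) * K := mul_le_mul_of_nonneg_right f2 rK0.le
      have h2 : (μ : ℝ) * 28 ≤ μ * m := mul_le_mul_of_nonneg_left rm (by linarith)
      have h3 : 4 * (μ : ℝ) * K + t + μ * m ≤ (m + 1) * K := by linarith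
      exact_mod_cast h3
    · calc 4 * K + 3 * t ≤ μ * (3 * Jb) := b1
        _ = 3 * μ * Jb := by ring

theorem V_regSq (m J ω K t δ : ℕ) (R : Reg m J ω K t δ) (hω : m * m ≤ 2 * ω)
    (hv : 9 * (J + m + ω) ≤ (m + 2) * J) : V m J (m + ω) K t (K + t) 0 0 0 := by
  obtain ⟨μ, J0, Jb, h1, h2, h3, h4, h5, h6, h7, h8⟩ := sq_par m J ω K t δ R hω hv
  exact V_sqblk m J ω K t δ μ J0 Jb R.1 R.2.2.2.2.2.1 h1 h2 h3 h4 h5 h6 h7 h8

end Pool.Agent.Work.MP_f4b644_ag.Fat
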