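import Pool.Agent.Work.MP_f4b644_ag.Fat.Low
import Pool.Agent.Work.MP_f4b644_ag.Fat.OptS2
import Pool.Agent.Work.MP_f4b644_ag.Fat.OptL
import Pool.Agent.Work.MP_f4b644_ag.Fat.SqA

/-!
All roots with 30 ≤ I ≤ J, 100 ≤ J and 9 (I J - r) ≤ I J.
-/

set_option autoImplicit false

namespace Pool.Agent.Work.MP_f4b644_ag.Fat

open Big Thin

theorem root_fat (m J ω r : ℕ) (hm : 28 ≤ m) (hJ : 100 ≤ J) (hmJ : m + 2 ≤ J)
    (hv : ω < 3 * m ∨ 9 * (J + m + ω) ≤ (m + 2) * J) (hr : r + (J + m + ω) = (m + 2) * J) :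
    Dag.Root (m + 2) J r := by
  by_cases h1 : ω < m
  · exact root_fat_low m J ω r (by omega) hr
  refine root_reg m J ω r hm hJ hmJ hr fun K t δ R => ?_
  by_cases h2 : ω < 3 * m
  · exact V_regS m J ω K t δ R (by omega) h2
  have hv' := hv.resolve_left h2
  by_cases h3 : 2 * ω ≤ m * m
  · exact V_regL m J ω K t δ R (by omega) h3 hv'
  · exact V_regSq m J ω K t δ R (by omega) hv'

theorem root_fat' (I J r : ℕ) (hI : 30 ≤ I) (hJ : 100 ≤ J) (hIJ : I ≤ J)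
    (h1 : r + (J + I - 2) ≤ I * J) (h2 : 8 * (I * J) ≤ 9 * r) : Dag.Root I J r := by
  obtain ⟨m, rfl⟩ : ∃ m, I = m + 2 := ⟨I - 2, by omega⟩
  obtain ⟨ω, hω⟩ := Nat.exists_eq_add_of_le h1
  exact root_fat m J ω r (by omega) hJ hIJ (Or.inr (by omega)) (by omega)

end Pool.Agent.Work.MP_f4b644_ag.Fat
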