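import Pool.Agent.Work.MP_f4b644_ag.Fat.Defs
import Pool.Agent.Work.MP_f4b644_ag.Dag.Lem2

/-!
The top level: exact blocks (τ, τ + ω) and one last block (compare `S_L` in Big/Top.lean). In `Root`,
I J - r = τ + ω and J + I - 2 = τ.

`root_low`: K = a τ + K0 with K0 < τ; the exact block is H τ ω; if K0 > 0 take t0 = the ceiling of ω K0 / τ ∈ [1, ω],
K' = t0 τ / ω ≥ K0, H K' t0, `Blk.drop`, `Top_fin`, `Blk.mul`, `Blk.toS`.
`root_half`: if 2 K < τ use the exact block, `Blk.toS` and `S_proj` (r ≥ 1). Otherwise K = a τ + K' with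
τ ≤ 2 K' < 3 τ (K' = K % τ or K % τ + τ), t = the ceiling of ω K' / τ, `Top_fin`.
`root_zero`: `blk0`.
-/

set_option autoImplicit false

namespace Pool.Agent.Work.MP_f4b644_ag.Fat

open Big Thin Multiset Big.Gad

theorem root_low (I J r τ ω : ℕ) (hτ : τ + 2 = J + I) (hτ1 : 1 ≤ τ) (hr : r + (τ + ω) = I * J)
    (hω : 1 ≤ ω)
    (H : ∀ K t, 1 ≤ t → t ≤ ω → K * ω ≤ t * τ → t * τ < (K + 1) * ω → Blk I J r K (K + t)) :
    Dag.Root I J r := by
  intro K hK _
  have e1 : I * J - r = τ + ω := by omega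
  have e2 : J + I - 2 = τ := by omega
  rw [e1, e2, mul_comm K] at hK
  have hτ0 : 0 < τ := hτ1
  have E : Blk I J r τ (τ + ω) :=
    H τ ω hω le_rfl (by rw [mul_comm]) (by rw [mul_comm ω τ, add_mul]; omega)
  obtain ⟨a, K0, hK0, hKe⟩ : ∃ a K0, K0 < τ ∧ K = a * τ + K0 :=
    ⟨K / τ, K % τ, Nat.mod_lt _ hτ0, by rw [mul_comm]; exact (Nat.div_add_mod K τ).symm⟩
  rcases Nat.eq_zero_or_pos K0 with hz | hp
  · subst hz
    have hf := Top_fin a τ ω 0 0 (τ + ω) K r hτ0 rfl hKe (by omega) hK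
    have H1 := Blk.mul a hf E (Blk.zero I J r)
    rw [← hKe] at H1
    exact H1.toS
  · obtain ⟨t0, ht1, ht2⟩ := Top_ceil (ω * K0) τ hτ0
    have hpos : 0 < ω * K0 := Nat.mul_pos hω hp
    have ht0 : 1 ≤ t0 := by
      rcases Nat.eq_zero_or_pos t0 with h | h
      · subst h
        omega
      · exact h
    have htω : t0 ≤ ω := by
      have h2 : t0 * τ < (ω + 1) * τ := by nlinarith
      have h3 := Nat.lt_of_mul_lt_mul_right h2
      omega
    obtain ⟨n, hn1, hn2⟩ := Top_floor (t0 * τ) ω K0 hω (by rw [mul_comm]; exact ht1)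
    have B : Blk I J r (K0 + n) (K0 + n + t0) :=
      H (K0 + n) t0 ht0 htω hn1 (by rw [add_mul (K0 + n), one_mul]; exact hn2)
    rw [show K0 + n + t0 = K0 + t0 + n by ring] at B
    have hf := Top_fin a τ ω K0 t0 (τ + ω) K r hτ0 rfl hKe ht2 hK
    have H1 := Blk.mul a hf E (Blk.drop n B)
    rw [← hKe] at H1
    exact H1.toS

theorem root_half (I J r τ ω : ℕ) (hτ : τ + 2 = J + I) (hτ1 : 1 ≤ τ) (hr : r + (τ + ω) = I * J)
    (H : ∀ K t, τ ≤ 2 * K → 2 * K < 3 * τ → ω * K ≤ t * τ → t * τ < ω * K + τ →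
      Blk I J r K (K + t)) :
    Dag.Root I J r := by
  intro K hK _
  have e1 : I * J - r = τ + ω := by omega
  have e2 : J + I - 2 = τ := by omega
  rw [e1, e2, mul_comm K] at hK
  have hτ0 : 0 < τ := hτ1
  have E : Blk I J r τ (τ + ω) := H τ ω (by omega) (by omega) le_rfl (by omega)
  by_cases hs : 2 * K < τ
  · have h1 := E.toS
    have h2 := E.1
    obtain ⟨r', rfl⟩ : ∃ r', r = r' + 1 := ⟨r - 1, by omega⟩
    obtain ⟨n, hn⟩ : ∃ n, τ = K + n := ⟨τ - K, by omega⟩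
    rw [hn] at h1
    exact Dag.S_proj n h1
  · obtain ⟨a, K0, hK0, hK1, hKe⟩ : ∃ a K0, τ ≤ 2 * K0 ∧ 2 * K0 < 3 * τ ∧ K = a * τ + K0 := by
      have h1 := Nat.div_add_mod K τ
      have h2 := Nat.mod_lt K hτ0
      rw [mul_comm] at h1
      by_cases hc : τ ≤ 2 * (K % τ)
      · exact ⟨K / τ, K % τ, hc, by omega, h1.symm⟩
      · have h3 : K / τ ≠ 0 := by
          intro h0
          rw [h0] at h1
          omega
        obtain ⟨a, ha⟩ : ∃ a, K / τ = a + 1 := Nat.exists_eq_succ_of_ne_zero h3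
        rw [ha, add_mul] at h1
        exact ⟨a, K % τ + τ, by omega, by omega, by omega⟩
    obtain ⟨t0, ht1, ht2⟩ := Top_ceil (ω * K0) τ hτ0
    have B : Blk I J r K0 (K0 + t0) := H K0 t0 hK0 hK1 ht1 ht2
    have hf := Top_fin a τ ω K0 t0 (τ + ω) K r hτ0 rfl hKe ht2 hK
    have H1 := Blk.mul a hf E B
    rw [← hKe] at H1
    exact H1.toS

theorem root_zero (I J r : ℕ) (hI : 2 ≤ I) (hJ : 1 ≤ J) (hr : r + (J + I - 2) = I * J) :
    Dag.Root I J r := by
  intro K hK _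
  have e1 : I * J - r = J + I - 2 := by omega
  rw [e1] at hK
  have hKr : K ≤ r := Nat.le_of_mul_le_mul_right hK (by omega)
  exact (blk0 I J r K hI hJ hr hKr).toS

end Pool.Agent.Work.MP_f4b644_ag.Fat
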