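import Pool.Agent.Work.MP_f4b644_ag.Fat.CapL

/-!
Nearly square cross sections J = m + 2 + D, D ≤ 2, through `S_vf` (read `blkVF` in Big/VFBlk.lean first, the proofs
are the same with other constants). I = m + 2, d = m - ω, j2 = 4, j1 = m - 3 + D.

`blk_vf` (π = 0): s1 = the ceiling of t (m + 3) / ω, μ1 = s1 ω - t (m + 3) < ω < 2 t, μ2 = 2 t - μ1, s2 = K + t - s1.
s1 ≤ m + 1 because t ≤ ω - 1 and 2 ω ≤ m + 3; s1 > (m + 3) / 2 ≥ ω; s2 ω ≤ t (j1 + ω) + μ2, so s2 ≤ m + ω + D - 2;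
s2 ω > t (m - 1 + D + ω) - 2 ω ≥ 2 t ω. G1: `cap_low` with x = ω ≤ j1 and `cap_grOK`; G2: `cap_poly` or `cap_big`
with h = 4, x = m - 1, y = 1. The pure part of the second strip is `S_gpl`.
`blk_pairs` (t = ω, K = τ): s1 = m + 3, s2 = m - 1 + D + ω, μ1 = 0, μ2 = 2 ω, j' = 3, `S_vfP` with ε = π (ω + 1),
N1 = ω ε - 2 π ω ∈ {0, 0, 8, 24}, n = m + 3 - 2 π. G1: `cap_low` with s = s1 - π (for ω = 1 one has s = j1 and
y + 1 = m). The last group condition has height 3, excess m - ε, s2 groups of size 2 (`grOK_std` with R = m / 2 or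
`Cap` built directly).
-/

set_option autoImplicit false

namespace Pool.Agent.Work.MP_f4b644_ag.Fat

open Big Thin Multiset Big.Gad

theorem Near_key (m D ω d K t r j1 s1 s2 μ1 μ2 π : ℕ) (hm : 29 ≤ m) (hd : d + ω = m) (hω : 1 ≤ ω)
    (hd1 : 1 ≤ d) (hj : j1 + 3 = m + D) (hs : s1 + s2 = K + t) (ht1 : t ≤ s1) (ht2 : t ≤ s2)
    (hμ1 : 2 * π + μ1 ≤ s1) (hμ2 : μ2 ≤ s2) (hμ : μ1 + μ2 ≤ 2 * t) (hπ : π ≤ K)
    (hc1 : s2 * ω ≤ t * (j1 + ω) + μ2) (hC : Cap m j1 ω (s1 - π) d) (hs2 : 2 * s2 ≤ 3 * m + 5)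
    (hW : ∀ f2, f2 + 2 * s2 = 3 * m + 5 →
      GrOK (m + 2) 4 (m + 2 - 3) (replicate s2 2 + replicate f2 1) →
      S (m + 2) 4 (s1 - t) (replicate π (PB (d - 1) false) + replicate μ1 (BP d) +
        replicate (s1 - 2 * π - μ1) (BP (d - 1)) + (replicate s2 2 + replicate f2 1).map CP))
    (hr : r + (2 * m + 2 + D + ω) = (m + 2) * (m + 2 + D)) :
    Blk (m + 2) (m + 2 + D) r K (K + t) := by
  obtain ⟨f1, hf1⟩ := Nat.exists_eq_add_of_le hC.2.1
  have hG1 := cap_grOK hC f1 (by omega)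
  obtain ⟨f2, hf2⟩ := Nat.exists_eq_add_of_le hs2
  have hC2 : Cap m 4 (m - 1) s2 1 := cap_big (by omega) (by omega) (by omega) (by omega) (by omega)
  have hG2 : GrOK (m + 2) 4 (m + 2 - 3) (replicate s2 2 + replicate f2 1) := by
    rw [show m + 2 - 3 = m - 1 by omega]
    exact cap_grOK hC2 f2 (by omega)
  have h15 := VFBlk_cnt d s1 π hd1 (by omega)
  have hIJ : (m + 2) * (m + 2 + D) = (m + 1) * j1 + j1 + 5 * (m + 2) := by
    rw [show m + 2 + D = j1 + 5 by omega]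
    ring
  rw [mul_comm (d + 1)] at hf1
  exact ⟨by omega, S_vf (m + 2) (m + 2 + D) K t ω d j1 4 s1 s2 μ1 μ2 π f1 f2 _ (by omega) (by omega)
    hω hd1 (by omega) hs ht1 ht2 hμ1 hμ2 hμ hπ hc1 hG1 hG2 (hW f2 (by omega) hG2) (by omega)⟩

theorem Near_ceil (a ω : ℕ) (hω : 1 ≤ ω) : ∃ s μ, s * ω = a + μ ∧ μ < ω := by
  have h1 := Nat.div_add_mod (a + (ω - 1)) ω
  have h2 := Nat.mod_lt (a + (ω - 1)) (show 0 < ω by omega)
  refine ⟨(a + (ω - 1)) / ω, ω - 1 - (a + (ω - 1)) % ω, ?_, by omega⟩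
  rw [mul_comm]
  omega

theorem Near_pair (m D ω π d j1 s ε N1 r : ℕ) (hm : 29 ≤ m) (hd : d + ω = m) (hω : 1 ≤ ω)
    (hω3 : ω + D ≤ 3) (hπ : 1 ≤ π) (hπ6 : π ≤ 6) (hj : j1 + 3 = m + D) (hs : s + π = m + 3)
    (hε : ε = π * (ω + 1)) (hε1 : 8 ≤ ε) (hε2 : ε ≤ 16) (hN1 : N1 + 2 * π * ω = ω * ε)
    (hn : N1 + 2 * π ≤ m + 3) (hC : Cap m j1 ω s d)
    (hr : r + (2 * m + 2 + D + ω) = (m + 2) * (m + 2 + D)) :
    Blk (m + 2) (m + 2 + D) r (2 * m + 2 + D) (2 * m + 2 + D + ω) := by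
  refine Near_key m D ω d (2 * m + 2 + D) ω r j1 (m + 3) (j1 + ω + 2) 0 (2 * ω) π hm hd hω
    (by omega) hj (by omega) (by omega) (by omega) (by omega) (by omega) (by omega) (by omega)
    (le_of_eq (by ring)) (by rw [show m + 3 - π = s by omega]; exact hC) (by omega) ?_ hr
  intro f2 hf2 _
  obtain ⟨f', rfl⟩ : ∃ f', f2 = f' + (m + 2 - ε) := ⟨f2 - (m + 2 - ε), by omega⟩
  refine S_vfP (m + 2) (m + 3 - ω) ω ω d 3 π ε 0 (m + 3 - 2 * π - 0) N1 (j1 + ω + 2) f'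
    (by omega) hω hπ hε (by omega) hω (by omega) hN1 (by omega) (by omega) (by omega) ?_ ?_
  · rw [show m + 3 - ω + ω = m + 3 by omega, show 3 + (m + 2) - 2 = m + 3 by omega, mul_comm]
    omega
  · simpa using grOK_std (m + 2) 3 (m + 2 - 2 - ε) 0 1 (j1 + ω + 2) f' (m / 2) (by omega)
      (by omega) (by omega) (by omega) le_rfl (Or.inl (by omega)) (by omega)

theorem blk_vf (m D ω K t r : ℕ) (hm : 29 ≤ m) (hD : D ≤ 2) (hω : 5 ≤ ω) (hωm : 2 * ω ≤ m + 3)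
    (ht1 : ω < 2 * t) (ht2 : t < ω) (hK1 : K * ω ≤ t * (2 * m + 2 + D))
    (hK2 : t * (2 * m + 2 + D) < (K + 1) * ω) (hr : r + (2 * m + 2 + D + ω) = (m + 2) * (m + 2 + D)) :
    Blk (m + 2) (m + 2 + D) r K (K + t) := by
  obtain ⟨s1, μ1, h1, h2⟩ := Near_ceil (t * (m + 3)) ω (by omega)
  obtain ⟨d, hd⟩ : ∃ d, d + ω = m := ⟨m - ω, by omega⟩
  obtain ⟨j1, hj⟩ : ∃ j1, j1 + 3 = m + D := ⟨m + D - 3, by omega⟩
  have e1 : t * (2 * m + 2 + D) = t * (m + 3) + t * j1 + 2 * t := by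
    rw [show 2 * m + 2 + D = m + 3 + j1 + 2 by omega]
    ring
  have h3 : t * (ω + 4) ≤ t * j1 := Nat.mul_le_mul_left t (by omega)
  have h4 : s1 + t < K + 1 := by
    refine Nat.lt_of_mul_lt_mul_right (a := ω) ?_
    rw [mul_add] at h3
    rw [add_mul]
    omega
  obtain ⟨s2, hs2⟩ : ∃ s2, s1 + s2 = K + t := ⟨K + t - s1, by omega⟩
  have h5 : 2 * t ≤ s1 := by
    have h := Nat.mul_le_mul_left t hωm
    refine Nat.le_of_mul_le_mul_right (c := ω) ?_ (by omega)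
    rw [show t * (2 * ω) = 2 * t * ω by ring] at h
    omega
  have h6 : s1 < m + 2 := by
    have h := Nat.mul_le_mul_right (m + 3) (show t + 1 ≤ ω by omega)
    refine Nat.lt_of_mul_lt_mul_right (a := ω) ?_
    have e2 : ω * (m + 3) = (m + 2) * ω + ω := by ring
    rw [add_mul] at h
    omega
  have h7 : s1 * ω + s2 * ω = K * ω + t * ω := by rw [← add_mul, ← add_mul, hs2]
  have hc1 : s2 * ω ≤ t * (j1 + ω) + (2 * t - μ1) := by
    rw [mul_add]
    omega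
  have h8 : s2 ≤ j1 + ω + 2 := by
    have h := Nat.mul_le_mul_right (j1 + ω + 2) ht2.le
    refine Nat.le_of_mul_le_mul_right (c := ω) ?_ (by omega)
    have e2 : t * (j1 + ω + 2) = t * (j1 + ω) + 2 * t := by ring
    rw [mul_comm ω] at h
    omega
  have hC : Cap m j1 ω (s1 - 0) d := by
    rw [Nat.sub_zero]
    refine cap_low (by omega) (by omega) (by omega) ?_ ?_ (Or.inl (by omega))
    · have h := Nat.mul_le_mul_left (d + 1) (show s1 ≤ m + 1 by omega)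
      have h' := Nat.mul_le_mul_left (m + 1) (show d + 2 ≤ j1 by omega)
      have e2 : (m + 1) * (d + 2) = (d + 1) * (m + 1) + (m + 1) := by ring
      omega
    · obtain ⟨n, rfl⟩ : ∃ n, m = n + 5 := ⟨m - 5, by omega⟩
      have h := Nat.mul_le_mul (show s1 ≤ n + 6 by omega) (show d ≤ n by omega)
      have h' := Nat.mul_le_mul_left (n + 4) (show n + 2 ≤ j1 by omega)
      have e2 : (n + 5) * j1 = (n + 4) * j1 + j1 := by ring
      have e3 : (n + 4) * (n + 2) = (n + 6) * n + 8 := by ring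
      omega
  refine Near_key m D ω d K t r j1 s1 s2 μ1 (2 * t - μ1) 0 hm hd (by omega) (by omega) hj hs2
    (by omega) (by omega) (by omega) (by omega) (by omega) (Nat.zero_le _) hc1 hC (by omega) ?_ hr
  intro f2 _ hG2
  refine S.of_eq (by simp) (S_gpl hG2 (s1 - t)
    (replicate μ1 d + replicate (s1 - μ1) (d - 1)) (fun e he => ?_) ?_)
  · rcases mem_add.1 he with he | he <;> have := eq_of_mem_replicate he <;> omega
  · obtain ⟨e, rfl⟩ : ∃ e, d = e + 1 := ⟨d - 1, by omega⟩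
    obtain ⟨k, rfl⟩ := Nat.exists_eq_add_of_le (show t ≤ s1 by omega)
    obtain ⟨n, hn⟩ := Nat.exists_eq_add_of_le (show μ1 ≤ t + k by omega)
    rw [show m + 3 = 4 + (e + ω) by omega] at h1
    rw [show m + 2 - 3 = e + ω by omega, Nat.add_sub_cancel_left, Nat.add_sub_cancel,
      show t + k - μ1 = n by omega, card_add, card_replicate, card_replicate, sum_add,
      sum_replicate, sum_replicate, smul_eq_mul, smul_eq_mul, ← hn]
    have h15 : (t + k) * e = (μ1 + n) * e := by rw [hn]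
    linarith

theorem blk_pairs (m D ω π r : ℕ) (hm : 29 ≤ m)
    (hc : (ω = 1 ∧ D = 0 ∧ π = 6) ∨ (ω = 1 ∧ D = 2 ∧ π = 4) ∨ (ω = 2 ∧ D = 1 ∧ π = 4) ∨
      (ω = 3 ∧ D = 0 ∧ π = 4))
    (hr : r + (2 * m + 2 + D + ω) = (m + 2) * (m + 2 + D)) :
    Blk (m + 2) (m + 2 + D) r (2 * m + 2 + D) (2 * m + 2 + D + ω) := by
  obtain ⟨n, rfl⟩ : ∃ n, m = n + 3 := ⟨m - 3, by omega⟩
  rcases hc with ⟨rfl, rfl, rfl⟩ | ⟨rfl, rfl, rfl⟩ | ⟨rfl, rfl, rfl⟩ | ⟨rfl, rfl, rfl⟩
  · exact Near_pair (n + 3) 0 1 6 (n + 2) n n 12 0 r hm (by omega) (by omega) (by omega) (by omega)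
      (by omega) (by omega) (by omega) (by omega) (by omega) (by omega) (by omega) (by omega)
      (cap_low (by omega) (by omega) (by omega) (by nlinarith) (by nlinarith) (by omega)) hr
  · exact Near_pair (n + 3) 2 1 4 (n + 2) (n + 2) (n + 2) 8 0 r hm (by omega) (by omega) (by omega)
      (by omega) (by omega) (by omega) (by omega) (by omega) (by omega) (by omega) (by omega)
      (by omega)
      (cap_low (by omega) (by omega) (by omega) (by nlinarith) (by nlinarith) (by omega)) hr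
  · exact Near_pair (n + 3) 1 2 4 (n + 1) (n + 1) (n + 2) 12 8 r hm (by omega) (by omega)
      (by omega) (by omega) (by omega) (by omega) (by omega) (by omega) (by omega) (by omega)
      (by omega) (by omega)
      (cap_low (by omega) (by omega) (by omega) (by nlinarith) (by nlinarith) (by omega)) hr
  · exact Near_pair (n + 3) 0 3 4 n n (n + 2) 16 24 r hm (by omega) (by omega)
      (by omega) (by omega) (by omega) (by omega) (by omega) (by omega) (by omega) (by omega)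
      (by omega) (by omega)
      (cap_low (by omega) (by omega) (by omega) (by nlinarith) (by nlinarith) (by omega)) hr

end Pool.Agent.Work.MP_f4b644_ag.Fat
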