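import Pool.Agent.Work.MP_f4b644_ag.Fat.D2
import Pool.Agent.Work.MP_f4b644_ag.Fat.Near
import Pool.Agent.Work.MP_f4b644_ag.Fat.L0

/-!
All blocks of excess ω ≤ m. τ = J + m; `Blk_of_V` needs r + (m + ω) = (m + 1) J.

`blk_far` (J ≥ m + 5): `D2_pick` gives 2 a ≥ τ ≥ 2 m + 5, `V_D2`.
`blk_near` (J = m + 2 + D, D ≤ 2; for J ≥ m + 5 use `blk_far`).
Case t = ω (then K = τ): if D + ω ≥ 4 use `V_D2` with a = s = (τ + ω) / 2, a' = s' = τ + ω - a; if (ω, D) is (1, 1) or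
(2, 0) use `V_D2b` with a = a' = s = s' = m + 2; otherwise `blk_pairs`.
Case t < ω: `D2_pick`. If m + 3 ≤ a use `V_D2`. Otherwise a ∈ {m + 1, m + 2} (a = m + 1 only for D = 0) and ω divides a or
a' - ω = τ - a, a number n0 with m ≤ n0 ≤ m + 2 and n0 > ω, hence 2 ω ≤ m + 2. If ω < 2 t and 5 ≤ ω use `blk_vf`.
Otherwise `V_D2b`: s' ω ≤ t a' with 2 t ≤ ω, or (ω, t) ∈ {(3, 2), (4, 3)}, gives s' + 1 ≤ m (a' ≤ m + 1 + D + ω).
`root_fat_low`: ω = 0 by `root_zero`, otherwise `root_low`.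
-/

set_option autoImplicit false

namespace Pool.Agent.Work.MP_f4b644_ag.Fat

open Big Thin Multiset Big.Gad

theorem Low_blk {m J ω K t r : ℕ} (hr : r + (J + m + ω) = (m + 2) * J)
    (h : V m J (m + ω) K t (K + t) 0 0 0) : Blk (m + 2) J r K (K + t) := by
  have e : (m + 2) * J = (m + 1) * J + J := by ring
  exact Blk_of_V (by omega) h

theorem blk_far (m J ω K t r : ℕ) (hm : 4 ≤ m) (hJ : m + 5 ≤ J) (hω : ω ≤ m) (ht1 : 1 ≤ t) (ht2 : t ≤ ω)
    (hK1 : K * ω ≤ t * (J + m)) (hK2 : t * (J + m) < (K + 1) * ω) (hr : r + (J + m + ω) = (m + 2) * J) :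
    Blk (m + 2) J r K (K + t) := by
  obtain ⟨a, a', s, s', e1, e2, e3, e4, e5, e6, e7, e8, e9, -⟩ :=
    D2_pick (J + m) ω t K (ht1.trans ht2) (by omega) hK1 hK2
  exact Low_blk hr (V_D2 m J ω K t a a' s s' hm (ht1.trans ht2) hω e1 (by omega) e2 e3 e5 e6 e7
    e8 e9 ht2)

theorem blk_near (m J ω K t r : ℕ) (hm : 29 ≤ m) (hJ : m + 2 ≤ J) (hω : ω + 1 ≤ m) (ht1 : 1 ≤ t)
    (ht2 : t ≤ ω) (hK1 : K * ω ≤ t * (J + m)) (hK2 : t * (J + m) < (K + 1) * ω)
    (hr : r + (J + m + ω) = (m + 2) * J) : Blk (m + 2) J r K (K + t) := by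
  by_cases hf : m + 5 ≤ J
  · exact blk_far m J ω K t r (by omega) hf (by omega) ht1 ht2 hK1 hK2 hr
  obtain ⟨D, rfl⟩ := Nat.exists_eq_add_of_le hJ
  have hτ : m + 2 + D + m = 2 * m + 2 + D := by omega
  rcases ht2.eq_or_lt with rfl | hlt
  · have k1 : K ≤ m + 2 + D + m :=
      Nat.le_of_mul_le_mul_right (hK1.trans_eq (mul_comm _ _)) ht1
    have k2 : m + 2 + D + m < K + 1 := Nat.lt_of_mul_lt_mul_right (a := t) (by rwa [mul_comm _ t])
    obtain rfl : K = 2 * m + 2 + D := by omega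
    by_cases h4 : 4 ≤ D + t
    · exact Low_blk hr (V_D2 m _ t _ t ((2 * m + 2 + D + t) / 2)
        (2 * m + 2 + D + t - (2 * m + 2 + D + t) / 2) _ _ (by omega) ht1 (by omega) (by omega)
        (by omega) (by omega) (by omega) (by omega) (by omega) (by omega) (mul_comm _ _).le
        (mul_comm _ _).le le_rfl)
    by_cases h2 : D + t = 2
    · exact Low_blk hr (V_D2b m _ t _ t (m + 2) (m + 2) _ _ (by omega) ht1 (by omega) (by omega)
        (Or.inl ⟨rfl, le_rfl⟩) le_rfl (by omega) (by omega) (by omega) (mul_comm _ _).le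
        (mul_comm _ _).le le_rfl)
    · exact blk_pairs m D t (if D + t = 1 then 6 else 4) r hm (by split_ifs <;> omega)
        (by rwa [hτ] at hr)
  obtain ⟨a, a', s, s', e1, e2, e3, e4, e5, e6, e7, e8, e9, e10⟩ :=
    D2_pick (m + 2 + D + m) ω t K (ht1.trans ht2) (by omega) hK1 hK2
  by_cases h3 : m + 3 ≤ a
  · exact Low_blk hr (V_D2 m _ ω K t a a' s s' (by omega) (ht1.trans ht2) (by omega) e1 h3 e2 e3 e5
      e6 e7 e8 e9 ht2)
  have h2 : 2 * ω ≤ m + 2 := by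
    have key : ∀ n, ω ∣ n → ω < n → 2 * ω ≤ n := by
      rintro _ ⟨c, rfl⟩ hc
      rw [mul_comm 2]
      refine Nat.mul_le_mul_left ω ?_
      by_contra h
      have := Nat.mul_le_mul_left ω (show c ≤ 1 by omega)
      omega
    rcases e10 with h | h
    · have := key a h (by omega)
      omega
    · have := key (a' - ω) (Nat.dvd_sub h dvd_rfl) (by omega)
      omega
  by_cases hv : ω < 2 * t ∧ 5 ≤ ω
  · rw [hτ] at hK1 hK2 hr
    exact blk_vf m D ω K t r hm (by omega) hv.2 (by omega) hv.1 hlt hK1 hK2 hr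
  have h5 : s' + 1 ≤ m := by
    by_cases h6 : 2 * t ≤ ω
    · have h7 : 2 * s' ≤ a' := by
        refine Nat.le_of_mul_le_mul_right (c := ω) ?_ (by omega)
        have := Nat.mul_le_mul_right a' h6
        nlinarith
      omega
    · obtain ⟨rfl, rfl⟩ | ⟨rfl, rfl⟩ : ω = 3 ∧ t = 2 ∨ ω = 4 ∧ t = 3 := by omega
      all_goals omega
  exact Low_blk hr (V_D2b m _ ω K t a a' s s' (by omega) (by omega) (by omega) e1 (by omega)
    (by omega) e5 e6 e7 e8 e9 ht2)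

theorem root_fat_low (m J ω r : ℕ)
    (h : (4 ≤ m ∧ m + 5 ≤ J ∧ ω ≤ m) ∨ (29 ≤ m ∧ m + 2 ≤ J ∧ ω + 1 ≤ m))
    (hr : r + (J + m + ω) = (m + 2) * J) : Dag.Root (m + 2) J r := by
  obtain rfl | hω := ω.eq_zero_or_pos
  · exact root_zero (m + 2) J r (by omega) (by omega) (by rwa [show J + (m + 2) - 2 = J + m by omega])
  refine root_low (m + 2) J r (J + m) ω (by omega) (by omega) hr hω fun K t h1 h2 h3 h4 => ?_
  rcases h with ⟨a, b, c⟩ | ⟨a, b, c⟩
  · exact blk_far m J ω K t r a b c h1 h2 h3 h4 hr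
  · exact blk_near m J ω K t r a b c h1 h2 h3 h4 hr

end Pool.Agent.Work.MP_f4b644_ag.Fat
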