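import Pool.Agent.Work.MP_f4b644_ag.Fat.Defs

/-!
Sufficient conditions for `Cap`.

`cap_grOK`: `grOK_std` with I = m + 2, g = 0, z = y + 1 (if s = 0 use z = 1 and `replicate_zero`).
`cap_poly`: R = m - 1 - (x - 1) / h. With q = (x - 1) / h one has q h ≤ x - 1 and 2 q ≤ x - 1, so q ≤ x - 2,
q ≤ m - 3, and R h = (m - 1) h - q h ≥ s y.
`cap_low`: (x - 1) / h = 0, R = m - 1.
`cap_big`: if 2 h ≤ s then s y + x + 2 h ≤ (y + 1) s + x ≤ (m + 1) h; otherwise s y ≤ 2 y h and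
(m - 1 - 2 y) h ≥ 2 (m - 1 - 2 y) ≥ m - y = x. Then `cap_poly`.
`cap_pure`: x - 1 < (m - 2) h gives (x - 1) / h ≤ m - 3, R = 2.
-/

set_option autoImplicit false

namespace Pool.Agent.Work.MP_f4b644_ag.Fat

open Big Thin Multiset Big.Gad

theorem cap_grOK {m h x s y : ℕ} (H : Cap m h x s y) (f : ℕ) (hf : f + (y + 1) * s + x = (m + 1) * h) :
    GrOK (m + 2) h x (replicate s (y + 1) + replicate f 1) := by
  obtain ⟨hh, -, R, hR, hRm, hy, hs⟩ := H
  have e1 : (m + 2) * h = (m + 1) * h + h := by ring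
  have e2 : s * (y + 1) = (y + 1) * s := by ring
  rcases hy with hy | ⟨hy, hsh⟩ | hs0
  · simpa using grOK_std (m + 2) h x s (y + 1) 0 f R hh (by omega) hR (by omega) (by omega)
      (Or.inl hy) (by simpa using hs)
  · simpa using grOK_std (m + 2) h x s (y + 1) 0 f R hh (by omega) hR (by omega) (by omega)
      (Or.inr ⟨by omega, hsh⟩) (by simpa using hs)
  · subst hs0
    simpa using grOK_std (m + 2) h x 0 1 0 f R hh (by omega) hR (by omega) le_rfl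
      (Or.inl (by omega)) (by simp)

theorem cap_poly {m h x s y : ℕ} (hm : 4 ≤ m) (hh : 2 ≤ h) (hx : x + y = m) (hx2 : 2 ≤ x)
    (hc : (y + 1) * s + x ≤ (m + 1) * h) (hR : s * y + x + h ≤ m * h + 1) : Cap m h x s y := by
  have hq : (x - 1) / h * h ≤ x - 1 := Nat.div_mul_le_self _ _
  obtain ⟨q, hqe⟩ : ∃ q, q = (x - 1) / h := ⟨_, rfl⟩
  rw [← hqe] at hq
  have hq2 : q * 2 ≤ q * h := Nat.mul_le_mul_left q hh
  obtain ⟨R, hRe⟩ : ∃ R, m = R + 1 + q := ⟨m - 1 - q, by omega⟩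
  have e : m * h = R * h + h + q * h := by rw [hRe]; ring
  refine ⟨by omega, hc, R, by omega, by omega, Or.inl (by omega), by omega⟩

theorem cap_low {m h x s y : ℕ} (hm : 3 ≤ m) (hh : 1 ≤ h) (hx : x ≤ h)
    (hc : (y + 1) * s + x ≤ (m + 1) * h) (hR : s * y + h ≤ m * h)
    (hy : y + 2 ≤ m ∨ (y + 1 = m ∧ s ≤ h)) : Cap m h x s y := by
  have hq : (x - 1) / h = 0 := Nat.div_eq_of_lt (by omega)
  obtain ⟨R, rfl⟩ : ∃ R, m = R + 1 := ⟨m - 1, by omega⟩
  have e : (R + 1) * h = R * h + h := by ring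
  refine ⟨hh, hc, R, by omega, by omega, ?_, by omega⟩
  rcases hy with hy | ⟨hy, hs⟩
  · exact Or.inl (by omega)
  · exact Or.inr (Or.inl ⟨by omega, hs⟩)

theorem cap_big {m h x s y : ℕ} (hm : 4 ≤ m) (hy : 3 * y + 2 ≤ m) (hh : 2 ≤ h) (hx : x + y = m)
    (hc : (y + 1) * s + x ≤ (m + 1) * h) : Cap m h x s y := by
  refine cap_poly hm hh hx (by omega) hc ?_
  have e1 : (y + 1) * s = s * y + s := by ring
  have e2 : (m + 1) * h = m * h + h := by ring
  rcases le_or_gt (2 * h) s with hs | hs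
  · omega
  · have h1 : s * y ≤ 2 * h * y := Nat.mul_le_mul_right y hs.le
    obtain ⟨t, ht⟩ : ∃ t, m = t + 1 + 2 * y := ⟨m - 1 - 2 * y, by omega⟩
    have e3 : m * h = t * h + h + 2 * h * y := by rw [ht]; ring
    have h2 : t * 2 ≤ t * h := Nat.mul_le_mul_left t hh
    omega

theorem cap_pure {m h x y : ℕ} (hm : 3 ≤ m) (hh : 1 ≤ h) (hx : x + 2 * h ≤ m * h) : Cap m h x 0 y := by
  obtain ⟨t, rfl⟩ : ∃ t, m = t + 3 := ⟨m - 3, by omega⟩
  have e1 : (t + 3) * h = (t + 1) * h + 2 * h := by ring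
  have e2 : (t + 3 + 1) * h = (t + 1) * h + 3 * h := by ring
  have e3 : (t + 1) * h = t * h + h := by ring
  have hq : (x - 1) / h < t + 1 := (Nat.div_lt_iff_lt_mul (by omega)).2 (by omega)
  exact ⟨hh, by omega, 2, le_rfl, by omega, Or.inr (Or.inr rfl), by simp⟩

end Pool.Agent.Work.MP_f4b644_ag.Fat
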