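import Pool.Agent.Work.MP_f4b644_ag.Fat.Defs

/-!
Combination of strips. Every point p is a tangent with `y (home p)` mates living in the strip `home p`; it sends
`e p a` tokens to the strip `a`.

`Comb_ind`: induction on n ≤ N. With z n p = ∑ a < n, e p a the gadget of p in the union of the strips a < n is
T (y (home p) - z n p) (z n p) if home p < n and BP (z n p) otherwise. n = 0: `S_zeroB`. Step: `S.splitB` and
`Spl.map` over univ.val: if home p < n use `ruleB_T (y - z (n+1) p) (z n p) (e p n)`; if home p = n then e p n = 0 and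
`ruleB_T (y - z) 0 z` (symmetric: T y 0 goes to the new strip, BP z to the old ones); if home p > n use `ruleB_BP`.
The singles CP 1 go to one side (`ruleB_CP`, `Spl.repL`, `Spl.repR`).
`S_comb`: n = N; `S.rel` with `red_T_tok 0 (y - z) z` turns every gadget into T 0 (y (home p)); undo the hinges by
induction over the multiset univ.val (`S.hingeT 1 0 y`), or by induction over a Finset of points.
`V_pts`: split univ.val into the filter home p = a and its complement (`Multiset.filter_add_not`, `map_const`), apply
`S_comb` with f a = (m + 1) h a - x a - (y a + 1) s a; ∑ p, y (home p) = ∑ a < N, s a * y a and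
card ι = ∑ a < N, s a (`Finset.sum_fiberwise_of_maps_to`, `Finset.card_eq_sum_card_fiberwise`); unfold `V`, `BS`.
-/

set_option autoImplicit false

namespace Pool.Agent.Work.MP_f4b644_ag.Fat

open Big Thin Multiset Big.Gad

theorem Comb_ind {ι : Type} [Fintype ι] (I K N : ℕ) (home : ι → ℕ) (y h f : ℕ → ℕ) (e : ι → ℕ → ℕ)
    (h0 : ∀ p, e p (home p) = 0) (h1 : ∀ p, ∑ a ∈ Finset.range N, e p a ≤ y (home p))
    (H : ∀ a < N, S I (h a) K
      (Finset.univ.val.map (fun p => if home p = a then T (y a) 0 else BP (e p a)) +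
        replicate (f a) (CP 1))) :
    ∀ n ≤ N, S I (∑ a ∈ Finset.range n, h a) K (Finset.univ.val.map (fun p => if home p < n then
      T (y (home p) - ∑ a ∈ Finset.range n, e p a) (∑ a ∈ Finset.range n, e p a)
      else BP (∑ a ∈ Finset.range n, e p a)) + replicate (∑ a ∈ Finset.range n, f a) (CP 1)) := by
  intro n
  induction n with
  | zero => exact fun _ => S_zeroB _ _ _
  | succ n ih =>
    intro hn
    rw [Finset.sum_range_succ h, Finset.sum_range_succ f, replicate_add]
    refine S.splitB ?_ (ih (by omega)) (H n hn)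
    refine Spl.add (Spl.map _ _ _ _ fun p _ => ?_) ?_
    · have hz : ∑ a ∈ Finset.range (n + 1), e p a ≤ y (home p) :=
        (Finset.sum_le_sum_of_subset (Finset.range_mono hn)).trans (h1 p)
      rw [Finset.sum_range_succ] at hz ⊢
      generalize ∑ a ∈ Finset.range n, e p a = z at *
      rcases lt_trichotomy (home p) n with c | c | c
      · rw [if_pos c, if_pos (by omega), if_neg c.ne,
          show y (home p) - z = y (home p) - (z + e p n) + e p n by omega]
        exact ruleB_T _ _ _
      · have e0 : e p n = 0 := c ▸ h0 p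
        rw [if_pos (by omega), if_neg (by omega), if_pos c, e0, add_zero]
        have := (ruleB_T (y (home p) - z) 0 z).symm
        rw [zero_add, Nat.sub_add_cancel (by omega)] at this
        rw [← c]
        exact this
      · rw [if_neg (by omega), if_neg (by omega), if_neg c.ne']
        exact ruleB_BP _ _
    · have := Spl.add (Spl.repL (ruleB_CP 1) (∑ a ∈ Finset.range n, f a))
        (Spl.repR (ruleB_CP 1).symm (f n))
      rwa [add_zero, zero_add] at this

theorem Comb_hinge {ι : Type} {I J K : ℕ} (s : Multiset ι) (Y : ι → ℕ) :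
    ∀ M : Multiset Gad, S I J K (s.map (fun p => T 0 (Y p)) + M) →
      S I J K (replicate (card s) (T 0 0) + replicate (s.map Y).sum (CP 1) + M) := by
  induction s using Multiset.induction_on with
  | empty => intro M H; simpa using H
  | cons a s ih =>
    intro M H
    have a1 := S.hingeT 1 0 (Y a) (s.map (fun p => T 0 (Y p)) + M) (H.of_eq (by
      rw [map_cons, replicate_one, singleton_add, cons_add]))
    refine (ih (replicate 1 (T 0 0) + replicate (Y a) (CP 1) + M) (a1.of_eq ?_)).of_eq ?_
    · rw [one_mul]
      abel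
    · rw [card_cons, map_cons, sum_cons, replicate_add, replicate_add]
      abel
theorem S_comb {ι : Type} [Fintype ι] (I K N : ℕ) (home : ι → ℕ) (y h f : ℕ → ℕ) (e : ι → ℕ → ℕ)
    (h0 : ∀ p, e p (home p) = 0) (h1 : ∀ p, ∑ a ∈ Finset.range N, e p a ≤ y (home p))
    (h2 : ∀ p, home p < N)
    (H : ∀ a < N, S I (h a) K
      (Finset.univ.val.map (fun p => if home p = a then T (y a) 0 else BP (e p a)) +
        replicate (f a) (CP 1))) :
    S I (∑ a ∈ Finset.range N, h a) K (replicate (Fintype.card ι) (T 0 0) +
      replicate (∑ p, y (home p) + ∑ a ∈ Finset.range N, f a) (CP 1)) := by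
  have a1 := Comb_ind I K N home y h f e h0 h1 H N le_rfl
  have a2 : S I (∑ a ∈ Finset.range N, h a) K (Finset.univ.val.map (fun p => T 0 (y (home p))) +
      replicate (∑ a ∈ Finset.range N, f a) (CP 1)) := by
    refine S.rel (Multiset.Rel.add ?_ (Multiset.rel_refl_of_refl_on fun x _ => Red.refl _)) a1
    refine Multiset.rel_map.2 (Multiset.rel_refl_of_refl_on fun p _ => ?_)
    have := red_T_tok 0 (y (home p) - ∑ a ∈ Finset.range N, e p a) (∑ a ∈ Finset.range N, e p a)
    rw [zero_add, Nat.sub_add_cancel (h1 p)] at this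
    rw [if_pos (h2 p)]
    exact this
  refine (Comb_hinge _ _ _ a2).of_eq ?_
  rw [replicate_add, add_assoc]
  rfl

theorem V_pts {ι : Type} [Fintype ι] (m K t N : ℕ) (home : ι → ℕ) (h x s y : ℕ → ℕ) (e : ι → ℕ → ℕ)
    (hι : Fintype.card ι = K + t)
    (hs : ∀ a < N, (Finset.univ.filter (fun p => home p = a)).card = s a)
    (h0 : ∀ p, e p (home p) = 0) (h1 : ∀ p, ∑ a ∈ Finset.range N, e p a ≤ y (home p))
    (h2 : ∀ p, home p < N) (hc : ∀ a < N, (y a + 1) * s a + x a ≤ (m + 1) * h a)
    (H : ∀ a < N, S (m + 2) (h a) K (replicate (s a) (T (y a) 0) +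
      ((Finset.univ.filter (fun p => home p ≠ a)).val.map (fun p => e p a)).map BP +
        replicate ((m + 1) * h a - x a - (y a + 1) * s a) (CP 1))) :
    V m (∑ a ∈ Finset.range N, h a) (∑ a ∈ Finset.range N, x a) K t (K + t) 0 0 0 := by
  have hm : ∀ p ∈ (Finset.univ : Finset ι), home p ∈ Finset.range N :=
    fun p _ => Finset.mem_range.2 (h2 p)
  have e1 : K + t = ∑ a ∈ Finset.range N, s a := by
    rw [← hι, ← Finset.card_univ, Finset.card_eq_sum_card_fiberwise (f := home) hm]
    exact Finset.sum_congr rfl fun a ha => hs a (Finset.mem_range.1 ha)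
  have e2 : ∑ p, y (home p) = ∑ a ∈ Finset.range N, s a * y a := by
    rw [← Finset.sum_fiberwise_of_maps_to hm]
    refine Finset.sum_congr rfl fun a ha => ?_
    rw [Finset.sum_congr rfl fun p hp => congrArg y (Finset.mem_filter.1 hp).2, Finset.sum_const,
      hs a (Finset.mem_range.1 ha), smul_eq_mul]
  have e3 : ∑ a ∈ Finset.range N, s a * y a +
      ∑ a ∈ Finset.range N, ((m + 1) * h a - x a - (y a + 1) * s a) + ∑ a ∈ Finset.range N, x a +
      ∑ a ∈ Finset.range N, s a = (m + 1) * ∑ a ∈ Finset.range N, h a := by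
    rw [Finset.mul_sum, ← Finset.sum_add_distrib, ← Finset.sum_add_distrib,
      ← Finset.sum_add_distrib]
    refine Finset.sum_congr rfl fun a ha => ?_
    have a1 := hc a (Finset.mem_range.1 ha)
    have a2 : (y a + 1) * s a = s a * y a + s a := by ring
    omega
  have key := S_comb (m + 2) K N home y h (fun a => (m + 1) * h a - x a - (y a + 1) * s a) e
    h0 h1 h2 fun a ha => (H a ha).of_eq (by
      congr 1
      rw [← filter_add_not (fun p => home p = a) Finset.univ.val, Multiset.map_add, map_map]
      congr 1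
      · rw [← hs a ha, Finset.card_def, Finset.filter_val, ← map_const']
        exact map_congr rfl fun p hp => (if_pos (mem_filter.1 hp).2).symm
      · rw [Finset.filter_val]
        exact map_congr rfl fun p hp => (if_neg (mem_filter.1 hp).2).symm)
  refine ⟨Nat.zero_le _, le_rfl, by omega, key.of_eq ?_⟩
  rw [hι, e2, show (m + 1) * ∑ a ∈ Finset.range N, h a - ∑ a ∈ Finset.range N, x a - (K + t) - 0 -
    2 * 0 = ∑ a ∈ Finset.range N, s a * y a +
      ∑ a ∈ Finset.range N, ((m + 1) * h a - x a - (y a + 1) * s a) by omega]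
  simp

end Pool.Agent.Work.MP_f4b644_ag.Fat
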