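import Pool.Agent.Work.MP_f4b644_ag.Fat.SHall

/-!
Two strips without a sink (excess ω ≤ m). In `V_two` one has a = x' + h', a' = x + h.

`V_D2`: s ≤ a and s' ≤ a' because t ≤ ω. Case a < a': z = m - ω, z' = 0, x = ω, x' = m, h = a' - ω, h' = a - m ≥ 3.
First strip: (m - ω + 1) s + ω ≤ (m + 1) (a' - ω) follows from s ≤ a ≤ a' - 1 and (m + 1) (ω - 1) ≤ ω (a - 1); for
ω ≥ 2 `cap_poly` (the last inequality reduces to (ω - 1) (m + 1) ≤ (ω - 1) a' after s ≤ a' - 1), for ω = 1 `cap_low`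
(s ≤ h). Second strip: `cap_poly` with y = 0, s' ≤ a + m. Case a = a' = m + α, α ≥ 3: z' = (m - ω) / 2,
z = m - ω - z', h = α + z, h' = α + z', `cap_poly` twice: z (α - 2) ≤ m (α - 2) and z α + m - 1 ≤ (m - 1) α as 2 z ≤ m.
`V_D2b` (a = m + α with α ∈ {1, 2}, a' = m + α', α' ≥ 2): d = m - ω, z' = min d ((m + 1) / 2), z = d - z' (so
2 z ≤ m - 2), h = α' + z, h' = α + z'. First strip `cap_poly` (s ≤ m + 2; (z + 1) (m + 2) + m - z = (m + 1) (z + 2)).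
Second strip: if z' = (m + 1) / 2 then x' ≤ h' and `cap_low` (α = 2: 3 z' ≤ 2 m - 2; α = 1: 3 z' + 2 ≥ m); otherwise
z' = d, m - 3 ≤ 2 d ≤ m - 1 and `cap_poly`.
`D2_pick`: a1 = the multiple c ω of ω in [(τ + 1) / 2, (τ + 1) / 2 + ω), a2 = τ + ω - a1, σ1 = t c ≤ K
(σ1 ω = t a1 ≤ t τ < (K + 1) ω), σ2 = K + t - σ1. Order the two pairs (a1, σ1), (a2, σ2) by the first component.
-/

set_option autoImplicit false

namespace Pool.Agent.Work.MP_f4b644_ag.Fat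

open Big Thin Multiset Big.Gad

theorem D2_le {s ω t a : ℕ} (hω : 1 ≤ ω) (h : s * ω ≤ t * a) (ht : t ≤ ω) : s ≤ a :=
  Nat.le_of_mul_le_mul_right (h.trans ((Nat.mul_le_mul_right a ht).trans_eq (mul_comm _ _))) hω

theorem D2_c1 {m h ω z s : ℕ} (hm : 4 ≤ m) (hω : 1 ≤ ω) (hz : ω + z = m) (hh : z + 4 ≤ h)
    (hs : s + 1 ≤ h + ω) : Cap m h ω s z := by
  obtain ⟨w, rfl⟩ : ∃ w, ω = w + 1 := ⟨ω - 1, by omega⟩
  have k1 : s * z ≤ (h + w) * z := Nat.mul_le_mul_right _ (by omega)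
  have k2 : w * (z + 4) ≤ w * h := Nat.mul_le_mul_left _ hh
  subst hz
  have hc : (z + 1) * s + (w + 1) ≤ (w + 1 + z + 1) * h := by linarith only [k1, k2, hh, hs]
  rcases Nat.eq_zero_or_pos w with rfl | hw
  · exact cap_low (by omega) (by omega) (by omega) hc (by linarith only [k1])
      (Or.inr ⟨by omega, by omega⟩)
  · exact cap_poly hm (by omega) rfl (by omega) hc (by linarith only [k1, k2])

theorem D2_c2 {m h s : ℕ} (hm : 4 ≤ m) (hh : 3 ≤ h) (hs : s ≤ h + 2 * m) : Cap m h m s 0 := by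
  have k1 : m * 3 ≤ m * h := Nat.mul_le_mul_left _ hh
  obtain ⟨n, rfl⟩ : ∃ n, m = n + 1 := ⟨m - 1, by omega⟩
  have k2 : n * 1 ≤ n * h := Nat.mul_le_mul_left _ (by omega)
  exact cap_poly hm (by omega) rfl (by omega) (by linarith only [k1, hs]) (by linarith only [k2])

theorem D2_c3 {m α x z s : ℕ} (hm : 4 ≤ m) (hx : x + z = m) (hz : z ≤ x) (hα : 3 ≤ α)
    (hs : s ≤ m + α) : Cap m (α + z) x s z := by
  obtain ⟨b, rfl⟩ : ∃ b, α = b + 3 := ⟨α - 3, by omega⟩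
  have k1 : s * z ≤ (m + (b + 3)) * z := Nat.mul_le_mul_right _ hs
  have k2 : b * 2 ≤ b * x := Nat.mul_le_mul_left _ (by omega)
  subst hx
  exact cap_poly hm (by omega) rfl (by omega) (by linarith only [k1, k2, hs, hz])
    (by linarith only [k1, k2, hz, hm])

theorem D2_c4 {m α x z s : ℕ} (hm : 4 ≤ m) (hx : x + z = m) (hz : z + 2 ≤ x) (hα : 2 ≤ α)
    (hs : s ≤ m + 2) : Cap m (α + z) x s z := by
  obtain ⟨b, rfl⟩ : ∃ b, α = b + 2 := ⟨α - 2, by omega⟩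
  have k1 : s * z ≤ (m + 2) * z := Nat.mul_le_mul_right _ hs
  have k2 : b * 1 ≤ b * x := Nat.mul_le_mul_left _ (by omega)
  have k3 := Nat.zero_le (b * z)
  subst hx
  exact cap_poly hm (by omega) rfl (by omega) (by linarith only [k1, k2, k3, hs])
    (by linarith only [k1, k2, k3, hz])

theorem D2_c5 {m α x z s : ℕ} (hm : 6 ≤ m) (hx : x + z = m) (h1 : m ≤ 2 * z + 3)
    (h2 : 2 * z ≤ m + 1) (hs : (α = 2 ∧ s ≤ m + 2) ∨ (α = 1 ∧ s + 1 ≤ m)) :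
    Cap m (α + z) x s z := by
  rcases hs with ⟨rfl, hs⟩ | ⟨rfl, hs⟩
  · have k1 : s * z ≤ (m + 2) * z := Nat.mul_le_mul_right _ hs
    have hc : (z + 1) * s + x ≤ (m + 1) * (2 + z) := by linarith only [k1, hs, hx]
    rcases le_or_gt m (2 * z) with k | k
    · have k2 : 3 * z + 2 ≤ 2 * m := by omega
      exact cap_low (by omega) (by omega) (by omega) hc (by linarith only [k1, k2])
        (Or.inl (by omega))
    · exact cap_poly (by omega) (by omega) hx (by omega) hc (by linarith only [k1, k, hx])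
  · have k1 : (s + 1) * z ≤ m * z := Nat.mul_le_mul_right _ hs
    have k2 : m ≤ 3 * z + 2 := by omega
    exact cap_poly (by omega) (by omega) hx (by omega) (by linarith only [k1, k2, hs, hx])
      (by linarith only [k1, hx])

theorem V_D2 (m J ω K t a a' s s' : ℕ) (hm : 4 ≤ m) (hω : 1 ≤ ω) (hωm : ω ≤ m)
    (ha : a + a' = J + m + ω) (h1 : m + 3 ≤ a) (h2 : a ≤ a') (h3 : a' ≤ a + ω) (hs : s + s' = K + t)
    (ht : t ≤ s) (ht' : t ≤ s') (hsa : s * ω ≤ t * a) (hsa' : s' * ω ≤ t * a') (htω : t ≤ ω) :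
    V m J (m + ω) K t (K + t) 0 0 0 := by
  have s1 := D2_le hω hsa htω
  have s2 := D2_le hω hsa' htω
  rcases h2.lt_or_eq with k | rfl
  · obtain ⟨h, rfl⟩ : ∃ h, a' = ω + h := ⟨a' - ω, by omega⟩
    obtain ⟨h', rfl⟩ : ∃ h', a = m + h' := ⟨a - m, by omega⟩
    obtain rfl : J = h + h' := by omega
    exact V_two m ω K t ω m (m - ω) 0 h h' s s' (by omega) (by omega) rfl hs ht ht' hsa hsa'
      (D2_c1 hm hω (by omega) (by omega) (by omega)) (D2_c2 hm (by omega) (by omega))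
  · obtain ⟨α, rfl⟩ : ∃ α, a = m + α := ⟨a - m, by omega⟩
    obtain ⟨z, z', k1, k2, k3⟩ : ∃ z z', z + z' + ω = m ∧ 2 * z ≤ m ∧ 2 * z' ≤ m :=
      ⟨m - ω - (m - ω) / 2, (m - ω) / 2, by omega, by omega, by omega⟩
    obtain rfl : J = α + z + (α + z') := by omega
    exact V_two m ω K t (m - z) (m - z') z z' _ _ s s' k1 (by omega) (by omega) hs ht ht'
      (hsa.trans_eq (congrArg _ (by omega))) (hsa'.trans_eq (congrArg _ (by omega)))
      (D2_c3 hm (by omega) (by omega) (by omega) s1) (D2_c3 hm (by omega) (by omega) (by omega) s2)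

theorem V_D2b (m J ω K t a a' s s' : ℕ) (hm : 6 ≤ m) (hω : 1 ≤ ω) (hωm : 2 * ω ≤ m + 3)
    (ha : a + a' = J + m + ω) (h1 : (a = m + 2 ∧ s' ≤ m + 2) ∨ (a = m + 1 ∧ s' + 1 ≤ m))
    (h2 : m + 2 ≤ a') (hs : s + s' = K + t) (ht : t ≤ s) (ht' : t ≤ s') (hsa : s * ω ≤ t * a)
    (hsa' : s' * ω ≤ t * a') (htω : t ≤ ω) : V m J (m + ω) K t (K + t) 0 0 0 := by
  have s1 := D2_le hω hsa htω
  obtain ⟨α, rfl⟩ : ∃ α, a = m + α := ⟨a - m, by omega⟩
  obtain ⟨α', rfl⟩ : ∃ α', a' = m + α' := ⟨a' - m, by omega⟩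
  obtain ⟨z, z', k1, k2, k3, k4⟩ : ∃ z z', z + z' + ω = m ∧ 2 * z + 2 ≤ m ∧ m ≤ 2 * z' + 3 ∧
      2 * z' ≤ m + 1 := ⟨m - ω - min (m - ω) ((m + 1) / 2), min (m - ω) ((m + 1) / 2), by omega,
        by omega, by omega, by omega⟩
  obtain rfl : J = α' + z + (α + z') := by omega
  exact V_two m ω K t (m - z) (m - z') z z' _ _ s s' k1 (by omega) (by omega) hs ht ht'
    (hsa.trans_eq (congrArg _ (by omega))) (hsa'.trans_eq (congrArg _ (by omega)))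
    (D2_c4 (by omega) (by omega) (by omega) (by omega) (by omega))
    (D2_c5 hm (by omega) k3 k4 (by omega))

theorem D2_pick (τ ω t K : ℕ) (hω : 1 ≤ ω) (hτ : 2 * ω ≤ τ) (hK1 : K * ω ≤ t * τ)
    (hK2 : t * τ < (K + 1) * ω) :
    ∃ a a' s s' : ℕ, a + a' = τ + ω ∧ a ≤ a' ∧ a' ≤ a + ω ∧ τ ≤ 2 * a ∧ s + s' = K + t ∧ t ≤ s ∧ t ≤ s' ∧
      s * ω ≤ t * a ∧ s' * ω ≤ t * a' ∧ (ω ∣ a ∨ ω ∣ a') := by
  obtain ⟨c, c1, c2⟩ : ∃ c, c * ω ≤ (τ + 1) / 2 + ω - 1 ∧ (τ + 1) / 2 + ω - 1 < c * ω + ω :=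
    ⟨_, Nat.div_mul_le_self _ ω, Nat.lt_div_mul_add hω⟩
  have c0 : 1 ≤ c := Nat.pos_of_mul_pos_right (show 0 < c * ω by omega)
  obtain ⟨b, hb⟩ : ∃ b, τ = c * ω + b := ⟨τ - c * ω, by omega⟩
  have k1 : t * c ≤ K := Nat.le_of_lt_succ (Nat.lt_of_mul_lt_mul_right (a := ω)
    (lt_of_le_of_lt (by rw [mul_assoc]; exact Nat.mul_le_mul_left _ (by omega)) hK2))
  obtain ⟨u, rfl⟩ : ∃ u, K = t * c + u := ⟨K - t * c, by omega⟩
  have k2 : t ≤ t * c := Nat.le_mul_of_pos_right _ c0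
  have k3 : (u + t) * ω ≤ t * (b + ω) := by
    rw [hb] at hK1
    linarith only [hK1]
  rcases le_total (c * ω) (b + ω) with k | k
  · exact ⟨c * ω, b + ω, t * c, u + t, by omega, k, by omega, by omega, by omega, k2, by omega,
      (mul_assoc _ _ _).le, k3, Or.inl (dvd_mul_left _ _)⟩
  · exact ⟨b + ω, c * ω, u + t, t * c, by omega, k, by omega, by omega, by omega, by omega, k2,
      k3, (mul_assoc _ _ _).le, Or.inr (dvd_mul_left _ _)⟩

end Pool.Agent.Work.MP_f4b644_ag.Fat
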