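import Pool.Agent.Work.MP_f4b644_ag.Thin.Cuts
import Pool.Agent.Work.MP_f4b644_ag.Big.Top

/-!
Fat formats with small thresholds (see PROOF.md in this folder). The first dimension is `m + 2`.
-/

set_option autoImplicit false

namespace Pool.Agent.Work.MP_f4b644_ag.Fat

/-- Capacity of a strip of height `h` and excess `x` which carries `s` tangents with `y` mates each. -/
def Cap (m h x s y : ℕ) : Prop :=
  1 ≤ h ∧ (y + 1) * s + x ≤ (m + 1) * h ∧ ∃ R, 2 ≤ R ∧ R + 1 + (x - 1) / h ≤ m ∧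
    (y + 1 ≤ R ∨ (y = R ∧ s ≤ h) ∨ s = 0) ∧ s * y ≤ R * h

end Pool.Agent.Work.MP_f4b644_ag.Fat
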