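import Mathlib

/-!
Routing of tokens. The point p owns w p tokens, the strip a needs E a tokens and may not use the tokens of its own
points.

`hall_tokens`: Hall's marriage theorem (`Finset.all_card_le_biUnion_card_iff_exists_injective`) for the demands
D = (a : Fin N) × Fin (E a) and the supplies U = (p : ι) × Fin (w p); the demand (a, i) may use the supplies with
home p ≠ a. For a finite set A of demands: if A is empty nothing is to show; if all elements of A have the same first
component a then card A ≤ E a and the neighbours are the supplies with home p ≠ a, their number is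
∑ w p - ∑ over home p = a of w p; otherwise every supply is a neighbour and card A ≤ ∑ E a. Given the injection φ put
e p a = card of the demands d with d.1 = a and (φ d).1 = p.
`exists_home`: take ι = (a : Fin N) × Fin (s a).
-/

set_option autoImplicit false

namespace Pool.Agent.Work.MP_f4b644_ag.Fat

open Finset in
theorem Hall_card {ι : Type} [Fintype ι] (w : ι → ℕ) (P : ι → Prop) [DecidablePred P] :
    (univ.filter fun u : (p : ι) × Fin (w p) => P u.1).card = ∑ p ∈ univ.filter P, w p := by
  rw [show (univ.filter fun u : (p : ι) × Fin (w p) => P u.1) =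
    (univ.filter P).sigma fun _ => univ by ext u; simp, card_sigma]
  simp

open Finset in
theorem Hall_fib (N : ℕ) (E : ℕ → ℕ) {a : ℕ} (ha : a < N) :
    (univ.filter fun d : (a : Fin N) × Fin (E a) => (d.1 : ℕ) = a).card = E a := by
  rw [Hall_card (fun a : Fin N => E a) fun x => (x : ℕ) = a,
    show (univ.filter fun x : Fin N => (x : ℕ) = a) = {⟨a, ha⟩} by ext x; simp [Fin.ext_iff],
    sum_singleton]

theorem Hall_all (N : ℕ) (E : ℕ → ℕ) :
    Fintype.card ((a : Fin N) × Fin (E a)) = ∑ a ∈ Finset.range N, E a := by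
  simp [Fin.sum_univ_eq_sum_range]

open Finset in
theorem hall_tokens {ι : Type} [Fintype ι] (N : ℕ) (home w : ι → ℕ) (E : ℕ → ℕ)
    (h1 : ∀ a < N, E a + ∑ p ∈ Finset.univ.filter (fun p => home p = a), w p ≤ ∑ p, w p)
    (h2 : ∑ a ∈ Finset.range N, E a ≤ ∑ p, w p) :
    ∃ e : ι → ℕ → ℕ, (∀ p, e p (home p) = 0) ∧ (∀ p, ∑ a ∈ Finset.range N, e p a ≤ w p) ∧
      ∀ a < N, ∑ p, e p a = E a := by
  classical
  obtain ⟨φ, hφ, ht⟩ := (all_card_le_biUnion_card_iff_exists_injective
      fun d : (a : Fin N) × Fin (E a) =>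
        univ.filter fun u : (p : ι) × Fin (w p) => ¬ home u.1 = d.1).1 fun A => by
    rcases A.eq_empty_or_nonempty with rfl | ⟨d, hd⟩
    · simp
    by_cases h : ∀ d' ∈ A, (d'.1 : ℕ) = d.1
    · have k1 : A.card ≤ E d.1 := (card_le_card fun d' hd' =>
        mem_filter.2 ⟨mem_univ _, h d' hd'⟩).trans (Hall_fib N E d.1.2).le
      have k2 := Hall_card w fun p => ¬ home p = d.1
      have k3 := sum_filter_add_sum_filter_not univ (fun p => home p = d.1) w
      have k4 := h1 d.1 d.1.2
      refine le_trans ?_ (card_le_card (subset_biUnion_of_mem _ hd))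
      omega
    · push Not at h
      obtain ⟨d', hd', hne⟩ := h
      have k1 : A.card ≤ ∑ p, w p := ((card_le_univ A).trans (Hall_all N E).le).trans h2
      refine k1.trans (le_of_eq ?_)
      rw [eq_univ_of_forall (s := A.biUnion _) fun u => by
        by_cases k : home u.1 = d.1
        · exact mem_biUnion.2 ⟨d', hd', mem_filter.2 ⟨mem_univ _, fun k' => hne (k'.symm.trans k)⟩⟩
        · exact mem_biUnion.2 ⟨d, hd, mem_filter.2 ⟨mem_univ _, k⟩⟩]
      simp
  refine ⟨fun p a => (univ.filter fun d => (d.1 : ℕ) = a ∧ (φ d).1 = p).card, fun p => ?_,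
    fun p => ?_, fun a ha => ?_⟩
  · refine card_eq_zero.2 (filter_eq_empty_iff.2 fun d _ k => (mem_filter.1 (ht d)).2 ?_)
    rw [k.2, k.1]
  · have k1 := card_eq_sum_card_fiberwise (s := univ.filter fun d => (φ d).1 = p) (t := range N)
      (f := fun d => (d.1 : ℕ)) fun d _ => mem_coe.2 (mem_range.2 d.1.2)
    have k2 := Hall_card w fun q => q = p
    rw [show (univ.filter fun q => q = p) = {p} by ext; simp, sum_singleton] at k2
    have k3 : (univ.filter fun d => (φ d).1 = p).card ≤ w p :=
      k2 ▸ card_le_card_of_injOn φ (fun d hd => by simpa using hd) hφ.injOn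
    refine le_trans (le_of_eq ?_) (k1 ▸ k3)
    simp only [filter_filter, and_comm]
  · rw [← Hall_fib N E ha, card_eq_sum_card_fiberwise (t := univ) (f := fun d => (φ d).1)
      fun d _ => mem_coe.2 (mem_univ _)]
    simp only [filter_filter]

theorem exists_home (N : ℕ) (s : ℕ → ℕ) :
    ∃ (ι : Type) (_ : Fintype ι) (home : ι → ℕ), Fintype.card ι = ∑ a ∈ Finset.range N, s a ∧
      (∀ p, home p < N) ∧ ∀ a < N, (Finset.univ.filter (fun p => home p = a)).card = s a := by
  exact ⟨(a : Fin N) × Fin (s a), inferInstance, fun d => d.1, Hall_all N s, fun d => d.1.2,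
    fun a ha => Hall_fib N s ha⟩

end Pool.Agent.Work.MP_f4b644_ag.Fat
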