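import Pool.Agent.Work.MP_f4b644_ag.Fat.OptLR

/-!
The main inequality for 3 m ≤ ω ≤ m² / 2 in natural numbers. τ = J + m.

`optL_main`: cast to ℝ and divide by x (m + 1): it suffices that
a / (m + 1) + b (n - 1) / (x (m + 1)) + hW + 2 n ≤ J + 1. Here m - 4 ≤ x ≤ m - 2.
If 4 x ≤ ω apply `optL_real` with w = ω: (n - 1) x ≤ ω - 1 (from `hX`, `hxW`), so
b (n - 1) / x ≤ (4 ω + 4) (ω - 1) / x² ≤ 4 ω² / (m - 4)², 2 n ≤ 2 + 2 ω / (m - 4), and
hW ω ≤ τ xW + 3 τ ≤ τ (m + 3) + ω.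
If ω < 4 x then n = 4 (n x ≤ x + ω - 1 < 5 x); apply `optL_real` with w = 4 x (its hypotheses hold: 8 x ≤ m²,
9 (J + m + 4 x) ≤ (m + 2) J because (m - 7) J ≥ 45 m: use 100 ≤ J and 28 ≤ m). Now xW = m + ω - 4 x,
hW ω ≤ τ (ω - c) with c = 4 x + 1 - m - y ≥ 0, so hW ≤ τ (1 - c / ω) ≤ τ (1 - c / (4 x)) ≤ τ (m + 3) / (4 x);
3 b / x ≤ 3 (16 x + 4) / x ≤ 64 ≤ 4 w² / (m - 4)², 8 ≤ 2 w / (m - 4).
-/

set_option autoImplicit false

namespace Pool.Agent.Work.MP_f4b644_ag.Fat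

theorem OptLM_fin {M J x a b H N A B C D : ℝ} (hM : 0 ≤ M) (hx : 0 ≤ x) (ha : a ≤ M * A)
    (hb : b ≤ x * (M * B)) (hH : H ≤ C + 1) (hN : N ≤ D + 2) (h : A + B + C + D + 2 ≤ J) :
    x * a + b + x * M * (H + N) ≤ x * M * (J + 1) := by
  have h1 := mul_le_mul_of_nonneg_left ha hx
  have h2 : x * M * (A + B + (H + N)) ≤ x * M * (J + 1) :=
    mul_le_mul_of_nonneg_left (by linarith) (mul_nonneg hx hM)
  linarith

theorem OptLM_key (k J w x p hW a b : ℕ) (hk : 24 ≤ k) (hJ : 100 ≤ J) (hmJ : k + 4 + 2 ≤ J)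
    (hlo : 4 * k ≤ w) (hhi : 2 * w ≤ (k + 4) * (k + 4))
    (hv : 9 * (J + (k + 4) + w) ≤ (k + 4 + 2) * J) (ha : a ≤ 4 * (J + (k + 4) + w) + 4)
    (hb : b * p * k ^ 2 ≤ x * (4 * w ^ 2)) (hH : hW * w ≤ (J + (k + 4)) * (k + 4 + 3) + w)
    (hN : p * k ≤ w) :
    x * a + b * p + x * (k + 4 + 1) * (hW + 2 * (p + 1)) ≤ x * (k + 4 + 1) * (J + 1) := by
  have hk' : (24 : ℝ) ≤ k := by exact_mod_cast hk
  have hlo' : 4 * (k : ℝ) ≤ w := by exact_mod_cast hlo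
  have hhi' : 2 * (w : ℝ) ≤ (k + 4) * (k + 4) := by exact_mod_cast hhi
  have ha' : (a : ℝ) ≤ 4 * (J + (k + 4) + w) + 4 := by exact_mod_cast ha
  have hb' : (b : ℝ) * p * k ^ 2 ≤ x * (4 * w ^ 2) := by exact_mod_cast hb
  have hH' : (hW : ℝ) * w ≤ (J + (k + 4)) * (k + 4 + 3) + w := by exact_mod_cast hH
  have hN' : (p : ℝ) * k ≤ w := by exact_mod_cast hN
  have k0 : (0 : ℝ) < k := by linarith
  have w0 : (0 : ℝ) < w := by linarith
  have h := optL_real (k + 4) J w (by omega) (by exact_mod_cast hJ) (by exact_mod_cast hmJ)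
    (by push_cast; linarith) (by push_cast; linarith) (by exact_mod_cast hv)
  rw [Nat.cast_add, Nat.cast_ofNat, add_sub_cancel_right] at h
  have key := OptLM_fin (M := (k : ℝ) + 4 + 1) (x := x) (a := a) (b := b * p) (H := hW)
    (N := 2 * (p + 1)) (by linarith) (Nat.cast_nonneg x) ?_ ?_ ?_ ?_ h
  · exact_mod_cast key
  · rw [mul_div_cancel₀ _ (by positivity)]
    exact ha'
  · rw [mul_comm ((k : ℝ) ^ 2), ← div_div, ← mul_div_assoc, mul_div_cancel₀ _ (by positivity),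
      ← mul_div_assoc, le_div_iff₀ (by positivity)]
    exact hb'
  · rw [← sub_le_iff_le_add, le_div_iff₀ w0]
    linarith
  · rw [← sub_le_iff_le_add, le_div_iff₀ k0]
    linarith

theorem optL_main (m J ω y x n xW hW a b : ℕ) (hm : 28 ≤ m) (hJ : 100 ≤ J) (hmJ : m + 2 ≤ J)
    (h1 : 3 * m ≤ ω) (h2 : 2 * ω ≤ m * m) (hv : 9 * (J + m + ω) ≤ (m + 2) * J) (hy1 : 2 ≤ y)
    (hy2 : y ≤ 4) (hxy : x + y = m) (hn : 4 ≤ n) (hX : n * x + xW = m + ω) (hxW : y + 1 ≤ xW)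
    (hxW' : xW * (J + m) ≤ m * (J + m) + ω) (hh : hW * ω ≤ (J + m) * (xW + y - 1))
    (ha : a ≤ 4 * (J + m + ω) + 4) (hb : b ≤ 4 * ω + 4) :
    x * a + b * (n - 1) + x * (m + 1) * (hW + 2 * n) ≤ x * (m + 1) * (J + 1) := by
  obtain ⟨k, rfl⟩ : ∃ k, m = k + 4 := ⟨m - 4, by omega⟩
  obtain ⟨p, rfl⟩ : ∃ p, n = p + 1 := ⟨n - 1, by omega⟩
  have hk : 24 ≤ k := by omega
  have hkx : k ≤ x := by omega
  have hpx : p * x + 1 ≤ ω := by
    rw [add_mul, one_mul] at hX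
    omega
  rw [Nat.add_sub_cancel]
  rcases le_or_gt (4 * x) ω with hc | hc
  · refine OptLM_key k J ω x p hW a b hk hJ hmJ (by omega) h2 hv ha ?_ ?_ ?_
    · obtain ⟨u, rfl⟩ : ∃ u, ω = u + 1 := ⟨ω - 1, by omega⟩
      calc b * p * k ^ 2 ≤ b * p * x ^ 2 := by gcongr
        _ = x * (b * (p * x)) := by ring
        _ ≤ x * ((4 * (u + 1) + 4) * u) := by gcongr; omega
        _ ≤ x * (4 * (u + 1) ^ 2) := Nat.mul_le_mul_left x (by nlinarith)
    · calc hW * ω ≤ (J + (k + 4)) * (xW + y - 1) := hh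
        _ ≤ (J + (k + 4)) * (xW + 3) := by gcongr; omega
        _ ≤ _ := by linarith
    · exact (Nat.mul_le_mul_left p hkx).trans (by omega)
  · have hp : p = 3 := by
      have : p * x < 4 * x := by omega
      have := lt_of_mul_lt_mul_right this (Nat.zero_le x)
      omega
    subst hp
    refine OptLM_key k J (4 * x) x 3 hW a b hk hJ hmJ (by omega) (by nlinarith) ?_ (by omega)
      ?_ ?_ (by omega)
    · have : k * 100 ≤ k * J := Nat.mul_le_mul_left k hJ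
      have : 24 * J ≤ k * J := Nat.mul_le_mul_right J hk
      have : (k + 4 + 2) * J = k * J + 6 * J := by ring
      omega
    · calc b * 3 * k ^ 2 ≤ 16 * x * 4 * x ^ 2 := by gcongr <;> omega
        _ = _ := by ring
    · obtain ⟨c, hcc⟩ : ∃ c, xW + y - 1 + c = ω := ⟨ω - (xW + y - 1), by omega⟩
      obtain ⟨s, hs⟩ : ∃ s, xW + y - 1 = s := ⟨_, rfl⟩
      rw [hs] at hh hcc
      obtain ⟨e, he⟩ : ∃ e, ω + e = 4 * x := ⟨4 * x - ω, by omega⟩
      have h3 : s + e ≤ k + 4 + 3 := by omega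
      have h4 : hW ≤ J + (k + 4) := by
        refine Nat.le_of_mul_le_mul_right (c := ω) (hh.trans ?_) (by omega)
        gcongr
        omega
      calc hW * (4 * x) = hW * ω + hW * e := by rw [← he, mul_add]
        _ ≤ (J + (k + 4)) * s + (J + (k + 4)) * e := by gcongr
        _ = (J + (k + 4)) * (s + e) := by ring
        _ ≤ (J + (k + 4)) * (k + 4 + 3) := by gcongr
        _ ≤ _ := Nat.le_add_right _ _

end Pool.Agent.Work.MP_f4b644_ag.Fat
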