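import Mathlib

/-!
The main inequality for 3 m ≤ ω ≤ m² / 2, real form.

`conv3`: w² ≤ (lo + hi) w - lo hi and 1 / w ≤ (lo + hi - w) / (lo hi), so the function is below its chord
(write w = lo + θ (hi - lo), or treat lo = hi separately).
`optL_real`: let Φ J w = left side - J. For fixed w, Φ is affine in J with slope 4 / (m + 1) + (m + 3) / w - 1 < 0, so
it suffices to treat a smaller J. Let J0 = max 100 (m + 2), h0 = ((m - 7) J0 - 9 m) / 9, lo = 4 m - 16 ≤ h0 ≤ m² / 2.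
If w ≤ h0 replace J by J0 and use `conv3` on [lo, h0]. If h0 ≤ w replace J by J w = (9 w + 9 m) / (m - 7) ≤ J
(`hv`); then J w + m = (9 w + m² + 2 m) / (m - 7) and Φ (J w) w = α w + β w² + γ / w + const, use `conv3` on
[h0, m² / 2] (J h0 = J0). Three checks remain.
(1) Φ J0 lo ≤ 0 (margin 13 %): 4 lo² / ((m - 4)² (m + 1)) = 64 / (m + 1), 2 lo / (m - 4) = 8,
(4 (m + lo) + 4) / (m + 1) ≤ 20; for m ≤ 60 use 100 ≤ J0, 4 / (m + 1) ≤ 4 / 29, (m + 3) / (4 (m - 4)) ≤ 31 / 96,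
m (m + 3) / (4 (m - 4)) ≤ 17; for 60 ≤ m use m ≤ J0, 4 / (m + 1) ≤ 4 / 61, (m + 3) / (4 (m - 4)) ≤ 63 / 224.
(2) Φ J0 h0 ≤ 0 (margin 5 %): for m ≤ 98 `interval_cases m` and `norm_num`; for 98 ≤ m, J0 = m + 2,
h0 = (m² - 14 m - 14) / 9, bound the terms by 4 (m + 2)² / (9 (m + 1)) + 4 / (m + 1), 4 m / 81, 22 (value 21.9 at m = 98,
decreasing to 18), 2 m / 9.
(3) Φ J1 (m² / 2) ≤ 0 for (m - 7) J1 = 9 m + 9 m² / 2 (margin 5 %): the slope is ≤ 7 / m - 1 and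
J1 (m - 7) / m = 9 m / 2 + 9; the other terms are 2 m + 2 + 2 / (m + 1), m⁴ / ((m - 4)² (m + 1)) ≤ m + 9,
2 (m + 3) / m, m² / (m - 4) ≤ m + 4.7, 2, in total ≤ 4 m + 20.
-/

set_option autoImplicit false

namespace Pool.Agent.Work.MP_f4b644_ag.Fat

theorem conv3 (α β γ C lo hi w : ℝ) (hβ : 0 ≤ β) (hγ : 0 ≤ γ) (h0 : 0 < lo) (h1 : lo ≤ w) (h2 : w ≤ hi)
    (hl : α * lo + β * lo ^ 2 + γ / lo ≤ C) (hh : α * hi + β * hi ^ 2 + γ / hi ≤ C) :
    α * w + β * w ^ 2 + γ / w ≤ C := by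
  have hw : 0 < w := h0.trans_le h1
  have hhi : 0 < hi := hw.trans_le h2
  rcases (h1.trans h2).eq_or_lt with h | h
  · obtain rfl : w = lo := le_antisymm (h ▸ h2) h1
    exact hl
  have a1 : 0 ≤ w - lo := sub_nonneg.2 h1
  have a2 : 0 ≤ hi - w := sub_nonneg.2 h2
  have a3 : 0 < hi - lo := sub_pos.2 h
  have e : (hi - lo) * (C - (α * w + β * w ^ 2 + γ / w)) =
      (hi - w) * (C - (α * lo + β * lo ^ 2 + γ / lo)) +
      (w - lo) * (C - (α * hi + β * hi ^ 2 + γ / hi)) +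
      (hi - lo) * ((w - lo) * (hi - w)) * (β + γ / (lo * w * hi)) := by
    field_simp
    ring
  have b1 := mul_nonneg a2 (sub_nonneg.2 hl)
  have b2 := mul_nonneg a1 (sub_nonneg.2 hh)
  have b3 : 0 ≤ (hi - lo) * ((w - lo) * (hi - w)) * (β + γ / (lo * w * hi)) := by positivity
  exact sub_nonneg.1 (nonneg_of_mul_nonneg_right (by rw [e]; positivity) a3)

/-- The left side of the inequality. -/
noncomputable def OptLR_F (M J w : ℝ) : ℝ :=
  (4 * (J + M + w) + 4) / (M + 1) + 4 * w ^ 2 / ((M - 4) ^ 2 * (M + 1)) +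
    (J + M) * (M + 3) / w + 2 * w / (M - 4) + 2

theorem OptLR_conv {M a b lo hi w : ℝ} (hM : 28 ≤ M) (hb : 0 ≤ b + M) (h0 : 0 < lo) (h1 : lo ≤ w)
    (h2 : w ≤ hi) (hl : OptLR_F M (a * lo + b) lo ≤ a * lo + b)
    (hh : OptLR_F M (a * hi + b) hi ≤ a * hi + b) : OptLR_F M (a * w + b) w ≤ a * w + b := by
  have m1 : 0 < M + 1 := by linarith
  have m3 : 0 < M + 3 := by linarith
  have m4 : 0 < M - 4 := by linarith
  have e : ∀ v : ℝ, 0 < v → OptLR_F M (a * v + b) v =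
      (4 * (a + 1) / (M + 1) + 2 / (M - 4) - a) * v + 4 / ((M - 4) ^ 2 * (M + 1)) * v ^ 2 +
        (b + M) * (M + 3) / v + ((4 * (b + M) + 4) / (M + 1) + a * (M + 3) + 2 + a * v) := by
    intro v hv
    unfold OptLR_F
    field_simp
    ring
  have hw := h0.trans_le h1
  rw [e _ h0] at hl
  rw [e _ (hw.trans_le h2)] at hh
  rw [e _ hw]
  have := conv3 (4 * (a + 1) / (M + 1) + 2 / (M - 4) - a) (4 / ((M - 4) ^ 2 * (M + 1)))
    ((b + M) * (M + 3)) (b - ((4 * (b + M) + 4) / (M + 1) + a * (M + 3) + 2)) lo hi w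
    (by positivity) (by positivity) h0 h1 h2 (by linarith) (by linarith)
  linarith

theorem OptLR_of {M J w : ℝ} (hM : 28 ≤ M) (hw : 0 < w)
    (h : 0 ≤ (J - 2) * (M + 1) * (M - 4) ^ 2 * w - (4 * (J + M + w) + 4) * (M - 4) ^ 2 * w -
      4 * w ^ 3 - (J + M) * (M + 3) * (M + 1) * (M - 4) ^ 2 - 2 * w ^ 2 * (M + 1) * (M - 4)) :
    OptLR_F M J w ≤ J := by
  have m1 : 0 < M + 1 := by linarith
  have m4 : 0 < M - 4 := by linarith
  have h1 := div_nonneg h (show 0 ≤ (M + 1) * (M - 4) ^ 2 * w by positivity)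
  refine sub_nonneg.1 (h1.trans_eq ?_)
  unfold OptLR_F
  field_simp
  ring

theorem OptLR_1 {M J : ℝ} (hM : 28 ≤ M) (hJ : (202 + M) / 3 ≤ J) :
    OptLR_F M J (4 * M - 16) ≤ J := by
  refine OptLR_of hM (by linarith) ?_
  obtain ⟨u, hu, rfl⟩ := exists_nonneg_add_of_le hJ
  obtain ⟨s, hs, rfl⟩ := exists_nonneg_add_of_le hM
  ring_nf
  positivity

theorem OptLR_2 {M : ℝ} (hM : 28 ≤ M) :
    OptLR_F M ((302 + M) / 4) ((M ^ 2 + 259 * M - 2114) / 36) ≤ (302 + M) / 4 := by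
  refine OptLR_of hM (by nlinarith) ?_
  obtain ⟨s, hs, rfl⟩ := exists_nonneg_add_of_le hM
  ring_nf
  positivity

theorem OptLR_3 {M J : ℝ} (hM : 28 ≤ M) (hJ : 9 * (J + M + M ^ 2 / 2) ≤ (M + 2) * J) :
    OptLR_F M J (M ^ 2 / 2) ≤ J := by
  refine OptLR_of hM (by positivity) ?_
  have h1 : 4 * M + 60 ≤ J := by
    by_contra hc
    nlinarith [mul_pos (sub_pos.2 (not_le.1 hc)) (show 0 < M - 7 by linarith), sq_nonneg (M - 23)]
  obtain ⟨u, hu, rfl⟩ := exists_nonneg_add_of_le h1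
  obtain ⟨s, hs, rfl⟩ := exists_nonneg_add_of_le hM
  ring_nf
  positivity


theorem optL_real (m : ℕ) (J w : ℝ) (hm : 28 ≤ m) (hJ : 100 ≤ J) (hmJ : (m : ℝ) + 2 ≤ J)
    (hlo : 4 * (m : ℝ) - 16 ≤ w) (hhi : 2 * w ≤ (m : ℝ) ^ 2) (hv : 9 * (J + m + w) ≤ (m + 2) * J) :
    (4 * (J + m + w) + 4) / (m + 1) + 4 * w ^ 2 / (((m : ℝ) - 4) ^ 2 * (m + 1)) +
      (J + m) * (m + 3) / w + 2 * w / ((m : ℝ) - 4) + 2 ≤ J := by
  have hM : (28 : ℝ) ≤ m := by exact_mod_cast hm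
  generalize (m : ℝ) = M at *
  show OptLR_F M J w ≤ J
  have h1 := OptLR_1 hM (J := J) (by linarith)
  have key : ∀ hi, w ≤ hi → OptLR_F M J hi ≤ J → OptLR_F M J w ≤ J := fun hi k1 k2 => by
    simpa using OptLR_conv (a := 0) (b := J) (lo := 4 * M - 16) hM (by linarith) (by linarith) hlo k1
      (by simpa using h1) (by simpa using k2)
  rcases le_total (9 * (J + M + M ^ 2 / 2)) ((M + 2) * J) with h | h
  · exact key _ (by linarith) (OptLR_3 hM h)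
  have m7 : 0 < M - 7 := by linarith
  refine key (((M - 7) * J - 9 * M) / 9) (by linarith) ?_
  have e1 : 9 / (M - 7) * (((M - 7) * J - 9 * M) / 9) + 9 * M / (M - 7) = J := by
    field_simp
    ring
  have e2 : 9 / (M - 7) * ((M ^ 2 + 259 * M - 2114) / 36) + 9 * M / (M - 7) = (302 + M) / 4 := by
    field_simp
    ring
  have e3 : 9 * (9 / (M - 7) * (M ^ 2 / 2) + 9 * M / (M - 7) + M + M ^ 2 / 2) =
      (M + 2) * (9 / (M - 7) * (M ^ 2 / 2) + 9 * M / (M - 7)) := by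
    field_simp
    ring
  have h2 := OptLR_conv (a := 9 / (M - 7)) (b := 9 * M / (M - 7))
    (lo := (M ^ 2 + 259 * M - 2114) / 36) (hi := M ^ 2 / 2) (w := ((M - 7) * J - 9 * M) / 9) hM
    (by positivity) (by nlinarith)
    (by nlinarith [mul_nonneg m7.le (show 0 ≤ J - (302 + M) / 4 by linarith)]) (by linarith)
    (by rw [e2]; exact OptLR_2 hM) (OptLR_3 hM e3.le)
  rwa [e1] at h2

end Pool.Agent.Work.MP_f4b644_ag.Fat
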