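import Pool.Agent.Work.MP_f4b644_ag.Fat.Opt
import Pool.Agent.Work.MP_f4b644_ag.Fat.L0b

/-!
The range m ≤ ω < 3 m: parameters and common facts. τ = J + m.

`optS_par`: y = the ceiling of 2 τ / K (2 ≤ y because 3 K < 4 τ, y ≤ 6 because τ ≤ 3 K), x = m - y,
n = (m + ω - y - 1) / x, xW = m + ω - n x ∈ [y + 1, y + x]; 2 ≤ n ≤ 4 from 2 x ≤ m + ω - y - 1 < 5 x.
`optS_facts`: do cases on y first (`interval_cases`). (y + 1) K ≤ 4 τ and y K ≤ 3 τ are linear then. Multiply the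
bounds for t by τ: y t τ ≥ ω y K ≥ 2 ω τ; y t τ < y ω K + y τ ≤ (3 ω + y) τ; (y + 1) t τ < (4 ω + y + 1) τ;
3 t τ ≥ 3 ω K ≥ ω τ gives 3 t ≥ ω ≥ 28; 2 t τ < 2 ω K + 2 τ ≤ 3 τ K + 2 τ because 2 ω ≤ 6 m ≤ 3 τ. If n = 2 then
ω = 2 x + xW - m ≤ 2 x. e0 + t ≤ K xW: 2 K xW ≥ 2 K (y + 1), (2 y - 1) K ≥ 3 τ ≥ 6 m + 6, 2 t ≤ 3 K + 2.
`optS_M1`: the left side is x (y + 1) B' + (y + 1) t (n - 1) + 2 n x (m + 1), with (y + 1) B' ≤ 4 J + 16 m + 2,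
(y + 1) t (n - 1) ≤ 3 (12 m + 2) ≤ 2 x (m + 1), n ≤ 4, J ≤ 2 H, and (m - 7) J / 2 ≥ 50 (m - 7) ≥ 25 m + 11.
-/

set_option autoImplicit false

namespace Pool.Agent.Work.MP_f4b644_ag.Fat

/-- the parameters of the strips for m ≤ ω < 3 m -/
def SPar (m J ω K y x n xW e0 : ℕ) : Prop :=
  m ≤ ω ∧ ω < 3 * m ∧ 2 ≤ y ∧ y ≤ 6 ∧ 2 * (J + m) ≤ y * K ∧ (y - 1) * K < 2 * (J + m) ∧ x + y = m ∧
    2 ≤ n ∧ n ≤ 4 ∧ n * x + xW = m + ω ∧ y + 1 ≤ xW ∧ xW ≤ m ∧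
    ((n = 2 ∧ e0 = 2 * m + 7) ∨ (3 ≤ n ∧ e0 = 0))

theorem optS_par (m J ω K t δ : ℕ) (R : Reg m J ω K t δ) (h1 : m ≤ ω) (h2 : ω < 3 * m) :
    ∃ y x n xW e0, SPar m J ω K y x n xW e0 := by
  obtain ⟨r1, r2, r3, r4, r5, -, -⟩ := R
  obtain ⟨y, y1, y2⟩ := Big.Top_ceil (2 * (J + m)) K (by omega)
  have y3 : 2 ≤ y := by
    by_contra hc
    have := Nat.mul_le_mul_right K (show y ≤ 1 by omega)
    omega
  have y4 : y ≤ 6 := by
    by_contra hc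
    have := Nat.mul_le_mul_right K (show 7 ≤ y by omega)
    omega
  have y5 : (y - 1) * K < 2 * (J + m) := by
    interval_cases y <;> omega
  obtain ⟨x, hx⟩ : ∃ x, x + y = m := ⟨m - y, by omega⟩
  by_cases c1 : x + ω - 1 < 3 * x
  · exact ⟨y, x, 2, m + ω - 2 * x, 2 * m + 7, h1, h2, y3, y4, y1, y5, hx, by omega, by omega,
      by omega, by omega, by omega, Or.inl ⟨rfl, rfl⟩⟩
  by_cases c2 : x + ω - 1 < 4 * x
  · exact ⟨y, x, 3, m + ω - 3 * x, 0, h1, h2, y3, y4, y1, y5, hx, by omega, by omega,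
      by omega, by omega, by omega, Or.inr ⟨by omega, rfl⟩⟩
  · exact ⟨y, x, 4, m + ω - 4 * x, 0, h1, h2, y3, y4, y1, y5, hx, by omega, by omega,
      by omega, by omega, by omega, Or.inr ⟨by omega, rfl⟩⟩

theorem OptS0_lo (a b : ℕ) {t τ ω K δ : ℕ} (h : t * τ = ω * K + δ) (hτ : 0 < τ)
    (hb : b * τ ≤ a * K) : b * ω ≤ a * t := by
  refine Nat.le_of_mul_le_mul_right ?_ hτ
  calc b * ω * τ = ω * (b * τ) := by ring
    _ ≤ ω * (a * K) + a * δ := (Nat.mul_le_mul_left ω hb).trans (Nat.le_add_right _ _)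
    _ = a * (ω * K + δ) := by ring
    _ = a * t * τ := by rw [← h, mul_assoc]

theorem OptS0_hi (a b : ℕ) {t τ ω K δ : ℕ} (h : t * τ = ω * K + δ) (hδ : δ < τ) (ha : 0 < a)
    (hb : ω * (a * K) ≤ b * τ) : a * t < b + a := by
  refine Nat.lt_of_mul_lt_mul_right (a := τ) ?_
  calc a * t * τ = a * (ω * K + δ) := by rw [← h, mul_assoc]
    _ = ω * (a * K) + a * δ := by ring
    _ < b * τ + a * τ := Nat.add_lt_add_of_le_of_lt hb (Nat.mul_lt_mul_of_pos_left hδ ha)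
    _ = (b + a) * τ := by ring

theorem OptS0_sc {a b τ : ℕ} (ω : ℕ) (h : a ≤ b * τ) : ω * a ≤ b * ω * τ :=
  (Nat.mul_le_mul_left ω h).trans_eq (by ring)

theorem optS_facts {m J ω K t δ y x n xW e0 : ℕ} (R : Reg m J ω K t δ)
    (P : SPar m J ω K y x n xW e0) :
    (y + 1) * K ≤ 4 * (J + m) ∧ y * K ≤ 3 * (J + m) ∧ 2 * ω ≤ y * t ∧ y * t + 1 ≤ 3 * ω + y ∧
      (y + 1) * t ≤ 4 * ω + y ∧ 10 ≤ t ∧ 2 * t ≤ 3 * K + 2 ∧ (n = 2 → y * t ≤ 7 * x) ∧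
      xW + m ≤ ω + 2 * y ∧ e0 + t ≤ K * xW := by
  obtain ⟨r1, r2, r3, r4, r5, r6, r7⟩ := R
  obtain ⟨p1, p2, p3, p4, p5, p6, p7, p8, p9, p10, p11, p12, p13⟩ := P
  have hτ : 0 < J + m := by omega
  have f0 : (y + 1) * K ≤ 4 * (J + m) ∧ y * K ≤ 3 * (J + m) ∧
      3 * (J + m) + 3 * K ≤ 2 * (K * (y + 1)) := by
    clear r6 p10 p13
    interval_cases y <;> omega
  obtain ⟨f1, f2, f0⟩ := f0
  have f3 := OptS0_lo y 2 r6 hτ p5
  have f4 := OptS0_hi y _ r6 r7 (by omega) (OptS0_sc ω f2)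
  have f5 := OptS0_hi (y + 1) _ r6 r7 (by omega) (OptS0_sc ω f1)
  have f6 := OptS0_lo 3 1 r6 hτ (by omega)
  have f7 := OptS0_hi 2 (3 * K) r6 r7 (by omega) (by
    calc ω * (2 * K) = 2 * ω * K := by ring
      _ ≤ 3 * (J + m) * K := Nat.mul_le_mul_right K (by omega)
      _ = 3 * K * (J + m) := by ring)
  have f9 : 2 * x ≤ n * x := Nat.mul_le_mul_right x p8
  have f10 : K * (y + 1) ≤ K * xW := Nat.mul_le_mul_left K p11
  clear r6 p6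
  refine ⟨f1, f2, f3, by omega, by omega, by omega, by omega, fun h => ?_, by omega, by omega⟩
  subst h
  omega

theorem optS_M1 {m J ω K t δ y x n xW e0 : ℕ} (R : Reg m J ω K t δ) (P : SPar m J ω K y x n xW e0)
    (B' H : ℕ) (hB : B' ≤ K + t) (hH : J ≤ 2 * H) :
    (y + 1) * (x * B' + (n - 1) * t + n * x) + n * x * x + x * (m + 1) * n ≤ x * (m + 1) * (H + 1) := by
  obtain ⟨f1, -, -, -, f5, -⟩ := optS_facts R P
  obtain ⟨r1, r2, -⟩ := R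
  obtain ⟨-, p2, -, p4, -, -, p7, p8, p9, -⟩ := P
  have a1 : (y + 1) * B' ≤ 4 * J + 16 * m + 2 := by
    have := Nat.mul_le_mul_left (y + 1) hB
    rw [Nat.mul_add] at this
    omega
  have a2 : (n - 1) * ((y + 1) * t) ≤ 2 * (x * (m + 1)) := by
    have b1 : (n - 1) * ((y + 1) * t) ≤ 3 * (12 * m + 2) := Nat.mul_le_mul (by omega) (by omega)
    have b2 : 22 * (m + 1) ≤ x * (m + 1) := Nat.mul_le_mul_right _ (by omega)
    omega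
  have a3 : n * (x * (m + 1)) ≤ 4 * (x * (m + 1)) := Nat.mul_le_mul_right _ p9
  have a4 : 4 * J + 16 * m + 2 + 10 * (m + 1) ≤ (m + 1) * (H + 1) := by
    obtain ⟨c, rfl⟩ : ∃ c, m = c + 7 := ⟨m - 7, by omega⟩
    have b1 : c * 50 ≤ c * H := Nat.mul_le_mul_left c (by omega)
    have b2 : (c + 7 + 1) * (H + 1) = c * H + 8 * H + c + 8 := by ring
    omega
  calc _ = x * ((y + 1) * B') + (n - 1) * ((y + 1) * t) + 2 * (n * (x * (m + 1))) := by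
        rw [← p7]
        ring
    _ ≤ x * (4 * J + 16 * m + 2) + 2 * (x * (m + 1)) + 2 * (4 * (x * (m + 1))) :=
        Nat.add_le_add (Nat.add_le_add (Nat.mul_le_mul_left x a1) a2) (Nat.mul_le_mul_left 2 a3)
    _ = x * (4 * J + 16 * m + 2 + 10 * (m + 1)) := by ring
    _ ≤ x * ((m + 1) * (H + 1)) := Nat.mul_le_mul_left x a4
    _ = _ := by ring

end Pool.Agent.Work.MP_f4b644_ag.Fat
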