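import Pool.Agent.Work.MP_f4b644_ag.Fat.OptS0

/-!
The range m ≤ ω < 3 m, the strip W carries no tangents.

`optS_pure`: `V_opt` with kW = K, sW = 0, yW = 0, B' = K + t, H = J - hW, Et = y B' - G; use `optS_facts`, `optS_M1`.
1 ≤ hW because G < e0 + t ≤ K xW. `cap_pure`: xW ≤ m ≤ (m - 2) hW if 2 ≤ hW; if hW = 1 then
K xW ≤ G + t < e0 + 2 t ≤ 2 m + 9 + 3 K and 3 K ≥ τ ≥ 2 m + 2 give xW ≤ 9.
`h1`: n x + G ≤ y K + y t from n x ≤ m + ω, G < e0 + t, 2 (y - 1) t ≥ y t ≥ 2 ω, y K ≥ 2 τ ≥ 4 m + 4.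
`h2`: n - 1 ≤ x and n ≤ K. `hall` means 2 x y B' + n x m + y (n - 1) t ≤ n x y B' + x G (x + y = m).
If n = 2: x G ≥ x (2 m + 7) and y t ≤ 7 x. If n = 3, 4: (n - 2) x y t ≥ (n - 1) y t and (n - 2) x y K ≥ n x m.
`V_regS` chooses between the two cases: hp = (K xW + δ - e0) / t; if 2 hp ≤ J use `optS_pure` with hW = hp and
G = K xW + δ - hp t, otherwise h = J / 2 satisfies h + 1 ≤ hp, use `optS_load`.
-/

set_option autoImplicit false

namespace Pool.Agent.Work.MP_f4b644_ag.Fat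

open Big Thin

theorem optS_pure {m J ω K t δ y x n xW e0 : ℕ} (R : Reg m J ω K t δ) (P : SPar m J ω K y x n xW e0)
    (hW G : ℕ) (hG : G + hW * t = K * xW + δ) (h1 : e0 ≤ G) (h2 : G < e0 + t) (h3 : 2 * hW ≤ J) :
    V m J (m + ω) K t (K + t) 0 0 0 := by
  obtain ⟨-, -, f3, -, -, -, f7, f8, -, f10⟩ := optS_facts R P
  have M1 := optS_M1 R P (K + t) (J - hW) le_rfl (by omega)
  obtain ⟨r1, r2, r3, r4, -, r6, -⟩ := R
  obtain ⟨-, -, p3, p4, p5, -, p7, p8, p9, p10, p11, p12, p13⟩ := P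
  have a1 : 2 * t ≤ y * t := Nat.mul_le_mul_right t p3
  have a2 : n * x + G ≤ y * (K + t) := by
    rw [mul_add]
    omega
  obtain ⟨Et, hE⟩ : ∃ Et, Et + G = y * (K + t) := ⟨y * (K + t) - G, by omega⟩
  have a3 : 1 ≤ hW := by
    rcases hW with _ | hW <;> omega
  refine V_opt m J ω K t δ n x y (J - hW) hW xW K 0 0 G (K + t) Et (by omega) (by omega) p7
    (by omega) r6 p10 (by omega) rfl rfl hG (by omega) (fun h => absurd h (lt_irrefl 0)) (by omega)
    (cap_pure (by omega) a3 ?_) (by omega) (by omega) ?_ (by omega) M1 ?_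
  · rcases Nat.eq_or_lt_of_le a3 with rfl | a4
    · by_contra a4
      have a5 := Nat.mul_le_mul_left K (show 7 ≤ xW by omega)
      omega
    · obtain ⟨u, rfl⟩ : ∃ u, m = u + 2 := ⟨m - 2, by omega⟩
      have a5 := Nat.mul_le_mul_left u a4
      rw [add_mul]
      omega
  · have a4 := Nat.mul_le_mul_right t (show n - 1 ≤ x by omega)
    have a5 := Nat.mul_le_mul_right x (show n ≤ K by omega)
    linarith
  · have a4 : x * Et + x * G = x * (y * (K + t)) := by rw [← mul_add, hE]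
    have a5 := Nat.mul_le_mul_left x h1
    have a6 := Nat.mul_le_mul_left x (show 4 * m ≤ y * K by omega)
    have a7 := Nat.mul_le_mul_right (y * t) (show 2 ≤ x by omega)
    subst p7
    rcases p13 with ⟨rfl, rfl⟩ | ⟨p13, -⟩
    · have a8 := f8 rfl
      norm_num
      linarith
    · have a8 : n = 3 ∨ n = 4 := by omega
      rcases a8 with rfl | rfl <;> norm_num <;>
        linarith [Nat.zero_le (x * G), Nat.zero_le (y * t), Nat.zero_le (x * x), Nat.zero_le (x * y)]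

theorem V_regS_of {m J ω K t δ : ℕ} (R : Reg m J ω K t δ) (h1 : m ≤ ω) (h2 : ω < 3 * m)
    (optS_load : ∀ y x n xW e0 h, SPar m J ω K y x n xW e0 → 2 * h ≤ J → J ≤ 2 * h + 1 →
      (h + 1) * t + e0 ≤ K * xW + δ → V m J (m + ω) K t (K + t) 0 0 0) :
    V m J (m + ω) K t (K + t) 0 0 0 := by
  obtain ⟨y, x, n, xW, e0, P⟩ := optS_par m J ω K t δ R h1 h2
  obtain ⟨-, -, -, -, -, f6, -, -, -, f10⟩ := optS_facts R P
  have a1 := Nat.mod_add_div' (K * xW + δ - e0) t
  have a2 := Nat.mod_lt (K * xW + δ - e0) (show 0 < t by omega)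
  generalize (K * xW + δ - e0) % t = g at a1 a2
  generalize (K * xW + δ - e0) / t = hp at a1
  rcases le_or_gt (2 * hp) J with a3 | a3
  · exact optS_pure R P hp (e0 + g) (by omega) (by omega) (by omega) a3
  · have a4 := Nat.mul_le_mul_right t (show J / 2 + 1 ≤ hp by omega)
    exact optS_load y x n xW e0 (J / 2) P (by omega) (by omega) (by omega)

end Pool.Agent.Work.MP_f4b644_ag.Fat
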