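import Pool.Agent.Work.MP_f4b644_ag.Fat.CapL
import Pool.Agent.Work.MP_f4b644_ag.Fat.Comb
import Pool.Agent.Work.MP_f4b644_ag.Fat.Hall

/-!
Any number of strips whose tangents fill their own columns.

`V_hall`: `exists_home`, `hall_tokens` with w p = y (home p) (sums over fibres: ∑ p, w p = ∑ b < N, y b * s b), `V_pts`.
The strip a: Nf = the multiset of tokens of the foreign points has card K + t - s a, sum E a (own points send
nothing), entries e p a ≤ ∑ e p · ≤ y (home p) ≤ x a (the fibre of home p is nonempty, so 0 < s (home p)).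
If 0 < s a use `S_stripW` (k = K - s a, Gr = replicate f 1, `cap_grOK`), if s a = 0 use `S_gpl`. The count is
k (h + x) ≤ h (k + t) + E.
`V_two`: N = 2, E 0 = z' s', E 1 = z s (functions of the form fun a => if a = 0 then .. else ..);
(K - s') (m - z') ≤ h' t + z s because K - s' = s - t and m - z' - z = ω.
-/

set_option autoImplicit false

namespace Pool.Agent.Work.MP_f4b644_ag.Fat

open Big Thin Multiset Big.Gad

theorem V_hall (m K t N : ℕ) (h x s y E : ℕ → ℕ) (hs : ∑ a ∈ Finset.range N, s a = K + t)
    (hsK : ∀ a < N, s a ≤ K) (hxy : ∀ a < N, 0 < s a → x a + y a = m)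
    (hcap : ∀ a < N, ∀ b < N, a ≠ b → 0 < s b → y b ≤ x a)
    (hG : ∀ a < N, Cap m (h a) (x a) (s a) (y a))
    (hE : ∀ a < N, (K - s a) * x a ≤ h a * t + E a)
    (H1 : ∀ a < N, E a + y a * s a ≤ ∑ b ∈ Finset.range N, y b * s b)
    (H2 : ∑ a ∈ Finset.range N, E a ≤ ∑ b ∈ Finset.range N, y b * s b) :
    V m (∑ a ∈ Finset.range N, h a) (∑ a ∈ Finset.range N, x a) K t (K + t) 0 0 0 := by
  obtain ⟨ι, _, home, hcard, hlt, hfib⟩ := exists_home N s
  have hw : ∀ a < N, ∑ p ∈ Finset.univ.filter (fun p => home p = a), y (home p) = y a * s a :=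
    fun a ha => by
      rw [Finset.sum_congr rfl fun p hp => congrArg y (Finset.mem_filter.1 hp).2, Finset.sum_const,
        hfib a ha, smul_eq_mul, mul_comm]
  have htot : ∑ p, y (home p) = ∑ b ∈ Finset.range N, y b * s b := by
    rw [← Finset.sum_fiberwise_of_maps_to (g := home) (t := Finset.range N)
      fun p _ => Finset.mem_range.2 (hlt p)]
    exact Finset.sum_congr rfl fun a ha => hw a (Finset.mem_range.1 ha)
  obtain ⟨e, e0, e1, e2⟩ := hall_tokens N home (fun p => y (home p)) E
    (fun a ha => by rw [hw a ha, htot]; exact H1 a ha) (by rw [htot]; exact H2)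
  refine V_pts m K t N home h x s y e (hcard.trans hs) hfib e0 e1 hlt (fun a ha => (hG a ha).2.1)
    fun a ha => ?_
  have c1 : ((Finset.univ.filter (fun p => home p ≠ a)).val.map fun p => e p a).card =
      K - s a + t := by
    have h1 := Finset.card_filter_add_card_filter_not (s := Finset.univ) fun p => home p = a
    have h2 := hsK a ha
    rw [hfib a ha, Finset.card_univ, hcard, hs] at h1
    rw [card_map, Finset.card_val]
    simp only [ne_eq]
    omega
  have c2 : ((Finset.univ.filter (fun p => home p ≠ a)).val.map fun p => e p a).sum = E a := by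
    rw [← e2 a ha]
    exact Finset.sum_filter_of_ne fun p _ hp k => hp (k ▸ e0 p)
  have c3 : ∀ n ∈ (Finset.univ.filter (fun p => home p ≠ a)).val.map fun p => e p a, n ≤ x a := by
    intro n hn
    obtain ⟨p, hp, rfl⟩ := mem_map.1 hn
    refine ((Finset.single_le_sum (f := e p) (fun _ _ => Nat.zero_le _)
      (Finset.mem_range.2 ha)).trans (e1 p)).trans
        (hcap a ha _ (hlt p) (Finset.mem_filter.1 hp).2.symm ?_)
    rw [← hfib _ (hlt p)]
    exact Finset.card_pos.2 ⟨p, by simp⟩
  generalize ((Finset.univ.filter (fun p => home p ≠ a)).val.map fun p => e p a) = Nf at c1 c2 c3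
  have c4 : (K - s a) * (h a + x a) ≤ h a * Nf.card + Nf.sum := by
    have := hE a ha
    rw [c1, c2, mul_add, mul_add, mul_comm (h a) (K - s a)]
    omega
  have hg := cap_grOK (hG a ha) ((m + 1) * h a - x a - (y a + 1) * s a) (by
    have := (hG a ha).2.1
    omega)
  rcases Nat.eq_zero_or_pos (s a) with h0 | h0
  · have h1 := S_gpl hg _ Nf c3 c4
    rw [h0] at h1 ⊢
    simpa using h1
  · have h1 := S_stripW (m + 2) (h a) (x a) (y a) (s a) _ Nf _ (by rw [hxy a ha h0]) hg c3 c4
    rwa [Nat.add_sub_cancel' (hsK a ha), map_replicate] at h1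

theorem V_two (m ω K t x x' z z' h h' s s' : ℕ) (hz : z + z' + ω = m) (hx : x + z = m) (hx' : x' + z' = m)
    (hs : s + s' = K + t) (ht : t ≤ s) (ht' : t ≤ s') (h1 : s * ω ≤ t * (x' + h'))
    (h2 : s' * ω ≤ t * (x + h)) (c1 : Cap m h x s z) (c2 : Cap m h' x' s' z') :
    V m (h + h') (m + ω) K t (K + t) 0 0 0 := by
  have two : ∀ {P : ℕ → Prop}, P 0 → P 1 → ∀ a < 2, P a := fun p0 p1 a ha => by
    interval_cases a
    exacts [p0, p1]
  obtain ⟨u, rfl⟩ := Nat.exists_eq_add_of_le ht
  obtain ⟨u', rfl⟩ := Nat.exists_eq_add_of_le ht'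
  obtain rfl : x = z' + ω := by omega
  obtain rfl : x' = z + ω := by omega
  have k1 : K - (t + u) = u' := by omega
  have k2 : K - (t + u') = u := by omega
  have H := V_hall m K t 2 (fun a => if a = 0 then h else h')
    (fun a => if a = 0 then z' + ω else z + ω) (fun a => if a = 0 then t + u else t + u')
    (fun a => if a = 0 then z else z') (fun a => if a = 0 then z' * (t + u') else z * (t + u))
    (by simpa [Finset.sum_range_succ] using hs) (two (by simp; omega) (by simp; omega))
    (two (fun _ => hx) fun _ => hx')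
    (two (two (fun k => absurd rfl k) fun _ _ => by simp)
      (two (fun _ _ => by simp) fun k => absurd rfl k))
    (two c1 c2)
    (two (by simp only [if_true, k1]; nlinarith)
      (by simp only [one_ne_zero, if_false, k2]; nlinarith))
    (two (by simp [Finset.sum_range_succ, add_comm]) (by simp [Finset.sum_range_succ]))
    (by simp [Finset.sum_range_succ, add_comm])
  simp only [Finset.sum_range_succ, Finset.sum_range_zero, zero_add, if_true, one_ne_zero,
    if_false] at H
  rwa [show z' + ω + (z + ω) = m + ω by omega] at H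

end Pool.Agent.Work.MP_f4b644_ag.Fat
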