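import Pool.Agent.Work.MP_f4b644_ag.Fat.SHall

/-!
Strips whose tangents sit in squares side by side; cyclic routing of the tokens; one sink without tangents.

`S_sqstrip`: `S_peel` with u = j, n = μ, w = 0, Gr = replicate f 1 (compare `Strip_one` in Big/Strip.lean), the unit
is `S_sql` (the number of groups is μ j - j + f ≥ 2 j), the pure part is `S_gpl` with `cap_grOK`.
`cyc_route`: ι = (a : Fin N) × Fin (s a) as in `exists_home`. The point p = (c, i) sends g p = min y (E a - i y) tokens
to the strip a < N with (a + 1) % N = c (this a differs from c because 2 ≤ N), and y - g p tokens to the strip N.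
∑ i < s, min y (E - i y) = min E (s y) by induction on s; the i with min y (E - i y) ≠ 0 satisfy i y < E.
`V_sq`: `cyc_route` with s a = μ a * j a and `V_pts` with N + 1 strips (functions fun a => if a < N then j a else J0
etc., no tangents live in the strip N). For a < N the multiset Nf of tokens of the foreign points has
card K + t - μ j, sum E a, entries ≤ y ≤ x a, and c nonzero entries with y c < E a + y, so it has at least μ b zeros:
Nf = replicate (μ b) 0 + N'. Apply `S_sqstrip` with k = K - μ j; the count k (j + x) ≤ j * card N' + E follows from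
K x ≤ j t + μ j (m - y) + E and x + y = m + b. The sink: `S_gpl`, `cap_pure`, `cap_grOK`; all points are foreign,
it receives y (K + t) - ∑ E a tokens (sum the identity ∑ a < N + 1, e p a = y over p, `Finset.sum_comm`).
-/

set_option autoImplicit false

namespace Pool.Agent.Work.MP_f4b644_ag.Fat

open Big Thin Multiset Big.Gad

theorem S_sqstrip (m j x y μ b k f : ℕ) (N : Multiset ℕ) (hj : 2 ≤ j) (hμ : 1 ≤ μ) (hx : x + y = m + b)
    (hb : y + 3 + b / (j - 1) ≤ m) (hC : Cap m j x (μ * j) y)
    (hf : f + (y + 1) * (μ * j) + x = (m + 1) * j) (hc : 3 * j ≤ μ * j + f) (hN : ∀ e ∈ N, e ≤ x)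
    (hk : k * (j + x) ≤ j * N.card + N.sum) :
    S (m + 2) j (μ * j + k) (replicate (μ * j) (T y 0) + replicate (μ * b) (BP 0) + N.map BP +
      replicate f (CP 1)) := by
  have hp := S_gpl (cap_grOK hC f hf) k N hN hk
  rw [mul_comm μ j] at hp hf hc ⊢
  have h := S_peel (m + 2) j y j b k μ 0 N (replicate f 1) (fun _ => ?_) (S.of_eq (by simp) hp)
  · exact S.of_eq (by simp) h
  obtain ⟨ν, rfl⟩ : ∃ ν, μ = ν + 1 := ⟨μ - 1, by omega⟩
  have e1 : j * (ν + 1) = j * ν + j := by ring
  rw [show j * (ν + 1) + 0 - j = j * ν by omega]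
  generalize hβ : b / (j - 1) = β at hb
  refine S_sql (m + 2) j y b (replicate (j * ν) (y + 1) + replicate f 1) hj (by omega)
    (fun z hz => ?_) ?_ ?_
  · rcases mem_add.1 hz with hz | hz <;> rw [eq_of_mem_replicate hz] <;> omega
  · simp only [card_add, card_replicate]
    omega
  · simp only [sum_add, sum_replicate, smul_eq_mul]
    have e2 : (y + 1) * (j * (ν + 1)) = j * (y + 1) + j * ν * (y + 1) := by ring
    have e3 : (m + 2) * j = (m + 1) * j + j := by ring
    omega

theorem Sq_min (y E s : ℕ) : ∑ i ∈ Finset.range s, min y (E - i * y) = min E (s * y) := by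
  induction s with
  | zero => simp
  | succ s ih =>
    rw [Finset.sum_range_succ, ih, add_one_mul]
    omega

theorem Sq_cnt (y E s : ℕ) (hy : 1 ≤ y) :
    y * ∑ i ∈ Finset.range s, (if min y (E - i * y) ≠ 0 then 1 else 0) < E + y ∧
      ∑ i ∈ Finset.range s, (if min y (E - i * y) ≠ 0 then 1 else 0) ≤ s := by
  induction s with
  | zero => simp; omega
  | succ s ih =>
    rw [Finset.sum_range_succ]
    split_ifs with h
    · have h1 := Nat.mul_le_mul_left y ih.2
      have h2 := ih.2
      rw [mul_add_one]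
      rw [mul_comm y s] at h1
      omega
    · exact ⟨ih.1, ih.2.trans (Nat.le_succ s)⟩

theorem cyc_route (N y : ℕ) (s E : ℕ → ℕ) (hN : 2 ≤ N) (hy : 1 ≤ y)
    (hE : ∀ a < N, ∀ c < N, E a ≤ y * s c) :
    ∃ (ι : Type) (_ : Fintype ι) (home : ι → ℕ) (e : ι → ℕ → ℕ),
      Fintype.card ι = ∑ a ∈ Finset.range N, s a ∧ (∀ p, home p < N) ∧
      (∀ a < N, (Finset.univ.filter (fun p => home p = a)).card = s a) ∧
      (∀ p, e p (home p) = 0) ∧ (∀ p, ∑ a ∈ Finset.range (N + 1), e p a = y) ∧
      ∀ a < N, ∑ p, e p a = E a ∧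
        y * (Finset.univ.filter (fun p => e p a ≠ 0)).card < E a + y := by
  let pd : ℕ → ℕ := fun c => if c = 0 then N - 1 else c - 1
  let e : ((a : Fin N) × Fin (s a)) → ℕ → ℕ := fun p a =>
    if a = pd p.1 then min y (E a - p.2 * y)
    else if a = N then y - min y (E (pd p.1) - p.2 * y) else 0
  have hpd : ∀ c < N, pd c < N ∧ pd c ≠ c := fun c hc => by
    simp only [pd]
    split_ifs <;> omega
  have key : ∀ a < N, ∃ c < N, ∀ φ : ℕ → ℕ, φ 0 = 0 →
      ∑ p, φ (e p a) = ∑ i ∈ Finset.range (s c), φ (min y (E a - i * y)) := fun a ha => by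
    obtain ⟨c, hc, h1, h2⟩ : ∃ c < N, a = pd c ∧ ∀ c' < N, a = pd c' → c' = c := by
      obtain ⟨c, hc⟩ : ∃ c, (a + 1 = N ∧ c = 0) ∨ (a + 1 < N ∧ c = a + 1) := by
        by_cases h : a + 1 = N
        · exact ⟨0, Or.inl ⟨h, rfl⟩⟩
        · exact ⟨a + 1, Or.inr ⟨by omega, rfl⟩⟩
      refine ⟨c, by omega, ?_, fun c' hc' => ?_⟩
      · simp only [pd]
        split_ifs <;> omega
      · simp only [pd]
        split_ifs <;> omega
    refine ⟨c, hc, fun φ hφ => ?_⟩
    rw [Fintype.sum_sigma, Finset.sum_eq_single (⟨c, hc⟩ : Fin N)]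
    · rw [← Fin.sum_univ_eq_sum_range fun i => φ (min y (E a - i * y))]
      exact Finset.sum_congr rfl fun i _ => congrArg φ (if_pos h1)
    · intro c' _ hne
      refine Finset.sum_eq_zero fun i _ => ?_
      simp only [e]
      rw [if_neg fun h => hne (Fin.ext (h2 _ c'.2 h)), if_neg ha.ne, hφ]
    · simp
  refine ⟨((a : Fin N) × Fin (s a)), inferInstance, fun d => d.1, e, Hall_all N s, fun d => d.1.2,
    fun a ha => Hall_fib N s ha, fun p => ?_, fun p => ?_, fun a ha => ?_⟩
  · simp only [e]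
    rw [if_neg (hpd _ p.1.2).2.symm, if_neg p.1.2.ne]
  · have h1 := (hpd _ p.1.2).1
    rw [Finset.sum_range_succ, Finset.sum_eq_single (pd p.1)]
    · simp only [e]
      rw [if_pos trivial, if_neg h1.ne', if_pos trivial]
      omega
    · intro a ha hne
      simp only [e]
      rw [if_neg hne, if_neg (Finset.mem_range.1 ha).ne]
    · exact fun h => absurd (Finset.mem_range.2 h1) h
  · obtain ⟨c, hc, h⟩ := key a ha
    have h1 := hE a ha c hc
    refine ⟨(h id rfl).trans ((Sq_min y (E a) (s c)).trans (min_eq_left (by rwa [mul_comm]))), ?_⟩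
    rw [Finset.card_filter, h (fun n => if n ≠ 0 then 1 else 0) (by simp)]
    exact (Sq_cnt y (E a) (s c) hy).1

/-- the conditions on one strip of squares -/
def SqOK (m K t y j x μ b E : ℕ) : Prop :=
  2 ≤ j ∧ 1 ≤ μ ∧ x + y = m + b ∧ y ≤ x ∧ y + 3 + b / (j - 1) ≤ m ∧ Cap m j x (μ * j) y ∧
    x + y * (μ * j) + 3 * j ≤ (m + 1) * j ∧ μ * j ≤ K ∧ K * x ≤ j * t + μ * j * (m - y) + E ∧
    E + y * (μ * (j + b)) ≤ y * (K + t)

theorem Sq_strip {m K t y j x μ b E c : ℕ} (H : SqOK m K t y j x μ b E) (Nf : Multiset ℕ)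
    (c1 : Nf.card + μ * j = K + t) (c2 : Nf.sum = E) (c3 : ∀ n ∈ Nf, n ≤ y)
    (c4 : Nf.card ≤ Nf.count 0 + c) (c5 : y * c < E + y) :
    S (m + 2) j K (replicate (μ * j) (T y 0) + Nf.map BP +
      replicate ((m + 1) * j - x - (y + 1) * (μ * j)) (CP 1)) := by
  obtain ⟨a1, a2, a3, a4, a5, a6, a7, a8, a9, a10⟩ := H
  have e1 : μ * (j + b) = μ * j + μ * b := by ring
  have h1 : c + μ * (j + b) < K + t + 1 := by
    refine Nat.lt_of_mul_lt_mul_left (a := y) ?_
    rw [mul_add, mul_add_one]
    omega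
  obtain ⟨N', rfl⟩ := Multiset.le_iff_exists_add.1 (le_count_iff_replicate_le.1
    (show μ * b ≤ Nf.count 0 by omega))
  obtain ⟨k, rfl⟩ := Nat.exists_eq_add_of_le a8
  obtain ⟨d, rfl⟩ : ∃ d, m = y + d := ⟨m - y, by
    have := Nat.zero_le (b / (j - 1))
    omega⟩
  obtain rfl : x = d + b := by omega
  rw [card_add, card_replicate] at c1
  rw [sum_add, sum_replicate, smul_zero, zero_add] at c2
  rw [Nat.add_sub_cancel_left] at a9
  have e2 : (y + 1) * (μ * j) = y * (μ * j) + μ * j := by ring
  have h := S_sqstrip (y + d) j (d + b) y μ b k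
    ((y + d + 1) * j - (d + b) - (y + 1) * (μ * j)) N' a1 a2 a3 a5 a6 (by
      have := a6.2.1
      omega) (by omega) (fun n hn => (c3 n (mem_add.2 (Or.inr hn))).trans a4) (by
      have h2 : j * (μ * b + N'.card) = j * (k + t) := congrArg _ (by omega)
      rw [c2]
      nlinarith)
  refine h.of_eq ?_
  rw [Multiset.map_add, map_replicate, add_assoc (replicate (μ * j) (T y 0))]

theorem V_sq (m K t N y J0 x0 : ℕ) (j x μ b E : ℕ → ℕ) (hN : 2 ≤ N) (hy : 1 ≤ y) (hm : 3 ≤ m)
    (hs : ∑ a ∈ Finset.range N, μ a * j a = K + t)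
    (H : ∀ a < N, SqOK m K t y (j a) (x a) (μ a) (b a) (E a))
    (hE : ∀ a < N, ∀ c < N, E a ≤ y * (μ c * j c)) (hJ0 : 1 ≤ J0) (h0 : x0 + 2 * J0 ≤ m * J0)
    (h1 : y ≤ x0) (h2 : K * x0 + ∑ a ∈ Finset.range N, E a ≤ J0 * t + y * (K + t)) :
    V m (∑ a ∈ Finset.range N, j a + J0) (∑ a ∈ Finset.range N, x a + x0) K t (K + t) 0 0 0 := by
  obtain ⟨ι, _, home, e, hcard, hlt, hfib, e0, e1, e2⟩ :=
    cyc_route N y (fun a => μ a * j a) E hN hy hE
  have hι := hcard.trans hs
  have ey : ∀ p, ∀ a < N + 1, e p a ≤ y := fun p a ha =>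
    (Finset.single_le_sum (f := e p) (fun _ _ => Nat.zero_le _) (Finset.mem_range.2 ha)).trans
      (e1 p).le
  have c2 : ∀ a, ((Finset.univ.filter (fun p => home p ≠ a)).val.map fun p => e p a).sum =
      ∑ p, e p a := fun a => Finset.sum_filter_of_ne fun p _ hp k => hp (k ▸ e0 p)
  have c3 : ∀ a < N + 1,
      ∀ n ∈ (Finset.univ.filter (fun p => home p ≠ a)).val.map fun p => e p a, n ≤ y := by
    intro a ha n hn
    obtain ⟨p, -, rfl⟩ := mem_map.1 hn
    exact ey p a ha
  have hx0 : x0 ≤ (m + 1) * J0 := by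
    rw [add_one_mul]
    omega
  have key := V_pts m K t (N + 1) home (fun a => if a < N then j a else J0)
    (fun a => if a < N then x a else x0) (fun a => if a < N then μ a * j a else 0) (fun _ => y) e hι
    (fun a ha => ?_) e0 (fun p => (e1 p).le) (fun p => (hlt p).trans (Nat.lt_succ_self N))
    (fun a ha => ?_) fun a ha => ?_
  · have k1 : ∀ (u : ℕ → ℕ) (v : ℕ), ∑ a ∈ Finset.range (N + 1), (if a < N then u a else v) =
        ∑ a ∈ Finset.range N, u a + v := fun u v => by
      rw [Finset.sum_range_succ, if_neg (lt_irrefl N)]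
      exact congrArg (· + v) (Finset.sum_congr rfl fun a ha => if_pos (Finset.mem_range.1 ha))
    rwa [k1, k1] at key
  · split_ifs with h
    · exact hfib a h
    · exact Finset.card_eq_zero.2 (Finset.filter_eq_empty_iff.2 fun p _ k => h (k ▸ hlt p))
  · split_ifs with h
    · exact (H a h).2.2.2.2.2.1.2.1
    · simpa using hx0
  split_ifs with h
  · refine Sq_strip (H a h) _ ?_ ((c2 a).trans (e2 a h).1) (c3 a ha) ?_ (e2 a h).2
    · have h1 := Finset.card_filter_add_card_filter_not (s := Finset.univ) fun p => home p = a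
      rw [hfib a h, Finset.card_univ, hι] at h1
      rw [card_map, Finset.card_val]
      simp only [ne_eq]
      omega
    · rw [card_map, count_map, Finset.card_val, ← Finset.filter_val, Finset.card_val,
        ← Finset.card_filter_add_card_filter_not (s := Finset.univ.filter fun p => home p ≠ a)
          fun p => 0 = e p a]
      refine Nat.add_le_add_left (Finset.card_le_card fun p hp => ?_) _
      exact Finset.mem_filter.2 ⟨Finset.mem_univ _, fun k => (Finset.mem_filter.1 hp).2 k.symm⟩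
  · obtain rfl : a = N := by omega
    have c1 : ((Finset.univ.filter (fun p => home p ≠ a)).val.map fun p => e p a).card = K + t := by
      rw [card_map, Finset.card_val, Finset.filter_true_of_mem fun p _ => (hlt p).ne,
        Finset.card_univ, hι]
    have c4 : ∑ c ∈ Finset.range a, E c + ∑ p, e p a = y * (K + t) := by
      rw [← Finset.sum_congr rfl fun c hc => (e2 c (Finset.mem_range.1 hc)).1,
        ← Finset.sum_range_succ fun c => ∑ p, e p c, Finset.sum_comm,
        Finset.sum_congr rfl fun p _ => e1 p, Finset.sum_const, Finset.card_univ, hι, smul_eq_mul,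
        mul_comm]
    have hg := cap_grOK (cap_pure (y := y) hm hJ0 h0) ((m + 1) * J0 - x0 - (y + 1) * 0) (by omega)
    have h3 := S_gpl hg K _ (fun n hn => (c3 a ha n hn).trans h1) (by
      rw [c1, c2, mul_add, mul_add, mul_comm J0 K]
      omega)
    simpa using h3

end Pool.Agent.Work.MP_f4b644_ag.Fat
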