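import Pool.Agent.Work.MP_f4b644_ag.Fat.Sq
import Pool.Agent.Work.MP_f4b644_ag.Fat.Cum

/-!
A block built from two bands of strips of squares (μ - 1 resp. μ squares per strip), y = 3, m' = m - 3.

`sq_strip`: ν ∈ {μ - 1, μ}; x = the ceiling of (j t + ν j m') / K, E = K x - j t - ν j m' < K, b = x - m'.
Facts: K ≤ 3 ν j; 3 ν j < 2 K + 3 ν, so 6 ν j ≤ 5 K; 2 ≤ a; m' K ≤ j (t + ν m') because K ≤ 3 ν j and 2 ν m' ≤ t,
so m' ≤ x; K x < j (t + ν m') + K and 8 (t + ν m') ≤ 3 (m - 5) K. `Cap`: R = max 4 (3 ν) and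
(x - 1) / j ≤ m - 1 - R from (x - 1) K < j (t + ν m') (`hS4` with 2 ≤ μ for R = 3 ν); the capacity
4 ν j + x ≤ (m + 1) j from `hS4` and K ≤ 3 ν j; x + 3 ν j + 3 j ≤ (m + 1) j from the capacity if 3 ≤ ν and from
the bound 3 (m - 5) / 8 otherwise; b ≤ x ≤ (m - 6) (j - 1). Last condition: multiply by K,
K ν b < ν j t + ν (ν j m' - m' K + K) ≤ 5 K t / 6 + ν K (1 - m' / 6), so E + 3 ν j + 3 ν b ≤ 3 K + 3 t as 12 ≤ m'
or by a finer estimate for 12 ≤ m (you may use the hypothesis 28 ≤ m).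
`V_sqblk`: a1, a2 = the ceilings of K / (3 (μ - 1)), K / (3 μ); H1 ∈ [a1, a1 + μ) with μ ∣ K + t + H1,
H1 + H2 = (K + t + H1) / μ, so (μ - 1) H1 + μ H2 = K + t. Then H1 + H2 ≤ Jb (3 a1 ≤ K + 2, `hμ`) and a2 ≤ H2
(μ * μ ≤ t because 4 μ ≤ m + 1). `band_cut` for both bands, glue the functions (index a < n1 or a - n1), `choose` x, b, E
by `sq_strip`, J0' = J - H1 - H2 ≥ J0 ≥ 1. Summing K x = j t + ν j m' + E gives
K ∑ x = (H1 + H2) t + (K + t) m' + ∑ E with ∑ E ≤ 3 (K + t) (E < K ≤ 3 ν j), and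
K (m + ω) + δ = m (K + t) + t J; so K (m + ω) - K ∑ x = 3 (K + t) - ∑ E + J0' t - δ ≥ 3 K, x0 = m + ω - ∑ x ≥ 3, and
K x0 ≤ 3 K + 3 t + J0' t ≤ J0' (m - 2) K. Apply `V_sq`.
-/

set_option autoImplicit false

namespace Pool.Agent.Work.MP_f4b644_ag.Fat

open Big Thin Multiset Big.Gad

theorem SqB_ceil (A K : ℕ) (hK : 0 < K) : ∃ x E, K * x = A + E ∧ E < K := by
  refine ⟨(A + (K - 1)) / K, K - 1 - (A + (K - 1)) % K, ?_, by omega⟩
  have h1 := Nat.div_add_mod (A + (K - 1)) K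
  have h2 := Nat.mod_lt (A + (K - 1)) hK
  omega

theorem sq_strip (m K t μ ν a j : ℕ) (hm : 28 ≤ m) (hμ2 : 2 ≤ μ) (hν : ν + 1 = μ ∨ ν = μ)
    (hS1 : 2 * μ * (m - 3) ≤ t) (hS2 : 6 * μ ≤ K) (hS3 : 4 * t + 5 * K ≤ m * K)
    (hS4 : 4 * μ * K + t + μ * m ≤ (m + 1) * K) (ha1 : K ≤ 3 * ν * a) (ha2 : 3 * ν * a < K + 3 * ν)
    (hj1 : a ≤ j) (hj2 : j + 1 ≤ 2 * a) :
    ∃ x b E, SqOK m K t 3 j x ν b E ∧ K * x = j * t + ν * j * (m - 3) + E ∧ E < K ∧ K ≤ 3 * (ν * j) := by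
  obtain ⟨r, rfl⟩ : ∃ r, m = r + 5 := ⟨m - 5, by omega⟩
  have e3 : r + 5 - 3 = r + 2 := by omega
  rw [e3] at hS1 ⊢
  have hK : 0 < K := by omega
  have ν1 : 1 ≤ ν := by omega
  have νμ : ν ≤ μ := by omega
  obtain ⟨x, E, hx, hE⟩ := SqB_ceil (j * t + ν * j * (r + 2)) K hK
  have F1 : K ≤ 3 * (ν * j) := by
    have := Nat.mul_le_mul_left (3 * ν) hj1
    linarith
  have F2 : 3 * (ν * j) < 2 * K + 3 * ν := by
    have := Nat.mul_le_mul_left (3 * ν) hj2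
    linarith
  have F3 : 2 ≤ a := Nat.le_of_mul_le_mul_left (c := 3 * ν) (by omega) (by omega)
  have j2 : 2 ≤ j := by omega
  have t1 : 2 * (ν * (r + 2)) ≤ t := by
    have := Nat.mul_le_mul_right (r + 2) νμ
    linarith
  have F4 : r + 2 ≤ x := by
    refine Nat.le_of_mul_le_mul_left (c := K) ?_ hK
    have h1 := Nat.mul_le_mul_right (r + 2) F1
    have h2 := Nat.mul_le_mul_left j t1
    linarith
  obtain ⟨b, rfl⟩ : ∃ b, x = r + 2 + b := ⟨x - (r + 2), by omega⟩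
  have F5 : 8 * (r + 2 + b) < 3 * (r * j) + 8 := by
    refine Nat.lt_of_mul_lt_mul_left (a := K) ?_
    have h1 := Nat.mul_le_mul_left j t1
    have h2 : 4 * t ≤ r * K := by linarith
    have h3 := Nat.mul_le_mul_left j h2
    linarith
  have F6 : 4 * (ν * j) + (r + 2 + b) < (r + 5 + 1) * j := by
    refine Nat.lt_of_mul_lt_mul_left (a := K) ?_
    have h1 := Nat.mul_le_mul_left j hS4
    have h2 := Nat.mul_le_mul_right (j * K) νμ
    have h3 := Nat.mul_le_mul_right (j * (r + 5)) νμ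
    linarith
  have r1 : 23 * j ≤ r * j := Nat.mul_le_mul_right j (by omega)
  have r2 : r * 2 ≤ r * j := Nat.mul_le_mul_left r j2
  have q1 : (r + 2 + b - 1) / j * j ≤ r + 2 + b := (Nat.div_mul_le_self _ _).trans (by omega)
  obtain ⟨d, hd⟩ : ∃ d, K = ν * j + d := ⟨K - ν * j, by omega⟩
  have F7 : ν + ν * b ≤ t := by
    refine Nat.le_of_mul_le_mul_left (c := K) ?_ hK
    have h1 : ν * (K * (r + 2 + b)) = ν * (j * t + ν * j * (r + 2) + E) := by rw [hx]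
    have h2 : ν * (r + 2) * K = ν * (r + 2) * (ν * j + d) := by rw [← hd]
    have h3 := Nat.mul_le_mul_left ν hE.le
    have h4 : ν * K ≤ ν * (6 * d) := Nat.mul_le_mul_left ν (by omega)
    have h5 : ν * d * 12 ≤ ν * d * (r + 2) := Nat.mul_le_mul_left _ (by omega)
    have h6 : ν * j * t ≤ K * t := Nat.mul_le_mul_right t (by omega)
    linarith
  refine ⟨r + 2 + b, b, E, ⟨j2, ν1, by omega, by omega, ?_, ⟨by omega, by omega, ?_⟩, ?_, by omega,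
    by rw [e3]; exact hx.le, ?_⟩, hx, hE, F1⟩
  · obtain ⟨i, rfl⟩ : ∃ i, j = i + 1 := ⟨j - 1, by omega⟩
    have h1 : b / i * i ≤ b := Nat.div_mul_le_self _ _
    have h2 : r * 1 ≤ r * i := Nat.mul_le_mul_left r (by omega)
    have h3 : 23 * i ≤ r * i := Nat.mul_le_mul_right i (by omega)
    rw [Nat.add_sub_cancel]
    refine Nat.le_of_mul_le_mul_right (c := i) ?_ (by omega)
    linarith
  · rcases Nat.eq_or_lt_of_le ν1 with h1 | h1
    · subst h1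
      refine ⟨4, by omega, Nat.le_of_mul_le_mul_right (c := j) ?_ (by omega), Or.inl le_rfl, by omega⟩
      linarith
    · refine ⟨3 * ν, by omega, Nat.le_of_mul_le_mul_right (c := j) ?_ (by omega), Or.inl (by omega),
        by linarith⟩
      have h2 : 2 * j ≤ ν * j := Nat.mul_le_mul_right j h1
      linarith
  · rcases le_or_gt 3 ν with h1 | h1
    · have h2 : 3 * j ≤ ν * j := Nat.mul_le_mul_right j h1
      linarith
    · have h2 : ν * j ≤ 2 * j := Nat.mul_le_mul_right j (by omega)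
      linarith
  · rw [mul_add ν]
    omega

theorem V_sqblk (m J ω K t δ μ J0 Jb : ℕ) (hm : 28 ≤ m) (hδ : t * (J + m) = ω * K + δ) (hμ2 : 2 ≤ μ)
    (hS1 : 2 * μ * (m - 3) ≤ t) (hS2 : 6 * μ ≤ K) (hS3 : 4 * t + 5 * K ≤ m * K)
    (hS4 : 4 * μ * K + t + μ * m ≤ (m + 1) * K) (hμ : 4 * K + 3 * t ≤ 3 * μ * Jb)
    (hJ0 : 3 * K + δ ≤ J0 * t) (hJ : J0 + Jb ≤ J) : V m J (m + ω) K t (K + t) 0 0 0 := by
  obtain ⟨μ', rfl⟩ : ∃ μ', μ = μ' + 1 := ⟨μ - 1, by omega⟩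
  have hK : 0 < K := by omega
  obtain ⟨a1, E1, ha1, hE1⟩ := SqB_ceil K (3 * μ') (by omega)
  obtain ⟨a2, E2, ha2, hE2⟩ := SqB_ceil K (3 * (μ' + 1)) (by omega)
  obtain ⟨S, E3, hS, hE3⟩ := SqB_ceil (K + t + a1) (μ' + 1) (by omega)
  have a1p : 1 ≤ a1 := Nat.pos_of_ne_zero (by rintro rfl; omega)
  have a2p : 1 ≤ a2 := Nat.pos_of_ne_zero (by rintro rfl; omega)
  have μm : 4 * (μ' + 1) ≤ m + 1 := Nat.le_of_mul_le_mul_right (c := K) (by omega) hK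
  have μt : μ' * μ' ≤ t := by
    have h1 : μ' * μ' ≤ 2 * (μ' + 1) * (m - 3) := Nat.mul_le_mul (by omega) (by omega)
    omega
  have hH : a1 + E3 + a2 ≤ S := by
    refine Nat.le_of_mul_le_mul_left (c := μ' + 1) ?_ (by omega)
    have h1 : μ' * E3 ≤ μ' * μ' := Nat.mul_le_mul_left _ (by omega)
    linarith
  have a13 : 3 * a1 ≤ K + 2 := by
    obtain ⟨i, rfl⟩ : ∃ i, a1 = i + 1 := ⟨a1 - 1, by omega⟩
    have h1 : 1 * i ≤ μ' * i := Nat.mul_le_mul_right i (by omega)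
    linarith
  have hSJ : S ≤ Jb := by
    refine Nat.le_of_lt_succ (Nat.lt_of_mul_lt_mul_left (a := 3 * (μ' + 1)) ?_)
    rw [Nat.succ_eq_add_one]
    linarith
  obtain ⟨H2, rfl⟩ : ∃ H2, S = a1 + E3 + H2 := ⟨S - (a1 + E3), by omega⟩
  obtain ⟨n1, j1, n1p, s1, b1⟩ := band_cut a1 (a1 + E3) a1p (by omega)
  obtain ⟨n2, j2, n2p, s2, b2⟩ := band_cut a2 H2 a2p (by omega)
  obtain ⟨j, hj1, hj2⟩ : ∃ j : ℕ → ℕ, (∀ a < n1, j a = j1 a) ∧ ∀ a, j (n1 + a) = j2 a :=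
    ⟨fun a => if a < n1 then j1 a else j2 (a - n1), fun a ha => if_pos ha, fun a => by simp⟩
  obtain ⟨ν, hν1, hν2⟩ : ∃ ν : ℕ → ℕ, (∀ a < n1, ν a = μ') ∧ ∀ a, ν (n1 + a) = μ' + 1 :=
    ⟨fun a => if a < n1 then μ' else μ' + 1, fun a ha => if_pos ha, fun a => by simp⟩
  have hall : ∀ a, ∃ x b E, a < n1 + n2 → SqOK m K t 3 (j a) x (ν a) b E ∧
      K * x = j a * t + ν a * j a * (m - 3) + E ∧ E < K ∧ K ≤ 3 * (ν a * j a) := fun a => by
    by_cases h1 : a < n1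
    · obtain ⟨x, b, E, h⟩ := sq_strip m K t (μ' + 1) μ' a1 (j1 a) hm hμ2 (Or.inl rfl) hS1 hS2 hS3
        hS4 (by omega) (by omega) (b1 a h1).1 (b1 a h1).2
      exact ⟨x, b, E, fun _ => by rw [hj1 a h1, hν1 a h1]; exact h⟩
    by_cases h2 : a < n1 + n2
    · obtain ⟨i, rfl⟩ : ∃ i, a = n1 + i := ⟨a - n1, by omega⟩
      obtain ⟨x, b, E, h⟩ := sq_strip m K t (μ' + 1) (μ' + 1) a2 (j2 i) hm hμ2 (Or.inr rfl) hS1 hS2
        hS3 hS4 (by omega) (by omega) (b2 i (by omega)).1 (b2 i (by omega)).2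
      exact ⟨x, b, E, fun _ => by rw [hj2, hν2]; exact h⟩
    · exact ⟨0, 0, 0, fun h => absurd h h2⟩
  choose x b E hall using hall
  have sj : ∑ a ∈ Finset.range (n1 + n2), j a = a1 + E3 + H2 := by
    rw [Finset.sum_range_add, ← s1, ← s2]
    exact congrArg₂ _ (Finset.sum_congr rfl fun a ha => hj1 a (Finset.mem_range.1 ha))
      (Finset.sum_congr rfl fun a _ => hj2 a)
  have sν : ∑ a ∈ Finset.range (n1 + n2), ν a * j a = K + t := by
    have h1 : ∑ a ∈ Finset.range (n1 + n2), ν a * j a = μ' * (a1 + E3) + (μ' + 1) * H2 := by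
      rw [Finset.sum_range_add, ← s1, ← s2, Finset.mul_sum, Finset.mul_sum]
      exact congrArg₂ _ (Finset.sum_congr rfl fun a ha => by
        rw [hj1 a (Finset.mem_range.1 ha), hν1 a (Finset.mem_range.1 ha)])
        (Finset.sum_congr rfl fun a _ => by rw [hj2, hν2])
    linarith
  have sx : K * ∑ a ∈ Finset.range (n1 + n2), x a = (a1 + E3 + H2) * t + (K + t) * (m - 3) +
      ∑ a ∈ Finset.range (n1 + n2), E a := by
    rw [← sj, ← sν, Finset.mul_sum, Finset.sum_mul, Finset.sum_mul, ← Finset.sum_add_distrib,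
      ← Finset.sum_add_distrib]
    exact Finset.sum_congr rfl fun a ha => (hall a (Finset.mem_range.1 ha)).2.1
  have sE : ∑ a ∈ Finset.range (n1 + n2), E a ≤ 3 * (K + t) := by
    rw [← sν, Finset.mul_sum]
    exact Finset.sum_le_sum fun a ha => (hall a (Finset.mem_range.1 ha)).2.2.1.le.trans
      (hall a (Finset.mem_range.1 ha)).2.2.2
  obtain ⟨J1, rfl⟩ : ∃ J1, J = a1 + E3 + H2 + J1 := ⟨J - (a1 + E3 + H2), by omega⟩
  have J0p : 1 ≤ J0 := Nat.pos_of_ne_zero (by rintro rfl; omega)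
  have J01 : J0 ≤ J1 := by omega
  have tJ : J0 * t ≤ J1 * t := Nat.mul_le_mul_right t J01
  obtain ⟨r, rfl⟩ : ∃ r, m = r + 5 := ⟨m - 5, by omega⟩
  have e3 : r + 5 - 3 = r + 2 := by omega
  rw [e3] at sx
  have hx3 : ∑ a ∈ Finset.range (n1 + n2), x a + 3 ≤ r + 5 + ω := by
    refine Nat.le_of_mul_le_mul_left (c := K) ?_ hK
    linarith
  obtain ⟨x0, hx0⟩ : ∃ x0, r + 5 + ω = ∑ a ∈ Finset.range (n1 + n2), x a + x0 :=
    ⟨r + 5 + ω - ∑ a ∈ Finset.range (n1 + n2), x a, by omega⟩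
  have k0 : K * (r + 5 + ω) = K * (∑ a ∈ Finset.range (n1 + n2), x a + x0) := by rw [← hx0]
  have h2 : K * x0 + ∑ a ∈ Finset.range (n1 + n2), E a ≤ J1 * t + 3 * (K + t) := by
    linarith [Nat.zero_le δ]
  rw [hx0, ← sj]
  refine V_sq (r + 5) K t (n1 + n2) 3 J1 x0 j x ν b E (by omega) (by omega) (by omega) sν
    (fun a ha => (hall a ha).1) (fun a ha c hc => (hall a ha).2.2.1.le.trans (hall c hc).2.2.2)
    (by omega) (Nat.le_of_mul_le_mul_left (c := K) ?_ hK) (by omega) h2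
  have h3 : 4 * t ≤ r * K := by linarith
  have h4 := Nat.mul_le_mul_left J1 h3
  have h5 : 1 * t ≤ J1 * t := Nat.mul_le_mul_right t (by omega)
  have h6 : 1 * K ≤ J1 * K := Nat.mul_le_mul_right K (by omega)
  linarith [Nat.zero_le (∑ a ∈ Finset.range (n1 + n2), E a)]

end Pool.Agent.Work.MP_f4b644_ag.Fat
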